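import Mathlib
import Pool.Prelude.Def_H_3587d628

/-!
Linear circuits and explicit families of matrices.
-/

namespace Pool.Agent.MP_5daf37_lc

/-- A linear circuit over `F` with `n` inputs, `n` outputs, `p` nodes and `q` edges: a directed
acyclic multigraph with scalars on the edges, labels of the sources and designated outputs. -/
structure Circuit (F : Type) (n p q : ℕ) where
  tail : Fin q → Fin p
  head : Fin q → Fin p
  weight : Fin q → F
  acyclic : ∀ v, ¬ Relation.TransGen (fun a b => ∃ e, tail e = a ∧ head e = b) v v
  label : Fin p → Fin n
  output : Fin n → Fin p

/-- The circuit computes the matrix `A`: on each input `x` a source carries the variable it is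
labelled by, every other node carries the weighted sum over its in-edges, and the outputs carry
the coordinates of `A x`. -/
def Circuit.Computes {F : Type} [Field F] {n p q : ℕ} (C : Circuit F n p q)
    (A : Matrix (Fin n) (Fin n) F) : Prop :=
  ∀ x : Fin n → F, ∃ val : Fin p → F,
    (∀ v, (∀ e, C.head e ≠ v) → val v = x (C.label v)) ∧
    (∀ v, (∃ e, C.head e = v) → val v = ∑ e with C.head e = v, C.weight e * val (C.tail e)) ∧
    ∀ i, val (C.output i) = A.mulVec x i

/-- A family of rational matrices is explicit if the list of rows of the `n`-th matrix is computed
in polynomial time from an input word of length `n`. -/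
def Explicit (A : (n : ℕ) → Matrix (Fin n) (Fin n) ℚ) : Prop :=
  N68a2faeb.IsPolyTime fun l : List Bool => List.ofFn fun i => List.ofFn fun j => A l.length i j

end Pool.Agent.MP_5daf37_lc
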