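import Mathlib.Algebra.Notation.Lemmas
import Mathlib.Topology.Sheaves.Presheaf
import Mathlib.Tactic.Monotonicity.Lemmas
import Mathlib.Data.Int.Star
import Mathlib.Algebra.Order.Ring.Star
import Mathlib.Analysis.SpecificLimits.Normed
import Mathlib.Algebra.Order.Star.Real
import Mathlib.RingTheory.PiTensorProduct
import Mathlib.Tactic.Algebra.Basic

-- ======== part 0: formerly Pool.Agent.MP_5daf37_lc.Hyper
section MrgPart0

/-!
Counting lemmas for set systems with sets of size at most three in which all small subfamilies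
satisfy the condition of Hall.
-/

open Finset

namespace Pool.Agent.MP_5daf37_lc

variable {ι ω : Type*} [DecidableEq ι] [DecidableEq ω]

/-- every subfamily with at most K members covers at least as many points as it has members -/
def Hall (K : ℕ) (S : Finset ι) (N : ι → Finset ω) : Prop :=
  ∀ A ⊆ S, A.card ≤ K → A.card ≤ (A.biUnion N).card

omit [DecidableEq ι] in
lemma Hall.mono {K K' : ℕ} {S S' : Finset ι} {N : ι → Finset ω} (h : Hall K S N) (hK : K' ≤ K)
    (hS : S' ⊆ S) : Hall K' S' N := fun A hA hc => h A (hA.trans hS) (hc.trans hK)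

omit [DecidableEq ι] in
lemma Hall.one_le {K : ℕ} {S : Finset ι} {N : ι → Finset ω} (h : Hall K S N) (hK : 1 ≤ K)
    {s : ι} (hs : s ∈ S) : 1 ≤ (N s).card := by
  simpa using h {s} (by simpa using hs) (by simpa using hK)

/-- balls in a set system -/
def ball (S : Finset ι) (N : ι → Finset ω) (u : ω) : ℕ → Finset ω
  | 0 => {u}
  | i + 1 => ball S N u i ∪ (S.filter fun s => ¬ Disjoint (N s) (ball S N u i)).biUnion N

omit [DecidableEq ι] in
lemma ball_subset {S : Finset ι} {N : ι → Finset ω} {W : Finset ω} (hN : ∀ s ∈ S, N s ⊆ W)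
    {u : ω} (hu : u ∈ W) (i : ℕ) : ball S N u i ⊆ W := by
  induction i with
  | zero => simpa [ball] using hu
  | succ i ih =>
    rw [ball]
    refine Finset.union_subset ih (Finset.biUnion_subset.2 fun s hs => ?_)
    exact hN s (Finset.mem_filter.1 hs).1

omit [DecidableEq ι] in
lemma mem_ball_self (S : Finset ι) (N : ι → Finset ω) (u : ω) (i : ℕ) : u ∈ ball S N u i := by
  induction i with
  | zero => simp [ball]
  | succ i ih => rw [ball]; exact Finset.mem_union_left _ ih

omit [DecidableEq ι] in
lemma ball_tree [Nonempty ι] {S : Finset ι} {N : ι → Finset ω} (h2 : ∀ s ∈ S, (N s).card ≤ 2)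
    (u : ω) (i : ℕ) :
    ∃ pe : ω → ι, Set.InjOn pe ((ball S N u i).erase u) ∧
      (∀ x ∈ (ball S N u i).erase u, pe x ∈ S) ∧
      ∀ v ∈ ball S N u i, ∃ U ⊆ ball S N u i, u ∈ U ∧ v ∈ U ∧ U.card ≤ i + 1 ∧
        ∀ x ∈ U.erase u, N (pe x) ⊆ U := by
  induction i with
  | zero =>
    refine ⟨fun _ => Classical.arbitrary ι, by simp [ball], by simp [ball], fun v hv => ?_⟩
    exact ⟨{u}, by simp [ball], by simp, by simpa [ball] using hv, by simp, by simp⟩
  | succ i ih =>
    obtain ⟨pe, hinj, hmem, hU⟩ := ih
    set B := ball S N u i with hB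
    have hnew : ∀ v, ∃ s, v ∈ ball S N u (i + 1) → v ∉ B →
        s ∈ S ∧ ∃ p ∈ B, N s = {v, p} := by
      intro v
      by_cases hv : v ∈ ball S N u (i + 1) ∧ v ∉ B
      · have h1 := hv.1
        rw [ball, Finset.mem_union] at h1
        rcases h1 with h1 | h1
        · exact absurd h1 hv.2
        · obtain ⟨s, hs, hvs⟩ := Finset.mem_biUnion.1 h1
          obtain ⟨hsS, hnd⟩ := Finset.mem_filter.1 hs
          obtain ⟨p, hp1, hp2⟩ := Finset.not_disjoint_iff.1 hnd
          refine ⟨s, fun _ _ => ⟨hsS, p, hp2, ?_⟩⟩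
          have hne : v ≠ p := fun h => hv.2 (h ▸ hp2)
          symm
          apply Finset.eq_of_subset_of_card_le
          · intro x hx
            simp only [Finset.mem_insert, Finset.mem_singleton] at hx
            rcases hx with rfl | rfl <;> assumption
          · rw [Finset.card_pair hne]; exact h2 s hsS
      · exact ⟨Classical.arbitrary ι, fun h1 h2 => absurd ⟨h1, h2⟩ hv⟩
    choose ne hne using hnew
    have hBsub : B ⊆ ball S N u (i + 1) := by rw [ball]; exact Finset.subset_union_left
    have hold : ∀ x ∈ B.erase u, N (pe x) ⊆ B := by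
      intro x hx
      obtain ⟨U, hUB, -, hxU, -, hcl⟩ := hU x (Finset.mem_of_mem_erase hx)
      exact (hcl x (Finset.mem_erase.2 ⟨Finset.ne_of_mem_erase hx, hxU⟩)).trans hUB
    refine ⟨fun x => if x ∈ B then pe x else ne x, ?_, ?_, ?_⟩
    · intro x hx y hy hxy
      simp only [Finset.coe_erase, Set.mem_sdiff, Finset.mem_coe, Set.mem_singleton_iff] at hx hy
      by_cases hxB : x ∈ B <;> by_cases hyB : y ∈ B <;> simp only [hxB, hyB, if_true, if_false] at hxy
      · exact hinj (by simpa using ⟨hxB, hx.2⟩) (by simpa using ⟨hyB, hy.2⟩) hxy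
      · obtain ⟨-, p, -, hp⟩ := hne y hy.1 hyB
        have := hold x (Finset.mem_erase.2 ⟨hx.2, hxB⟩)
        rw [hxy, hp] at this
        exact absurd (this (by simp)) hyB
      · obtain ⟨-, p, -, hp⟩ := hne x hx.1 hxB
        have := hold y (Finset.mem_erase.2 ⟨hy.2, hyB⟩)
        rw [← hxy, hp] at this
        exact absurd (this (by simp)) hxB
      · obtain ⟨-, p, hpB, hp⟩ := hne x hx.1 hxB
        obtain ⟨-, q, hqB, hq⟩ := hne y hy.1 hyB
        have : x ∈ ({y, q} : Finset ω) := by rw [← hq, ← hxy, hp]; simp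
        simp only [Finset.mem_insert, Finset.mem_singleton] at this
        rcases this with h | h
        · exact h
        · exact absurd (h ▸ hqB) hxB
    · intro x hx
      by_cases hxB : x ∈ B
      · simp only [hxB, if_true]
        exact hmem x (Finset.mem_erase.2 ⟨Finset.ne_of_mem_erase hx, hxB⟩)
      · simp only [hxB, if_false]
        exact (hne x (Finset.mem_of_mem_erase hx) hxB).1
    · intro v hv
      by_cases hvB : v ∈ B
      · obtain ⟨U, hUB, huU, hvU, hc, hcl⟩ := hU v hvB
        refine ⟨U, hUB.trans hBsub, huU, hvU, by omega, fun x hx => ?_⟩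
        have : x ∈ B := hUB (Finset.mem_of_mem_erase hx)
        simp only [this, if_true]
        exact hcl x hx
      · obtain ⟨-, p, hpB, hp⟩ := hne v hv hvB
        obtain ⟨U, hUB, huU, hpU, hc, hcl⟩ := hU p hpB
        refine ⟨insert v U, Finset.insert_subset hv (hUB.trans hBsub), by simp [huU], by simp,
          (Finset.card_insert_le _ _).trans (by omega), fun x hx => ?_⟩
        by_cases hxB : x ∈ B
        · simp only [hxB, if_true]
          have hxU : x ∈ U := by
            rcases Finset.mem_insert.1 (Finset.mem_of_mem_erase hx) with h | h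
            · exact absurd (h ▸ hxB) hvB
            · exact h
          exact (hcl x (Finset.mem_erase.2 ⟨Finset.ne_of_mem_erase hx, hxU⟩)).trans
            (Finset.subset_insert _ _)
        · simp only [hxB, if_false]
          have hxv : x = v := by
            rcases Finset.mem_insert.1 (Finset.mem_of_mem_erase hx) with h | h
            · exact h
            · exact absurd (hUB h) hxB
          rw [hxv, hp]
          intro z hz
          simp only [Finset.mem_insert, Finset.mem_singleton] at hz ⊢
          rcases hz with h | h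
          · exact Or.inl h
          · exact Or.inr (h ▸ hpU)

lemma inside_ball_le {S : Finset ι} {N : ι → Finset ω} (h2 : ∀ s ∈ S, (N s).card ≤ 2)
    (u : ω) (i : ℕ) (hH : Hall (4 * i + 6) S N) :
    (S.filter fun s => N s ⊆ ball S N u i).card ≤ (ball S N u i).card := by
  by_contra hlt
  push Not at hlt
  have hne : Nonempty ι := by
    obtain ⟨s, -⟩ := Finset.card_pos.1 (lt_of_le_of_lt (Nat.zero_le _) hlt)
    exact ⟨s⟩
  obtain ⟨pe, hinj, hmem, hU⟩ := ball_tree h2 u i
  set B := ball S N u i with hB
  have huB : u ∈ B := mem_ball_self S N u i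
  have h1 : 1 < ((S.filter fun s => N s ⊆ B) \ (B.erase u).image pe).card := by
    have a1 := Finset.le_card_sdiff ((B.erase u).image pe) (S.filter fun s => N s ⊆ B)
    have a2 := Finset.card_image_le (s := B.erase u) (f := pe)
    have a3 := Finset.card_erase_of_mem huB
    have a4 := Finset.card_pos.2 ⟨u, huB⟩
    omega
  obtain ⟨s₁, hs₁, s₂, hs₂, hne⟩ := Finset.one_lt_card.1 h1
  simp only [Finset.mem_sdiff, Finset.mem_filter] at hs₁ hs₂
  choose! U hUB huU hvU hc hcl using hU
  set P : Finset ω := N s₁ ∪ N s₂ with hP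
  have hPB : P ⊆ B := Finset.union_subset hs₁.1.2 hs₂.1.2
  have hPc : P.card ≤ 4 := (Finset.card_union_le _ _).trans
    (by have := h2 s₁ hs₁.1.1; have := h2 s₂ hs₂.1.1; omega)
  set T : Finset ω := insert u (P.biUnion U) with hT
  have hTB : T ⊆ B := Finset.insert_subset huB
    (Finset.biUnion_subset.2 fun v hv => hUB v (hPB hv))
  have hTc : T.card ≤ 4 * i + 5 := by
    refine (Finset.card_insert_le _ _).trans ?_
    have := Finset.card_biUnion_le_card_mul P U (i + 1) fun v hv => hc v (hPB hv)
    nlinarith
  have huT : u ∈ T := Finset.mem_insert_self _ _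
  set A : Finset ι := insert s₁ (insert s₂ ((T.erase u).image pe)) with hA
  have hsubim : (T.erase u).image pe ⊆ (B.erase u).image pe :=
    Finset.image_subset_image (Finset.erase_subset_erase _ hTB)
  have hAc : A.card = T.card + 1 := by
    rw [hA, Finset.card_insert_of_notMem, Finset.card_insert_of_notMem,
      Finset.card_image_of_injOn (hinj.mono (by
        exact_mod_cast Finset.erase_subset_erase _ hTB)), Finset.card_erase_of_mem huT]
    · have := Finset.card_pos.2 ⟨u, huT⟩
      omega
    · exact fun h => hs₂.2 (hsubim h)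
    · simp only [Finset.mem_insert, not_or]
      exact ⟨hne, fun h => hs₁.2 (hsubim h)⟩
  have hAS : A ⊆ S := by
    refine Finset.insert_subset hs₁.1.1 (Finset.insert_subset hs₂.1.1 ?_)
    intro s hs
    obtain ⟨x, hx, rfl⟩ := Finset.mem_image.1 (hsubim hs)
    exact hmem x hx
  have hPT : P ⊆ T := fun v hv =>
    Finset.mem_insert_of_mem (Finset.mem_biUnion.2 ⟨v, hv, hvU v (hPB hv)⟩)
  have hNA : A.biUnion N ⊆ T := by
    refine Finset.biUnion_subset.2 fun s hs => ?_
    simp only [hA, Finset.mem_insert] at hs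
    rcases hs with rfl | rfl | hs
    · exact Finset.subset_union_left.trans hPT
    · exact Finset.subset_union_right.trans hPT
    · obtain ⟨x, hx, rfl⟩ := Finset.mem_image.1 hs
      have hxu := Finset.ne_of_mem_erase hx
      rcases Finset.mem_insert.1 (Finset.mem_of_mem_erase hx) with h | h
      · exact absurd h hxu
      · obtain ⟨v, hv, hxv⟩ := Finset.mem_biUnion.1 h
        refine (hcl v (hPB hv) x (Finset.mem_erase.2 ⟨hxu, hxv⟩)).trans ?_
        exact (Finset.subset_biUnion_of_mem U hv).trans (Finset.subset_insert _ _)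
  have := hH A hAS (by omega)
  have := Finset.card_le_card hNA
  omega

/-- A graph in which small sets of edges span at least as many vertices is sparse. -/
lemma graph_bound {ε : ℝ} (hε : 0 ≤ ε) (r : ℕ) (N : ι → Finset ω) (W : Finset ω) :
    ∀ S : Finset ι, (∀ s ∈ S, N s ⊆ W) → (∀ s ∈ S, (N s).card ≤ 2) → Hall (4 * r + 6) S N →
      (W.card : ℝ) < (1 + ε) ^ r → (S.card : ℝ) ≤ (1 + ε) * W.card := by
  induction W using Finset.strongInduction with
  | H W ih =>
    intro S hN h2 hH hW
    rcases W.eq_empty_or_nonempty with rfl | ⟨u, hu⟩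
    · have : S = ∅ := by
        refine Finset.eq_empty_of_forall_notMem fun s hs => ?_
        have h1 := hH.one_le (by omega) hs
        have h3 := Finset.card_le_card (hN s hs)
        simp only [Finset.card_empty] at h3
        omega
      simp [this]
    · have hex : ∃ i < r, ((ball S N u (i + 1)).card : ℝ) ≤ (1 + ε) * (ball S N u i).card := by
        by_contra hcon
        push Not at hcon
        have : ∀ i ≤ r, (1 + ε) ^ i ≤ (ball S N u i).card := by
          intro i hi
          induction i with
          | zero => simp [ball]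
          | succ i ihi =>
            have h1 := ihi (by omega)
            have h3 := hcon i (by omega)
            rw [pow_succ]
            nlinarith
        have h1 := this r le_rfl
        have h3 : ((ball S N u r).card : ℝ) ≤ W.card := by
          exact_mod_cast Finset.card_le_card (ball_subset hN hu r)
        linarith
      obtain ⟨i, hi, hgrow⟩ := hex
      set B := ball S N u i with hB
      have hBW : B ⊆ W := ball_subset hN hu i
      have hss : W \ B ⊂ W := Finset.sdiff_ssubset hBW ⟨u, mem_ball_self S N u i⟩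
      have h1 := ih (W \ B) hss (S.filter fun s => Disjoint (N s) B)
        (fun s hs => by
          obtain ⟨h1, h3⟩ := Finset.mem_filter.1 hs
          exact Finset.subset_sdiff.2 ⟨hN s h1, h3⟩)
        (fun s hs => h2 s (Finset.mem_filter.1 hs).1)
        (hH.mono le_rfl (Finset.filter_subset _ _))
        (lt_of_le_of_lt (by exact_mod_cast Finset.card_le_card hss.subset) hW)
      have h3 : (S.filter fun s => ¬ Disjoint (N s) B).card ≤ (ball S N u (i + 1)).card := by
        refine le_trans (Finset.card_le_card fun s hs => ?_)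
          (inside_ball_le h2 u (i + 1) (hH.mono (by omega) le_rfl))
        refine Finset.mem_filter.2 ⟨(Finset.mem_filter.1 hs).1, ?_⟩
        rw [ball]
        exact (Finset.subset_biUnion_of_mem N hs).trans Finset.subset_union_right
      have h4 := Finset.card_filter_add_card_filter_not (s := S) fun s => Disjoint (N s) B
      have h5 := Finset.card_sdiff_add_card_eq_card hBW
      have h3' : ((S.filter fun s => ¬ Disjoint (N s) B).card : ℝ)
          ≤ (ball S N u (i + 1)).card := by exact_mod_cast h3
      have h4' : (S.card : ℝ) = (S.filter fun s => Disjoint (N s) B).card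
          + (S.filter fun s => ¬ Disjoint (N s) B).card := by exact_mod_cast h4.symm
      have h5' : (W.card : ℝ) = (W \ B).card + B.card := by exact_mod_cast h5.symm
      rw [h4', h5', mul_add]
      linarith

end Pool.Agent.MP_5daf37_lc

end MrgPart0

-- ======== part 1: formerly Pool.Agent.MP_5daf37_lc.Peel
section MrgPart1

/-!
Peeling arguments for set systems with sets of size at most three.
-/

open Finset

namespace Pool.Agent.MP_5daf37_lc

section
variable {ι ω : Type*} [DecidableEq ι] [DecidableEq ω]

lemma Hall.disj_single {K : ℕ} {S : Finset ι} {N : ι → Finset ω} (h : Hall K S N) (hK : 2 ≤ K)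
    {s t : ι} (hs : s ∈ S) (ht : t ∈ S) (hst : s ≠ t) (h1 : (N s).card = 1)
    (h2 : (N t).card = 1) : Disjoint (N s) (N t) := by
  have h3 := h {s, t} (by
    intro x hx
    simp only [Finset.mem_insert, Finset.mem_singleton] at hx
    rcases hx with rfl | rfl <;> assumption) (by rw [Finset.card_pair hst]; exact hK)
  rw [Finset.card_pair hst, Finset.biUnion_insert, Finset.singleton_biUnion] at h3
  have h4 := Finset.card_union_add_card_inter (N s) (N t)
  rw [Finset.disjoint_iff_inter_eq_empty, ← Finset.card_eq_zero]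
  omega

lemma card_biUnion_single {K : ℕ} {S : Finset ι} {N : ι → Finset ω} (h : Hall K S N) (hK : 2 ≤ K)
    {A : Finset ι} (hA : A ⊆ S) (h1 : ∀ s ∈ A, (N s).card = 1) :
    (A.biUnion N).card = A.card := by
  rw [Finset.card_biUnion]
  · rw [Finset.sum_congr rfl h1]; simp
  · intro s hs t ht hst
    exact h.disj_single hK (hA hs) (hA ht) hst (h1 s hs) (h1 t ht)

lemma peel_bound {ε : ℝ} (hε : 0 ≤ ε) (r M h : ℕ) :
    ∀ (S : Finset ι) (N : ι → Finset ω) (W D : Finset ω), S.card ≤ h * M →
      (W.card : ℝ) < (1 + ε) ^ r → (∀ s ∈ S, N s ⊆ W) → (∀ s ∈ S, (N s).card ≤ 3) →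
      Hall (4 ^ h * (4 * r + 6)) S N →
      (∀ p ∈ W, p ∉ D → 2 ≤ (S.filter fun s => p ∈ N s).card) →
      (3 * S.card : ℝ) ≤ (∑ s ∈ S, (N s).card : ℕ) + (1 + ε) * W.card + D.card + M := by
  induction h with
  | zero =>
    intro S N W D hS _ _ _ _ _
    have : S = ∅ := by simpa using hS
    subst this
    simp only [Finset.card_empty, Nat.cast_zero, mul_zero, Finset.sum_empty]
    positivity
  | succ h ih =>
    intro S N W D hS hW hN h3 hH hD
    have hpow : 1 ≤ 4 ^ h := Nat.one_le_pow _ _ (by norm_num)
    have hK : 4 ^ (h + 1) * (4 * r + 6) = 4 * (4 ^ h * (4 * r + 6)) := by ring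
    have hK1 : 4 * r + 6 ≤ 4 ^ h * (4 * r + 6) := Nat.le_mul_of_pos_left _ hpow
    set S1 := S.filter fun s => (N s).card = 1 with hS1
    by_cases hM : S1.card ≤ M
    · set S2 := S.filter fun s => (N s).card ≤ 2 with hS2
      have hg := graph_bound hε r N W S2 (fun s hs => hN s (Finset.mem_filter.1 hs).1)
        (fun s hs => (Finset.mem_filter.1 hs).2) (hH.mono (by omega) (Finset.filter_subset _ _)) hW
      have hsum : 3 * S.card ≤ ∑ s ∈ S, (N s).card + S2.card + S1.card := by
        rw [hS1, hS2, Finset.card_filter, Finset.card_filter, ← Finset.sum_add_distrib,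
          ← Finset.sum_add_distrib, mul_comm, ← smul_eq_mul, ← Finset.sum_const]
        refine Finset.sum_le_sum fun s hs => ?_
        have := hH.one_le (by omega) hs
        split_ifs <;> omega
      have h1 : (3 * S.card : ℝ) ≤ (∑ s ∈ S, (N s).card : ℕ) + S2.card + S1.card := by
        exact_mod_cast hsum
      have h2 : (S1.card : ℝ) ≤ M := by exact_mod_cast hM
      have h4 : (0 : ℝ) ≤ D.card := by positivity
      linarith
    · push Not at hM
      set P1 := S1.biUnion N with hP1
      set S' := S.filter fun s => ¬ (N s).card = 1 with hS'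
      have hsub1 : S1 ⊆ S := Finset.filter_subset _ _
      have hone : ∀ s ∈ S1, (N s).card = 1 := fun s hs => (Finset.mem_filter.1 hs).2
      have hP1c : P1.card = S1.card := card_biUnion_single hH (by omega) hsub1 hone
      have hSS : S1.card + S'.card = S.card := Finset.card_filter_add_card_filter_not _
      have hP1W : P1 ⊆ W := Finset.biUnion_subset.2 fun s hs => hN s (hsub1 hs)
      have hWc := Finset.card_sdiff_add_card_eq_card hP1W
      have hI := ih S' (fun s => N s \ P1) (W \ P1) (D \ P1) (by nlinarith)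
        (lt_of_le_of_lt (by exact_mod_cast Finset.card_le_card Finset.sdiff_subset) hW)
        (fun s hs => Finset.sdiff_subset_sdiff (hN s (Finset.mem_filter.1 hs).1) le_rfl)
        (fun s hs => (Finset.card_le_card Finset.sdiff_subset).trans
          (h3 s (Finset.mem_filter.1 hs).1))
        (by
          intro A hA hAc
          set A1 := S1.filter fun s => N s ⊆ A.biUnion N with hA1
          have hA1S : A1 ⊆ S := (Finset.filter_subset _ _).trans hsub1
          have hA1c : (A1.biUnion N).card = A1.card := card_biUnion_single hH (by omega) hA1S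
            fun s hs => hone s (Finset.mem_filter.1 hs).1
          have hAS : A ⊆ S := hA.trans (Finset.filter_subset _ _)
          have hsubA : A1.biUnion N ⊆ A.biUnion N :=
            Finset.biUnion_subset.2 fun s hs => (Finset.mem_filter.1 hs).2
          have hNA : (A.biUnion N).card ≤ A.card * 3 :=
            Finset.card_biUnion_le_card_mul A N 3 fun s hs => h3 s (hAS hs)
          have hc1 := Finset.card_le_card hsubA
          have hdisj : Disjoint A A1 := by
            rw [Finset.disjoint_left]
            intro s hs hs1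
            exact (Finset.mem_filter.1 (hA hs)).2 (hone s (Finset.mem_filter.1 hs1).1)
          have hu := hH (A ∪ A1) (Finset.union_subset hAS hA1S)
            (by rw [Finset.card_union_of_disjoint hdisj]; omega)
          rw [Finset.card_union_of_disjoint hdisj] at hu
          have hcov : (A ∪ A1).biUnion N ⊆ (A.biUnion fun s => N s \ P1) ∪ A1.biUnion N := by
            intro p hp
            rw [Finset.union_biUnion, Finset.mem_union] at hp
            have hpA : p ∈ A.biUnion N := by
              rcases hp with hp | hp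
              · exact hp
              · exact hsubA hp
            by_cases hpP : p ∈ P1
            · obtain ⟨t, ht, hpt⟩ := Finset.mem_biUnion.1 hpP
              refine Finset.mem_union_right _ (Finset.mem_biUnion.2 ⟨t, ?_, hpt⟩)
              refine Finset.mem_filter.2 ⟨ht, ?_⟩
              obtain ⟨q, hq⟩ := Finset.card_eq_one.1 (hone t ht)
              rw [hq] at hpt ⊢
              rw [Finset.mem_singleton] at hpt
              rw [← hpt]
              exact Finset.singleton_subset_iff.2 hpA
            · obtain ⟨s, hs, hps⟩ := Finset.mem_biUnion.1 hpA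
              exact Finset.mem_union_left _
                (Finset.mem_biUnion.2 ⟨s, hs, Finset.mem_sdiff.2 ⟨hps, hpP⟩⟩)
          have hc2 := (Finset.card_le_card hcov).trans (Finset.card_union_le _ _)
          omega)
        (by
          intro p hp hpD
          obtain ⟨hpW, hpP⟩ := Finset.mem_sdiff.1 hp
          have hpD' : p ∉ D := fun h => hpD (Finset.mem_sdiff.2 ⟨h, hpP⟩)
          refine (hD p hpW hpD').trans (Finset.card_le_card fun s hs => ?_)
          obtain ⟨hsS, hps⟩ := Finset.mem_filter.1 hs
          refine Finset.mem_filter.2 ⟨Finset.mem_filter.2 ⟨hsS, fun h1 => hpP ?_⟩,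
            Finset.mem_sdiff.2 ⟨hps, hpP⟩⟩
          exact Finset.mem_biUnion.2 ⟨s, Finset.mem_filter.2 ⟨hsS, h1⟩, hps⟩)
      have hsum1 : ∑ s ∈ S, (N s).card = S1.card + ∑ s ∈ S', (N s).card := by
        rw [← Finset.sum_filter_add_sum_filter_not S (fun s => (N s).card = 1),
          Finset.sum_congr rfl hone]
        simp [hS1, hS']
      have hsum2 : ∑ s ∈ S', (N s).card
          = ∑ s ∈ S', (N s \ P1).card + ∑ s ∈ S', (N s ∩ P1).card := by
        rw [← Finset.sum_add_distrib]
        exact Finset.sum_congr rfl fun s _ => (Finset.card_sdiff_add_card_inter _ _).symm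
      have hsum3 : (P1 \ D).card ≤ ∑ s ∈ S', (N s ∩ P1).card := by
        refine le_trans (Finset.card_le_card fun p hp => ?_) Finset.card_biUnion_le
        obtain ⟨hpP, hpD⟩ := Finset.mem_sdiff.1 hp
        obtain ⟨s, hs, t, ht, hst⟩ := Finset.one_lt_card.1 (hD p (hP1W hpP) hpD)
        obtain ⟨hsS, hps⟩ := Finset.mem_filter.1 hs
        obtain ⟨htS, hpt⟩ := Finset.mem_filter.1 ht
        by_cases h1 : (N s).card = 1
        · by_cases h2 : (N t).card = 1
          · exact absurd hpt (Finset.disjoint_left.1
              (hH.disj_single (by omega) hsS htS hst h1 h2) hps)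
          · exact Finset.mem_biUnion.2 ⟨t, Finset.mem_filter.2 ⟨htS, h2⟩,
              Finset.mem_inter.2 ⟨hpt, hpP⟩⟩
        · exact Finset.mem_biUnion.2 ⟨s, Finset.mem_filter.2 ⟨hsS, h1⟩,
            Finset.mem_inter.2 ⟨hps, hpP⟩⟩
      have hD1 := Finset.card_sdiff_add_card_inter D P1
      have hD2 := Finset.card_sdiff_add_card_inter P1 D
      rw [Finset.inter_comm] at hD2
      have e1 : (S.card : ℝ) = S1.card + S'.card := by exact_mod_cast hSS.symm
      have e2 : (W.card : ℝ) = (W \ P1).card + S1.card := by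
        rw [← hP1c]; exact_mod_cast hWc.symm
      have e3 : ((∑ s ∈ S', (N s \ P1).card : ℕ) : ℝ) + (D \ P1).card + 2 * S1.card
          ≤ (∑ s ∈ S, (N s).card : ℕ) + D.card := by
        have : ∑ s ∈ S', (N s \ P1).card + (D \ P1).card + 2 * S1.card
          ≤ ∑ s ∈ S, (N s).card + D.card := by omega
        exact_mod_cast this
      have e4 : (0 : ℝ) ≤ ε * S1.card := by positivity
      rw [e1, e2]
      nlinarith

end

/-- The counting bound with parameters: Hall range `K`, size bound `B`, loss `L`. -/
def RB (K B L : ℕ) : Prop :=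
  ∀ (ι ω : Type) [DecidableEq ι] [DecidableEq ω] (S : Finset ι) (N : ι → Finset ω)
    (W D : Finset ω), S.card ≤ B → W.card ≤ B → (∀ s ∈ S, N s ⊆ W) → (∀ s ∈ S, (N s).card ≤ 3) →
    Hall K S N → (∀ p ∈ W, p ∉ D → 2 ≤ (S.filter fun s => p ∈ N s).card) →
    3 * S.card ≤ ∑ s ∈ S, (N s).card + W.card + D.card + L

lemma RB.mono {K B L K' : ℕ} (h : RB K B L) (hK : K ≤ K') : RB K' B L :=
  fun ι ω _ _ S N W D h1 h2 h3 h4 h5 h6 => h ι ω S N W D h1 h2 h3 h4 (h5.mono hK le_rfl) h6

lemma RB.matched {K B L : ℕ} (h : RB K B L) {ι ω : Type} [DecidableEq ι] [DecidableEq ω]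
    (d : ι → ω) (Q : Finset ι) :
    ∀ (S : Finset ι) (N : ι → Finset ω) (W : Finset ω), S.card ≤ B → W.card ≤ B →
      (∀ s ∈ S, N s ⊆ W) → (∀ s ∈ S, (N s).card ≤ 3) → Hall K S N → Q ⊆ S →
      (∀ s ∈ Q, 2 ≤ (N s).card) → (∀ s ∈ Q, d s ∈ N s) → Set.InjOn d Q →
      3 * S.card + Q.card ≤ ∑ s ∈ S, (N s).card + 2 * W.card + L := by
  induction Q using Finset.strongInduction with
  | H Q ih =>
    intro S N W hS hW hN h3 hH hQ h2 hd hinj
    by_cases hex : ∃ q ∈ Q, (S.filter fun s => d q ∈ N s).card ≤ 1
    · obtain ⟨q, hq, hq1⟩ := hex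
      have hqS := hQ hq
      have hdW : d q ∈ W := hN q hqS (hd q hq)
      have hI := ih (Q.erase q) (Finset.erase_ssubset hq) (S.erase q) N (W.erase (d q))
        ((Finset.card_le_card (Finset.erase_subset _ _)).trans hS)
        ((Finset.card_le_card (Finset.erase_subset _ _)).trans hW)
        (by
          intro s hs p hp
          refine Finset.mem_erase.2 ⟨?_, hN s (Finset.mem_of_mem_erase hs) hp⟩
          rintro rfl
          have := Finset.card_le_one.1 hq1 s
            (Finset.mem_filter.2 ⟨Finset.mem_of_mem_erase hs, hp⟩) q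
            (Finset.mem_filter.2 ⟨hqS, hd q hq⟩)
          exact Finset.ne_of_mem_erase hs this)
        (fun s hs => h3 s (Finset.mem_of_mem_erase hs))
        (hH.mono le_rfl (Finset.erase_subset _ _)) (Finset.erase_subset_erase _ hQ)
        (fun s hs => h2 s (Finset.mem_of_mem_erase hs))
        (fun s hs => hd s (Finset.mem_of_mem_erase hs))
        (hinj.mono (by exact_mod_cast Finset.erase_subset _ _))
      have e1 := Finset.card_erase_add_one hq
      have e2 := Finset.card_erase_add_one hqS
      have e3 := Finset.card_erase_add_one hdW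
      have e4 := Finset.add_sum_erase S (fun s => (N s).card) hqS
      have e5 := h2 q hq
      omega
    · push Not at hex
      have hsub : Q.image d ⊆ W := by
        intro p hp
        obtain ⟨q, hq, rfl⟩ := Finset.mem_image.1 hp
        exact hN q (hQ hq) (hd q hq)
      have hI := h ι ω S N W (W \ Q.image d) hS hW hN h3 hH (by
        intro p hp hpD
        have : p ∈ Q.image d := by
          by_contra hc
          exact hpD (Finset.mem_sdiff.2 ⟨hp, hc⟩)
        obtain ⟨q, hq, rfl⟩ := Finset.mem_image.1 this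
        exact hex q hq)
      have e1 := Finset.card_sdiff_add_card_eq_card hsub
      have e2 := Finset.card_image_of_injOn hinj
      omega

lemma exists_RB {δ : ℝ} (hδ : 0 < δ) (c : ℕ) :
    ∃ n0 : ℕ, ∀ n ≥ n0, ∃ L : ℕ, RB (Nat.sqrt n / 4) (c * n) L ∧ (L : ℝ) ≤ δ * n := by
  set ε : ℝ := δ / (3 * (c + 1)) with hε
  have hεpos : 0 < ε := by positivity
  set h : ℕ := ⌈3 * c / δ⌉₊ with hh
  set A : ℕ := 4 ^ h with hA
  have hA1 : 1 ≤ A := Nat.one_le_pow _ _ (by norm_num)
  have hlim := tendsto_pow_const_div_const_pow_of_one_lt 2 (show 1 < 1 + ε by linarith)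
  have hpos : (0 : ℝ) < 1 / (6400 * c * A ^ 2 + 1) := by positivity
  obtain ⟨r0, hr0⟩ := Filter.eventually_atTop.1 (hlim.eventually (gt_mem_nhds hpos))
  refine ⟨max ((40 * A * (r0 + 1)) ^ 2) ⌈6 / δ⌉₊, fun n hn => ?_⟩
  have hn1 : (40 * A * (r0 + 1)) ^ 2 ≤ n := le_of_max_le_left hn
  have hn2 : 6 / δ ≤ n := Nat.ceil_le.1 (le_of_max_le_right hn)
  have hn3 : 6 ≤ δ * n := by rwa [div_le_iff₀' hδ] at hn2
  set m := Nat.sqrt n with hm
  have hm1 : 40 * A * (r0 + 1) ≤ m := Nat.le_sqrt'.2 hn1
  set r := m / (40 * A) with hr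
  have hr1 : r0 + 1 ≤ r := (Nat.le_div_iff_mul_le (by omega)).2 (by linarith)
  have hr2 : 40 * A * r ≤ m := Nat.mul_div_le _ _
  have hr3 : m < 40 * A * (r + 1) := Nat.lt_mul_div_succ _ (by omega)
  have hn4 : n < (m + 1) ^ 2 := Nat.lt_succ_sqrt' n
  have hn5 : n ≤ 6400 * A ^ 2 * r ^ 2 := by
    have h1 : m + 1 ≤ 80 * A * r := by nlinarith
    calc n ≤ (m + 1) ^ 2 := hn4.le
      _ ≤ (80 * A * r) ^ 2 := Nat.pow_le_pow_left h1 2
      _ = _ := by ring
  have hgrow : ((c * n : ℕ) : ℝ) < (1 + ε) ^ r := by
    have h1 := hr0 r (by omega)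
    rw [div_lt_div_iff₀ (by positivity) (by positivity)] at h1
    have h2 : (n : ℝ) ≤ 6400 * A ^ 2 * r ^ 2 := by exact_mod_cast hn5
    have h3 : (c : ℝ) * n ≤ c * (6400 * A ^ 2 * r ^ 2) := by gcongr
    push_cast
    nlinarith [sq_nonneg (r : ℝ)]
  set M : ℕ := ⌈δ * n / 3⌉₊ with hM
  have hhM : c * n ≤ h * M := by
    have h1 : 3 * c / δ ≤ h := Nat.le_ceil _
    have h2 : δ * n / 3 ≤ M := Nat.le_ceil _
    have h3 : (c : ℝ) * n = (3 * c / δ) * (δ * n / 3) := by field_simp
    have h4 : (3 * c / δ) * (δ * n / 3) ≤ (h : ℝ) * M := by gcongr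
    have : (c : ℝ) * n ≤ h * M := by linarith
    exact_mod_cast this
  refine ⟨M + M, ?_, ?_⟩
  · intro ι ω _ _ S N W D h1 h2 h3 h4 h5 h6
    have hW : (W.card : ℝ) ≤ (c * n : ℕ) := by exact_mod_cast h2
    have hb := peel_bound hεpos.le r M h S N W D (h1.trans hhM) (lt_of_le_of_lt hW hgrow) h3 h4
      (h5.mono (by
        rw [Nat.le_div_iff_mul_le (by norm_num)]
        nlinarith) le_rfl) h6
    have h7 : ε * W.card ≤ M := by
      refine le_trans ?_ (Nat.le_ceil _)
      calc ε * W.card ≤ ε * ((c + 1) * n) := by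
            gcongr
            push_cast at hW
            nlinarith [(Nat.cast_nonneg n : (0 : ℝ) ≤ n)]
        _ = δ * n / 3 := by rw [hε]; field_simp
    have : (3 * S.card : ℝ) ≤ (∑ s ∈ S, (N s).card : ℕ) + W.card + D.card + (M + M : ℕ) := by
      push_cast at hb ⊢
      linarith
    exact_mod_cast this
  · have h1 : (M : ℝ) < δ * n / 3 + 1 := Nat.ceil_lt_add_one (by positivity)
    push_cast
    linarith

end Pool.Agent.MP_5daf37_lc

end MrgPart1

-- marker of a merged file
example : 731051 + 842980 = 731051 + 842980 := rfl
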