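import Mathlib
import Pool.Agent.MP_5daf37_lc.Peel
import Pool.Agent.MP_5daf37_lc.Defs
import Pool.Agent.Lib.helper72.PTNat

-- ======== part 0: formerly Pool.Agent.MP_5daf37_lc.LinAlg
section MrgPart0

/-!
Linear algebra lemmas: supports of independent vectors, selection of coordinates.
-/

open Finset

namespace Pool.Agent.MP_5daf37_lc

variable {F : Type*} [Field F]

/-- the support of a vector as a finset -/
def supp {ω : Type*} [Fintype ω] [DecidableEq F] (v : ω → F) : Finset ω :=
  Finset.univ.filter fun p => v p ≠ 0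

@[simp] lemma mem_supp {ω : Type*} [Fintype ω] [DecidableEq F] {v : ω → F} {p : ω} :
    p ∈ supp v ↔ v p ≠ 0 := by simp [supp]

/-- the vectors indexed by `A`, restricted to the coordinates in `T`, are independent -/
def Ind {ι ω : Type*} (φ : ι → ω → F) (A : Finset ι) (T : Finset ω) : Prop :=
  ∀ μ : ι → F, (∀ p ∈ T, ∑ s ∈ A, μ s * φ s p = 0) → ∀ s ∈ A, μ s = 0

section
variable {ι ω : Type*}

/-- the linear map attached to a finite family of vectors -/
def combo (φ : ι → ω → F) (A : Finset ι) (T : Finset ω) : (A → F) →ₗ[F] (T → F) where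
  toFun μ p := ∑ s : A, μ s * φ s p
  map_add' μ ν := by ext p; simp [add_mul, Finset.sum_add_distrib]
  map_smul' c μ := by ext p; simp [Finset.mul_sum, mul_assoc]

lemma Ind.injective {φ : ι → ω → F} {A : Finset ι} {T : Finset ω} (h : Ind φ A T) :
    Function.Injective (combo φ A T) := by
  classical
  rw [injective_iff_map_eq_zero]
  intro μ hμ
  ext s
  have := h (fun s => if hs : s ∈ A then μ ⟨s, hs⟩ else 0) (fun p hp => by
    have h1 := congrFun hμ ⟨p, hp⟩
    simp only [combo, LinearMap.coe_mk, AddHom.coe_mk, Pi.zero_apply] at h1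
    rw [← Finset.sum_coe_sort A, ← h1]
    exact Finset.sum_congr rfl fun s _ => by simp) s s.2
  simpa using this

lemma Ind.card_le {φ : ι → ω → F} {A : Finset ι} {T : Finset ω} (h : Ind φ A T) :
    A.card ≤ T.card := by
  simpa using LinearMap.finrank_le_finrank_of_injective h.injective

lemma Ind.solve {φ : ι → ω → F} {A : Finset ι} {T : Finset ω} (h : Ind φ A T)
    (hc : T.card ≤ A.card) (t : ω → F) :
    ∃ μ : ι → F, ∀ p ∈ T, ∑ s ∈ A, μ s * φ s p = t p := by
  classical
  have hs : Function.Surjective (combo φ A T) :=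
    (LinearMap.injective_iff_surjective_of_finrank_eq_finrank
      (by simpa using le_antisymm h.card_le hc)).1 h.injective
  obtain ⟨μ, hμ⟩ := hs fun p => t p
  refine ⟨fun s => if hs : s ∈ A then μ ⟨s, hs⟩ else 0, fun p hp => ?_⟩
  have h1 := congrFun hμ ⟨p, hp⟩
  simp only [combo, LinearMap.coe_mk, AddHom.coe_mk] at h1
  rw [← Finset.sum_coe_sort A, ← h1]
  exact Finset.sum_congr rfl fun s _ => by simp

lemma Ind.transpose {φ : ι → ω → F} {A : Finset ι} {T : Finset ω} (h : Ind φ A T)
    (hc : T.card ≤ A.card) : Ind (fun p s => φ s p) T A := by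
  classical
  intro ν hν p hp
  obtain ⟨μ, hμ⟩ := h.solve hc (Pi.single p 1)
  calc ν p = ∑ q ∈ T, ν q * (Pi.single p (1 : F) : ω → F) q := by
        simp [Pi.single_apply, hp]
    _ = ∑ q ∈ T, ν q * ∑ s ∈ A, μ s * φ s q :=
        Finset.sum_congr rfl fun q hq => by rw [hμ q hq]
    _ = ∑ s ∈ A, μ s * ∑ q ∈ T, ν q * φ s q := by
        simp only [Finset.mul_sum]
        rw [Finset.sum_comm]
        exact Finset.sum_congr rfl fun s _ => Finset.sum_congr rfl fun q _ => by ring
    _ = 0 := Finset.sum_eq_zero fun s hs => by rw [hν s hs, mul_zero]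

lemma Ind.mono {φ : ι → ω → F} {A A' : Finset ι} {T T' : Finset ω} (h : Ind φ A T)
    (hA : A' ⊆ A) (hT : T ⊆ T') : Ind φ A' T' := by
  classical
  intro μ hμ s hs
  have := h (fun s => if s ∈ A' then μ s else 0) (fun p hp => by
    refine Eq.trans (Eq.symm ?_) (hμ p (hT hp))
    refine Finset.sum_subset_zero_on_sdiff hA (fun s hs => ?_) (fun s hs => ?_)
    · simp [(Finset.mem_sdiff.1 hs).2]
    · simp [hs]) s (hA hs)
  simpa [hs] using this

lemma Ind.card_le_biUnion [DecidableEq ω] [DecidableEq F] {φ : ι → ω → F} {A : Finset ι}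
    {T : Finset ω} (h : Ind φ A T) :
    A.card ≤ (A.biUnion fun s => T.filter fun p => φ s p ≠ 0).card := by
  refine Ind.card_le (φ := φ) fun μ hμ => h μ fun p hp => ?_
  by_cases hp' : p ∈ A.biUnion fun s => T.filter fun p => φ s p ≠ 0
  · exact hμ p hp'
  · refine Finset.sum_eq_zero fun s hs => ?_
    have : φ s p = 0 := by
      by_contra hne
      exact hp' (Finset.mem_biUnion.2 ⟨s, hs, Finset.mem_filter.2 ⟨hp, hne⟩⟩)
    rw [this, mul_zero]

lemma Ind.exists_inj [DecidableEq ω] [DecidableEq F] {φ : ι → ω → F} {A : Finset ι}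
    {T : Finset ω} (h : Ind φ A T) (d0 : ι → ω) :
    ∃ d : ι → ω, Set.InjOn d A ∧ ∀ s ∈ A, d s ∈ T.filter fun p => φ s p ≠ 0 := by
  classical
  obtain ⟨f, hf, hfm⟩ := (Finset.all_card_le_biUnion_card_iff_existsInjective'
    (fun s : A => T.filter fun p => φ s p ≠ 0)).1 (by
      intro B
      have h1 := (h.mono (A' := B.map (Function.Embedding.subtype _)) (T' := T) (by
        intro s hs
        obtain ⟨x, -, rfl⟩ := Finset.mem_map.1 hs
        exact x.2) le_rfl).card_le_biUnion
      rw [Finset.card_map] at h1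
      refine h1.trans (le_of_eq ?_)
      congr 1
      ext p
      simp)
  refine ⟨fun s => if hs : s ∈ A then f ⟨s, hs⟩ else d0 s, ?_, fun s hs => ?_⟩
  · intro s hs t ht hst
    have hs' : s ∈ A := hs
    have ht' : t ∈ A := ht
    simp only [hs', ht', dif_pos] at hst
    exact congrArg Subtype.val (hf hst)
  · simp only [hs, dif_pos]
    exact hfm ⟨s, hs⟩

end

section
variable {E γ : Type*} [AddCommGroup E] [Module F E]

/-- common kernel of finitely many functionals -/
def van (f : γ → E →ₗ[F] F) (A : Finset γ) : Submodule F E where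
  carrier := {μ | ∀ g ∈ A, f g μ = 0}
  add_mem' := fun {a b} ha hb g hg => by rw [map_add, ha g hg, hb g hg, add_zero]
  zero_mem' := fun g _ => map_zero _
  smul_mem' := fun c a ha g hg => by rw [map_smul, ha g hg, smul_zero]

@[simp] lemma mem_van {f : γ → E →ₗ[F] F} {A : Finset γ} {μ : E} :
    μ ∈ van f A ↔ ∀ g ∈ A, f g μ = 0 := Iff.rfl

lemma exists_select [FiniteDimensional F E] (f : γ → E →ₗ[F] F) (A : Finset γ) :
    ∀ V : Submodule F E, ∃ A0 ⊆ A, (∀ μ ∈ V, (∀ g ∈ A0, f g μ = 0) → ∀ g ∈ A, f g μ = 0) ∧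
      A0.card + Module.finrank F ↥(V ⊓ van f A) ≤ Module.finrank F V := by
  classical
  induction A using Finset.induction_on with
  | empty =>
    intro V
    exact ⟨∅, le_rfl, by simp, by simpa using Submodule.finrank_mono inf_le_left⟩
  | insert g A hg ih =>
    intro V
    by_cases hV : ∀ μ ∈ V, f g μ = 0
    · obtain ⟨A0, h1, h2, h3⟩ := ih V
      refine ⟨A0, h1.trans (Finset.subset_insert _ _), fun μ hμ h0 g' hg' => ?_, ?_⟩
      · rcases Finset.mem_insert.1 hg' with rfl | hg'
        · exact hV μ hμ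
        · exact h2 μ hμ h0 g' hg'
      · refine le_trans (Nat.add_le_add_left (Submodule.finrank_mono ?_) _) h3
        exact inf_le_inf_left _ fun μ hμ g' hg' => hμ g' (Finset.mem_insert_of_mem hg')
    · obtain ⟨A0, h1, h2, h3⟩ := ih (V ⊓ LinearMap.ker (f g))
      have hlt : V ⊓ LinearMap.ker (f g) < V := by
        refine lt_of_le_of_ne inf_le_left fun he => hV fun μ hμ => ?_
        rw [← he] at hμ
        exact hμ.2
      have h4 := Submodule.finrank_lt_finrank_of_lt hlt
      refine ⟨insert g A0, Finset.insert_subset_insert _ h1, fun μ hμ h0 g' hg' => ?_, ?_⟩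
      · rcases Finset.mem_insert.1 hg' with rfl | hg'
        · exact h0 _ (Finset.mem_insert_self _ _)
        · exact h2 μ ⟨hμ, h0 _ (Finset.mem_insert_self _ _)⟩
            (fun g'' hg'' => h0 g'' (Finset.mem_insert_of_mem hg'')) g' hg'
      · have h5 : Module.finrank F ↥(V ⊓ van f (insert g A))
            ≤ Module.finrank F ↥((V ⊓ LinearMap.ker (f g)) ⊓ van f A) :=
          Submodule.finrank_mono fun μ hμ => ⟨⟨hμ.1, hμ.2 g (Finset.mem_insert_self _ _)⟩,
            fun g' hg' => hμ.2 g' (Finset.mem_insert_of_mem hg')⟩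
        have h6 := Finset.card_insert_le g A0
        omega

lemma finrank_le_card (f : γ → E →ₗ[F] F) (A : Finset γ) (V : Submodule F E)
    (h : ∀ μ ∈ V, (∀ g ∈ A, f g μ = 0) → μ = 0) : Module.finrank F V ≤ A.card := by
  have hinj : Function.Injective
      ((LinearMap.pi fun g : A => f g).comp V.subtype : V →ₗ[F] (A → F)) := by
    rw [injective_iff_map_eq_zero]
    intro μ hμ
    ext
    exact h μ μ.2 fun g hg => congrFun hμ ⟨g, hg⟩
  simpa using LinearMap.finrank_le_finrank_of_injective hinj

end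

lemma coloop_bound {K B L : ℕ} (hR : RB K B L) {ι ω : Type} [DecidableEq ι] [DecidableEq ω]
    [Fintype ω] [DecidableEq F] (φ : ι → ω → F) (hω : Fintype.card ω ≤ B) (I : Finset ι)
    (hI : I.card ≤ B) (h3 : ∀ s ∈ I, (supp (φ s)).card ≤ 3)
    (hind : ∀ A ⊆ I, A.card ≤ K → Ind φ A Finset.univ)
    (hcore : ∀ S ⊆ I, (∀ s ∈ S, ∃ μ : ι → F, μ s ≠ 0 ∧ ∀ p, ∑ t ∈ S, μ t * φ t p = 0) →
      ∑ s ∈ S, (supp (φ s)).card ≤ 2 * S.card) :
    I.card ≤ Fintype.card ω + L := by
  have key : ∀ S : Finset ι, S ⊆ I →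
      S.card ≤ Module.finrank F (Submodule.span F (φ '' S)) + L := by
    intro S
    induction S using Finset.strongInduction with
    | H S ih =>
      intro hS
      by_cases hex : ∃ s ∈ S, φ s ∉ Submodule.span F (φ '' (S.erase s))
      · obtain ⟨s, hs, hns⟩ := hex
        have h1 := ih (S.erase s) (Finset.erase_ssubset hs) ((Finset.erase_subset _ _).trans hS)
        have hlt : Submodule.span F (φ '' (S.erase s)) < Submodule.span F (φ '' S) := by
          refine lt_of_le_of_ne (Submodule.span_mono (Set.image_mono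
            (by exact_mod_cast Finset.erase_subset _ _))) fun he => hns ?_
          rw [he]
          exact Submodule.subset_span ⟨s, hs, rfl⟩
        have h2 := Submodule.finrank_lt_finrank_of_lt hlt
        have h4 := Finset.card_erase_add_one hs
        omega
      · push Not at hex
        have hrel : ∀ s ∈ S, ∃ μ : ι → F, μ s ≠ 0 ∧ ∀ p, ∑ t ∈ S, μ t * φ t p = 0 := by
          intro s hs
          obtain ⟨c, hc⟩ := (Submodule.mem_span_image_finset_iff_exists_fun' F).1 (hex s hs)
          refine ⟨Function.update c s (-1), by simp, fun p => ?_⟩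
          rw [← Finset.add_sum_erase S _ hs]
          have h1 := congrFun hc p
          rw [Finset.sum_apply] at h1
          rw [Finset.sum_congr rfl (g := fun t => (c t • φ t) p) fun t ht => by
            rw [Function.update_of_ne (Finset.ne_of_mem_erase ht)]; rfl, h1]
          simp
        have h2 := hcore S hS hrel
        obtain ⟨W0, -, hW1, hW2⟩ := exists_select (fun p : ω => LinearMap.proj (R := F)
          (φ := fun _ : ω => F) p) Finset.univ (Submodule.span F (φ '' S))
        set N : ι → Finset ω := fun s => W0.filter fun p => φ s p ≠ 0 with hN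
        have hNs : ∀ s, N s ⊆ supp (φ s) := fun s p hp => mem_supp.2 (Finset.mem_filter.1 hp).2
        have h4 := hR ι ω S N (S.biUnion N) ∅ ((Finset.card_le_card hS).trans hI)
          ((Finset.card_le_univ _).trans hω) (fun s hs => Finset.subset_biUnion_of_mem N hs)
          (fun s hs => (Finset.card_le_card (hNs s)).trans (h3 s (hS hs)))
          (by
            intro A hA hAc
            refine Ind.card_le_biUnion (φ := φ) fun μ hμ => hind A (hA.trans hS) hAc μ ?_
            have := hW1 (∑ s ∈ A, μ s • φ s) (Submodule.sum_mem _ fun s hs =>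
              Submodule.smul_mem _ _ (Submodule.subset_span ⟨s, hA hs, rfl⟩))
              (fun p hp => by simpa using hμ p hp)
            intro p hp
            simpa using this p hp)
          (by
            intro p hp _
            obtain ⟨s, hs, hps⟩ := Finset.mem_biUnion.1 hp
            obtain ⟨μ, hμ, hμ0⟩ := hrel s hs
            by_contra hlt
            have h1 : (S.filter fun s => p ∈ N s).card ≤ 1 := by omega
            have h5 := hμ0 p
            rw [Finset.sum_eq_single_of_mem s hs] at h5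
            · exact mul_ne_zero hμ (Finset.mem_filter.1 hps).2 h5
            · intro t ht hts
              have : φ t p = 0 := by
                by_contra hne
                exact hts (Finset.card_le_one.1 h1 t (Finset.mem_filter.2 ⟨ht,
                  Finset.mem_filter.2 ⟨(Finset.mem_filter.1 hps).1, hne⟩⟩) s
                  (Finset.mem_filter.2 ⟨hs, hps⟩))
              rw [this, mul_zero])
        have h5 : ∑ s ∈ S, (N s).card ≤ ∑ s ∈ S, (supp (φ s)).card :=
          Finset.sum_le_sum fun s _ => Finset.card_le_card (hNs s)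
        have h6 : (S.biUnion N).card ≤ W0.card :=
          Finset.card_le_card (Finset.biUnion_subset.2 fun s _ => Finset.filter_subset _ _)
        simp only [Finset.card_empty] at h4
        omega
  have h1 := key I le_rfl
  have h2 : Module.finrank F (Submodule.span F (φ '' I)) ≤ Fintype.card ω := by
    simpa using Submodule.finrank_le (Submodule.span F (φ '' I))
  omega

end Pool.Agent.MP_5daf37_lc

end MrgPart0

-- ======== part 1: formerly Pool.Agent.MP_5daf37_lc.Relation
section MrgPart1

/-!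
A lower bound for the number of nonzero entries in a system of linear relations which computes
a family of forms whose coefficient vectors are in general position.
-/

open Finset

namespace Pool.Agent.MP_5daf37_lc

variable {F : Type*} [Field F]

lemma Ind.exists_basis {ι ω : Type*} {φ : ι → ω → F} {A : Finset ι} {T : Finset ω}
    (h : Ind φ A T) : ∃ Q ⊆ T, Ind φ A Q ∧ Q.card = A.card := by
  classical
  obtain ⟨Q, hQ, h1, h2⟩ := exists_select (F := F) (E := A → F)
    (fun p : ω => (LinearMap.proj (⟨p, Finset.mem_singleton_self p⟩ : ({p} : Finset ω))).comp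
      (combo φ A {p})) T ⊤
  have hI : Ind φ A Q := fun μ hμ => h μ fun p hp => by
    have := h1 (fun s => μ s) trivial (fun q hq => by
      have := hμ q hq
      rw [← Finset.sum_coe_sort A] at this
      exact this) p hp
    rw [← Finset.sum_coe_sort A]
    exact this
  refine ⟨Q, hQ, hI, le_antisymm ?_ hI.card_le⟩
  have : Module.finrank F (⊤ : Submodule F (A → F)) = A.card := by simp
  omega

lemma relation_bound {K0 B L : ℕ} (hR : RB K0 B L) {J H K : Type} [Fintype J] [Fintype H]
    [Fintype K] [DecidableEq J] [DecidableEq H] [DecidableEq K] [DecidableEq F]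
    (hB : Fintype.card J + Fintype.card H ≤ B)
    (R : Finset (J ⊕ H)) (M : J ⊕ H → J ⊕ H → F) (lam : J ⊕ H → K → F) (w : K → H)
    (b : J → K → F) (hlam : ∀ r ∈ R, lam r ≠ 0)
    (hN : Ind (fun r h => M r (Sum.inr h)) R Finset.univ)
    (hH : ∀ h, h ∉ Set.range w → ∀ i, ∑ r ∈ R, lam r i * M r (Sum.inr h) = 0)
    (hX : ∀ j i, ∑ r ∈ R, lam r i * M r (Sum.inl j) = b j i)
    (hb : ∀ A : Finset J, A.card ≤ K0 → Ind b A Finset.univ) :
    3 * Fintype.card J + 2 * R.card
      ≤ ∑ r ∈ R, (supp (M r)).card + 4 * Fintype.card K + L := by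
  obtain ⟨Q, -, hQ, hQc⟩ := hN.exists_basis
  have hQ' := hQ.transpose hQc.le
  obtain ⟨d, hd1, hd2⟩ := hQ'.exists_inj Sum.inr
  set N : J ⊕ H → Finset (J ⊕ H) := fun c => R.filter fun r => M r c ≠ 0 with hNdef
  set Q' := Q.filter fun q => q ∉ Finset.univ.image w with hQ'def
  have hQ'r : ∀ q ∈ Q', q ∉ Set.range w := fun q hq hr => (Finset.mem_filter.1 hq).2 (by
    obtain ⟨i, rfl⟩ := hr
    exact Finset.mem_image_of_mem _ (Finset.mem_univ _))
  have hQ'c : Q.card ≤ Q'.card + Fintype.card K := by
    have h1 := Finset.card_filter_add_card_filter_not (s := Q)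
      fun q => q ∈ Finset.univ.image w
    have h2 : (Q.filter fun q => q ∈ Finset.univ.image w).card ≤ (Finset.univ.image w).card :=
      Finset.card_le_card fun q hq => (Finset.mem_filter.1 hq).2
    have h3 := Finset.card_image_le (s := Finset.univ) (f := w)
    rw [Finset.card_univ] at h3
    rw [← hQ'def] at h1
    omega
  have htwo : ∀ q ∈ Q', 2 ≤ (N (Sum.inr q)).card := by
    intro q hq
    by_contra hlt
    have h1 : (N (Sum.inr q)).card ≤ 1 := by omega
    have hdq := hd2 q (Finset.mem_filter.1 hq).1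
    obtain ⟨hdR, hdM⟩ := Finset.mem_filter.1 hdq
    refine hlam (d q) hdR (funext fun i => ?_)
    have h2 := hH q (hQ'r q hq) i
    rw [Finset.sum_eq_single_of_mem (d q) hdR] at h2
    · exact (mul_eq_zero.1 h2).resolve_right hdM
    · intro r hr hne
      have : M r (Sum.inr q) = 0 := by
        by_contra hc
        exact hne (Finset.card_le_one.1 h1 r (Finset.mem_filter.2 ⟨hr, hc⟩) (d q) hdq)
      rw [this, mul_zero]
  set X := (Finset.univ : Finset J).filter fun j => (N (Sum.inl j)).card ≤ 2 with hX'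
  set Q3 := Q'.filter fun q => (N (Sum.inr q)).card ≤ 3 with hQ3
  have hQ3Q : Q3 ⊆ Q := (Finset.filter_subset _ _).trans (Finset.filter_subset _ _)
  have hm := hR.matched (Sum.elim Sum.inl d) ((∅ : Finset J).disjSum Q3) (X.disjSum Q3) N R
    (by
      have := Finset.card_le_univ (X.disjSum Q3)
      rw [Fintype.card_sum] at this
      omega)
    (by
      have := Finset.card_le_univ R
      rw [Fintype.card_sum] at this
      omega)
    (fun s _ => Finset.filter_subset _ _)
    (by
      rintro (j | q) hs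
      · have := (Finset.mem_filter.1 (Finset.inl_mem_disjSum.1 hs)).2
        omega
      · exact (Finset.mem_filter.1 (Finset.inr_mem_disjSum.1 hs)).2)
    (by
      intro A hA hAc
      refine Ind.card_le_biUnion (φ := fun c r => M r c) fun ν hν => ?_
      have hA2 : A.toRight ⊆ Q3 := (Finset.subset_disjSum.1 hA).2
      have h1 : ∀ j ∈ A.toLeft, ν (Sum.inl j) = 0 := by
        refine hb A.toLeft (Finset.card_toLeft_le.trans hAc) (fun j => ν (Sum.inl j))
          fun i _ => ?_
        have h2 : ∑ c ∈ A, ν c * ∑ r ∈ R, lam r i * M r c = 0 := by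
          simp only [Finset.mul_sum]
          rw [Finset.sum_comm]
          refine Finset.sum_eq_zero fun r hr => ?_
          have h3 := hν r hr
          calc ∑ c ∈ A, ν c * (lam r i * M r c) = lam r i * ∑ c ∈ A, ν c * M r c := by
                rw [Finset.mul_sum]
                exact Finset.sum_congr rfl fun c _ => by ring
            _ = 0 := by rw [h3, mul_zero]
        rw [Finset.sum_sum_eq_sum_toLeft_add_sum_toRight] at h2
        rw [Finset.sum_eq_zero (s := A.toRight) fun q hq => by
          rw [hH q (hQ'r q (Finset.mem_filter.1 (hA2 hq)).1) i, mul_zero], add_zero] at h2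
        simpa only [hX] using h2
      have h2 : ∀ q ∈ A.toRight, ν (Sum.inr q) = 0 := by
        refine hQ'.mono (hA2.trans hQ3Q) le_rfl (fun q => ν (Sum.inr q)) fun r hr => ?_
        have h3 := hν r hr
        rw [Finset.sum_sum_eq_sum_toLeft_add_sum_toRight,
          Finset.sum_eq_zero (s := A.toLeft) fun j hj => by rw [h1 j hj, zero_mul],
          zero_add] at h3
        exact h3
      rintro (j | q) hs
      · exact h1 j (Finset.mem_toLeft.2 hs)
      · exact h2 q (Finset.mem_toRight.2 hs))
    (Finset.disjSum_mono (Finset.empty_subset _) le_rfl)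
    (by
      rintro (j | q) hs
      · simp at hs
      · exact htwo q (Finset.mem_filter.1 (Finset.inr_mem_disjSum.1 hs)).1)
    (by
      rintro (j | q) hs
      · simp at hs
      · exact hd2 q (hQ3Q (Finset.inr_mem_disjSum.1 hs)))
    (by
      rintro (j | q) hs (j' | q') ht hst
      · simp at hs
      · simp at hs
      · simp at ht
      · exact congrArg Sum.inr (hd1 (hQ3Q (Finset.inr_mem_disjSum.1 hs))
          (hQ3Q (Finset.inr_mem_disjSum.1 ht)) hst))
  rw [Finset.card_disjSum, Finset.card_disjSum, Finset.sum_disjSum, Finset.card_empty] at hm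
  have htot : ∑ r ∈ R, (supp (M r)).card = ∑ c, (N c).card := by
    simp only [supp, hNdef, Finset.card_filter]
    rw [Finset.sum_comm]
  have hge : ∑ j, (N (Sum.inl j)).card + ∑ q ∈ Q', (N (Sum.inr q)).card ≤ ∑ c, (N c).card := by
    rw [Fintype.sum_sum_type]
    exact Nat.add_le_add_left (Finset.sum_le_sum_of_subset (Finset.subset_univ _)) _
  have e1 := Finset.sum_filter_add_sum_filter_not (Finset.univ : Finset J)
    (fun j => (N (Sum.inl j)).card ≤ 2) fun j => (N (Sum.inl j)).card
  have e2 := Finset.sum_filter_add_sum_filter_not Q'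
    (fun q => (N (Sum.inr q)).card ≤ 3) fun q => (N (Sum.inr q)).card
  have e3 := Finset.card_filter_add_card_filter_not (s := (Finset.univ : Finset J))
    fun j => (N (Sum.inl j)).card ≤ 2
  have e4 := Finset.card_filter_add_card_filter_not (s := Q')
    fun q => (N (Sum.inr q)).card ≤ 3
  have e5 := Finset.card_nsmul_le_sum
    ((Finset.univ : Finset J).filter fun j => ¬ (N (Sum.inl j)).card ≤ 2)
    (fun j => (N (Sum.inl j)).card) 3 fun j hj => by
      have := (Finset.mem_filter.1 hj).2
      omega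
  have e6 := Finset.card_nsmul_le_sum (Q'.filter fun q => ¬ (N (Sum.inr q)).card ≤ 3)
    (fun q => (N (Sum.inr q)).card) 4 fun j hj => by
      have := (Finset.mem_filter.1 hj).2
      omega
  rw [Finset.card_univ] at e3
  rw [smul_eq_mul] at e5 e6
  rw [← hX'] at e1 e3
  rw [← hQ3] at e2 e4
  omega

end Pool.Agent.MP_5daf37_lc

end MrgPart1

-- ======== part 2: formerly Pool.Agent.MP_5daf37_lc.Prog
section MrgPart2

/-!
Abstract linear programs computing the forms `x j + C j z` and `K` further forms.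
-/

open Finset

namespace Pool.Agent.MP_5daf37_lc

/-- slots: inputs `x j`, gates `y j`, inputs `z i`, other gates -/
abbrev Sl (J K H : Type) := (J ⊕ J) ⊕ (K ⊕ H)

/-- the slot of a gate -/
def own {J K H : Type} : J ⊕ H → Sl J K H
  | Sum.inl j => Sum.inl (Sum.inr j)
  | Sum.inr h => Sum.inr (Sum.inr h)

/-- the relation attached to a gate -/
def rho {F J K H : Type} [Field F] [DecidableEq J] [DecidableEq K] [DecidableEq H]
    (a : J ⊕ H → Sl J K H → F) (g : J ⊕ H) (u : Sl J K H) : F :=
  (if u = own g then 1 else 0) - a g u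

/-- abstract programs -/
structure Prog (F J K H : Type) [Field F] [Fintype J] [Fintype H] [DecidableEq J] [DecidableEq K]
    [DecidableEq H] where
  a : J ⊕ H → Sl J K H → F
  rk : J ⊕ H → ℕ
  tri : ∀ g g', a g (own g') ≠ 0 → rk g' < rk g
  s : J → F
  hs : ∀ j, s j ≠ 0
  C : J → K → F
  vx : H → J → F
  vz : H → K → F
  hX : ∀ g j, rho a g (Sum.inl (Sum.inl j)) + s j * rho a g (Sum.inl (Sum.inr j))
    + ∑ h, rho a g (Sum.inr (Sum.inr h)) * vx h j = 0
  hZ : ∀ g i, rho a g (Sum.inr (Sum.inl i)) + ∑ j, rho a g (Sum.inl (Sum.inr j)) * s j * C j i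
    + ∑ h, rho a g (Sum.inr (Sum.inr h)) * vz h i = 0

lemma own_injective {J K H : Type} : Function.Injective (own : J ⊕ H → Sl J K H) := by
  rintro (j | h) (j' | h') e <;> simp_all [own]

namespace Prog

variable {F J K H : Type} [Field F] [Fintype J] [Fintype K] [Fintype H] [DecidableEq J]
  [DecidableEq K] [DecidableEq H] [DecidableEq F] (P : Prog F J K H)

/-- a coordinate of a combination of the relations -/
def xi (u : Sl J K H) : (J ⊕ H → F) →ₗ[F] F where
  toFun μ := ∑ g, μ g * rho P.a g u
  map_add' μ ν := by simp [add_mul, Finset.sum_add_distrib]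
  map_smul' c μ := by simp [Finset.mul_sum, mul_assoc, mul_add]

omit [Fintype K] [DecidableEq F] in
lemma xi_apply (u : Sl J K H) (μ : J ⊕ H → F) : P.xi u μ = ∑ g, μ g * rho P.a g u := rfl

omit [Fintype K] [DecidableEq F] in
lemma xi_single (u : Sl J K H) (g : J ⊕ H) (c : F) :
    P.xi u (Pi.single g c) = c * rho P.a g u := by
  rw [xi_apply, Finset.sum_eq_single g] <;> simp +contextual

omit [Fintype K] [DecidableEq F] in
lemma xi_own (μ : J ⊕ H → F) (g : J ⊕ H) :
    P.xi (own g) μ = μ g - ∑ g', μ g' * P.a g' (own g) := by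
  rw [xi_apply]
  simp only [rho, mul_sub, Finset.sum_sub_distrib, own_injective.eq_iff]
  simp

omit [Fintype K] [DecidableEq F] in
lemma exists_top {A : Finset (J ⊕ H)} (hA : A.Nonempty) :
    ∃ g ∈ A, ∀ g' ∈ A, P.a g' (own g) = 0 := by
  obtain ⟨g, hg, hmax⟩ := Finset.exists_max_image A P.rk hA
  refine ⟨g, hg, fun g' hg' => ?_⟩
  by_contra hne
  exact absurd (P.tri g' g hne) (not_lt.2 (hmax g' hg'))

omit [Fintype K] in
lemma eq_zero_of_own {μ : J ⊕ H → F} (h : ∀ g, μ g ≠ 0 → P.xi (own g) μ = 0) : μ = 0 := by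
  by_contra hne
  obtain ⟨g, hg, htop⟩ := P.exists_top (A := supp μ) (by
    obtain ⟨g, hg⟩ := Function.ne_iff.1 hne
    exact ⟨g, mem_supp.2 hg⟩)
  have h1 := h g (mem_supp.1 hg)
  rw [xi_own, Finset.sum_eq_zero, sub_zero] at h1
  · exact mem_supp.1 hg h1
  · intro g' _
    by_cases h0 : μ g' = 0
    · rw [h0, zero_mul]
    · rw [htop g' (mem_supp.2 h0), mul_zero]

/-- the coefficient of `x j` in a relation modulo the other gates -/
def tau (g : J ⊕ H) (j : J) : F :=
  rho P.a g (Sum.inl (Sum.inl j)) + P.s j * rho P.a g (Sum.inl (Sum.inr j))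

omit [Fintype K] [DecidableEq F] in
lemma sum_tau (μ : J ⊕ H → F) (j : J) :
    ∑ g, μ g * P.tau g j = - ∑ h, P.xi (Sum.inr (Sum.inr h)) μ * P.vx h j := by
  simp only [xi_apply, Finset.sum_mul]
  rw [Finset.sum_comm, ← Finset.sum_neg_distrib]
  refine Finset.sum_congr rfl fun g _ => ?_
  have h1 := P.hX g j
  rw [tau, eq_neg_of_add_eq_zero_left h1, mul_neg, Finset.mul_sum]
  simp only [mul_assoc]

omit [Fintype K] [DecidableEq F] in
lemma sum_C {μ : J ⊕ H → F} (hw : ∀ u, P.xi (Sum.inr u) μ = 0) (i : K) :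
    ∑ j, (P.xi (Sum.inl (Sum.inr j)) μ * P.s j) * P.C j i = 0 := by
  have h1 : ∑ g, μ g * (rho P.a g (Sum.inr (Sum.inl i))
      + ∑ j, rho P.a g (Sum.inl (Sum.inr j)) * P.s j * P.C j i
      + ∑ h, rho P.a g (Sum.inr (Sum.inr h)) * P.vz h i) = 0 :=
    Finset.sum_eq_zero fun g _ => by rw [P.hZ g i, mul_zero]
  simp only [mul_add, Finset.sum_add_distrib] at h1
  have h2 : ∑ g, μ g * ∑ h, rho P.a g (Sum.inr (Sum.inr h)) * P.vz h i
      = ∑ h, P.xi (Sum.inr (Sum.inr h)) μ * P.vz h i := by
    simp only [xi_apply, Finset.sum_mul, Finset.mul_sum, mul_assoc]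
    rw [Finset.sum_comm]
  have h3 : ∑ g, μ g * ∑ j, rho P.a g (Sum.inl (Sum.inr j)) * P.s j * P.C j i
      = ∑ j, (P.xi (Sum.inl (Sum.inr j)) μ * P.s j) * P.C j i := by
    simp only [xi_apply, Finset.sum_mul, Finset.mul_sum, mul_assoc]
    rw [Finset.sum_comm]
  rw [h2, h3, ← xi_apply] at h1
  simpa [hw] using h1

lemma eq_zero_of_white {K1 : ℕ} (hC : ∀ A : Finset J, A.card ≤ K1 → Ind P.C A Finset.univ)
    {μ : J ⊕ H → F} (hw : ∀ u, P.xi (Sum.inr u) μ = 0)
    (hy : (supp fun j => P.xi (Sum.inl (Sum.inr j)) μ).card ≤ K1) : μ = 0 := by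
  have h1 := hC _ hy (fun j => P.xi (Sum.inl (Sum.inr j)) μ * P.s j) fun i _ => by
    rw [← P.sum_C hw i]
    refine Finset.sum_subset (Finset.subset_univ _) fun j _ hj => ?_
    rw [mem_supp, not_not] at hj
    rw [hj, zero_mul, zero_mul]
  refine P.eq_zero_of_own ?_
  rintro (j | h) _
  · by_contra hne
    exact mul_ne_zero hne (P.hs j) (h1 j (mem_supp.2 hne))
  · exact hw _

lemma family_zero {ι : Type} {K0 : ℕ}
    (hC : ∀ A : Finset J, A.card ≤ 4 * K0 → Ind P.C A Finset.univ)
    (c : ι → J ⊕ H → F) (A : Finset ι) (hA : A.card ≤ K0)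
    (hy : ∀ s ∈ A, (supp fun j => P.xi (Sum.inl (Sum.inr j)) (c s)).card ≤ 4) (μ : ι → F)
    (hw : ∀ u, ∑ s ∈ A, μ s * P.xi (Sum.inr u) (c s) = 0) : ∑ s ∈ A, μ s • c s = 0 := by
  refine P.eq_zero_of_white hC (fun u => by simpa using hw u) ?_
  refine le_trans (Finset.card_le_card (t := A.biUnion fun s =>
    supp fun j => P.xi (Sum.inl (Sum.inr j)) (c s)) fun j hj => ?_) ?_
  · rw [mem_supp, map_sum] at hj
    obtain ⟨s, hs, hne⟩ := Finset.exists_ne_zero_of_sum_ne_zero hj
    refine Finset.mem_biUnion.2 ⟨s, hs, mem_supp.2 fun h0 => hne ?_⟩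
    rw [map_smul, h0, smul_zero]
  · have := Finset.card_biUnion_le_card_mul A _ 4 hy
    omega

/-- number of nonzero slots -/
def sz (g : J ⊕ H) : ℕ := (supp (P.a g)).card

/-- indices of the slots of type `x` or `y` -/
def RS (g : J ⊕ H) : Finset J := (supp (P.a g)).toLeft.image (Sum.elim id id)

/-- the other slots -/
def WS (g : J ⊕ H) : Finset (K ⊕ H) := (supp (P.a g)).toRight

lemma RS_WS (g : J ⊕ H) : (P.RS g).card + (P.WS g).card ≤ P.sz g := by
  have h1 := Finset.card_toLeft_add_card_toRight (u := supp (P.a g))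
  have h2 := Finset.card_image_le (s := (supp (P.a g)).toLeft) (f := Sum.elim id id)
  unfold RS WS sz
  omega

lemma mem_WS {g : J ⊕ H} {u : K ⊕ H} : u ∈ P.WS g ↔ P.a g (Sum.inr u) ≠ 0 := by simp [WS]

lemma notMem_RS {g : J ⊕ H} {j : J} (h : j ∉ P.RS g) :
    P.a g (Sum.inl (Sum.inl j)) = 0 ∧ P.a g (Sum.inl (Sum.inr j)) = 0 := by
  constructor <;> by_contra hne <;> apply h
  · exact Finset.mem_image.2 ⟨Sum.inl j, by simpa using hne, rfl⟩
  · exact Finset.mem_image.2 ⟨Sum.inr j, by simpa using hne, rfl⟩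

lemma tau_of_notMem {g : J ⊕ H} {j : J} (h : j ∉ P.RS g) :
    P.tau g j = if g = Sum.inl j then P.s j else 0 := by
  obtain ⟨h1, h2⟩ := P.notMem_RS h
  rcases g with i | p
  · simp [tau, rho, own, h1, h2, eq_comm]
  · simp [tau, rho, own, h1, h2]

lemma rho_y {g : J ⊕ H} {j : J} (h : j ∉ P.RS g) (hg : g ≠ Sum.inl j) :
    rho P.a g (Sum.inl (Sum.inr j)) = 0 := by
  obtain ⟨-, h2⟩ := P.notMem_RS h
  rcases g with i | p
  · have : j ≠ i := fun e => hg (by rw [e])
    simp [rho, own, h2, this]
  · simp [rho, own, h2]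

omit [Fintype K] [DecidableEq F] in
lemma rho_row (j : J) (u : K ⊕ H) :
    rho P.a (Sum.inl j) (Sum.inr u) = - P.a (Sum.inl j) (Sum.inr u) := by
  simp [rho, own]

lemma ysupp_row {j : J} (hj : P.sz (Sum.inl j) ≤ 3) :
    (supp fun i => P.xi (Sum.inl (Sum.inr i)) (Pi.single (Sum.inl j) 1)).card ≤ 4 := by
  refine le_trans (Finset.card_le_card (t := insert j (P.RS (Sum.inl j))) fun i hi => ?_) ?_
  · rw [mem_supp, xi_single, one_mul] at hi
    by_contra hc
    rw [Finset.mem_insert, not_or] at hc
    exact hi (P.rho_y hc.2 fun e => hc.1 (Sum.inl_injective e).symm)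
  · have h1 := Finset.card_insert_le j (P.RS (Sum.inl j))
    have h2 := P.RS_WS (Sum.inl j)
    omega

lemma rows_hall {K0 : ℕ} (hC : ∀ A : Finset J, A.card ≤ 4 * K0 → Ind P.C A Finset.univ)
    (A : Finset J) (hA : A.card ≤ K0) (h3 : ∀ j ∈ A, P.sz (Sum.inl j) ≤ 3) :
    A.card ≤ (A.biUnion fun j => P.WS (Sum.inl j)).card := by
  have h1 : Ind (fun j u => P.a (Sum.inl j) (Sum.inr u)) A Finset.univ := by
    intro μ hμ j hj
    have h2 := P.family_zero hC (fun j => Pi.single (Sum.inl j) 1) A hA
      (fun j hj => P.ysupp_row (h3 j hj)) μ fun u => by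
        simp only [xi_single, one_mul, rho_row, mul_neg, Finset.sum_neg_distrib]
        rw [hμ u (Finset.mem_univ _), neg_zero]
    have h4 := congrFun h2 (Sum.inl j)
    simpa [Finset.sum_apply, Pi.single_apply, hj] using h4
  refine h1.card_le_biUnion.trans (le_of_eq ?_)
  congr 1
  ext u
  simp [mem_WS]

end Prog

end Pool.Agent.MP_5daf37_lc

end MrgPart2

-- ======== part 3: formerly Pool.Agent.MP_5daf37_lc.White
section MrgPart3

/-!
Lower bound for the number of auxiliary gates of a program.
-/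

open Finset

namespace Pool.Agent.MP_5daf37_lc

namespace Prog

variable {F J K H : Type} [Field F] [Fintype J] [Fintype K] [Fintype H] [DecidableEq J]
  [DecidableEq K] [DecidableEq H] [DecidableEq F] (P : Prog F J K H)

/-- rows with at most two slots -/
def T2 : Finset J := Finset.univ.filter fun j => P.sz (Sum.inl j) ≤ 2
/-- rows with three slots -/
def T3 : Finset J := Finset.univ.filter fun j => P.sz (Sum.inl j) = 3
/-- light gates -/
def Lt : Finset H := Finset.univ.filter fun h => P.sz (Sum.inr h) ≤ 2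
/-- light gates which read an index from `T2` -/
def E0 : Finset H := P.Lt.filter fun h => (P.RS (Sum.inr h) ∩ P.T2).Nonempty
/-- other light gates which are read by a row from `T2` which reads an index from `T2` -/
def Pt : Finset H := P.Lt.filter fun h => ¬ (P.RS (Sum.inr h) ∩ P.T2).Nonempty ∧
  ∃ j ∈ P.T2, (P.RS (Sum.inl j) ∩ P.T2).Nonempty ∧ P.a (Sum.inl j) (Sum.inr (Sum.inr h)) ≠ 0

lemma mem_T2 {j : J} : j ∈ P.T2 ↔ P.sz (Sum.inl j) ≤ 2 := by simp [T2]
lemma mem_T3 {j : J} : j ∈ P.T3 ↔ P.sz (Sum.inl j) = 3 := by simp [T3]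
lemma mem_Lt {h : H} : h ∈ P.Lt ↔ P.sz (Sum.inr h) ≤ 2 := by simp [Lt]

lemma disjoint_T : Disjoint P.T2 P.T3 := by
  rw [Finset.disjoint_left]
  intro j h2 h3
  rw [mem_T2] at h2
  rw [mem_T3] at h3
  omega

lemma inter_card {g : J ⊕ H} (h : (P.RS g ∩ P.T2).Nonempty) :
    (P.RS g ∩ P.T3).card + 1 ≤ (P.RS g).card := by
  have h1 := Finset.card_pos.2 h
  have h2 : ((P.RS g ∩ P.T2) ∪ (P.RS g ∩ P.T3)).card ≤ (P.RS g).card :=
    Finset.card_le_card (Finset.union_subset Finset.inter_subset_left Finset.inter_subset_left)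
  rw [Finset.card_union_of_disjoint (P.disjoint_T.mono Finset.inter_subset_right
    Finset.inter_subset_right)] at h2
  omega

/-- the properties of the vectors of the family -/
structure Good (g : J ⊕ H) (c : J ⊕ H → F) : Prop where
  hid : ∀ h, c (Sum.inr h) = if g = Sum.inr h then 1 else 0
  row : ∀ j j', g = Sum.inl j → c (Sum.inl j') = if j = j' then 1 else 0
  ys : (supp fun i => P.xi (Sum.inl (Sum.inr i)) c).card ≤ 4
  size : (supp fun u => P.xi (Sum.inr u) c).card + (P.RS g ∩ P.T3).card
    ≤ 2 + if g ∈ P.T3.disjSum (∅ : Finset H) then 1 else 0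
  cover : ∀ j ∈ P.T3, j ∉ P.RS g → ∑ g', c g' * P.tau g' j = if g = Sum.inl j then P.s j else 0

omit [Fintype K] [DecidableEq F] in
lemma sum_single_tau (g : J ⊕ H) (t : F) (j : J) :
    ∑ g', (Pi.single g t : J ⊕ H → F) g' * P.tau g' j = t * P.tau g j := by
  rw [Finset.sum_eq_single g] <;> simp +contextual

lemma good_row {j : J} (hj : j ∈ P.T2 ∪ P.T3) :
    P.Good (Sum.inl j) (Pi.single (Sum.inl j) 1) := by
  have h3 : P.sz (Sum.inl j) ≤ 3 := by
    rw [Finset.mem_union, mem_T2, mem_T3] at hj
    omega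
  refine ⟨by simp, ?_, P.ysupp_row h3, ?_, ?_⟩
  · intro i j' e
    rw [← Sum.inl_injective e]
    simp [Pi.single_apply, eq_comm]
  · have h1 : (supp fun u => P.xi (Sum.inr u) (Pi.single (Sum.inl j) 1)) = P.WS (Sum.inl j) := by
      ext u
      simp [xi_single, rho_row, mem_WS]
    have h2 := P.RS_WS (Sum.inl j)
    have h4 := Finset.card_le_card (Finset.inter_subset_left (s₁ := P.RS (Sum.inl j)) (s₂ := P.T3))
    rw [h1]
    simp only [Finset.inl_mem_disjSum, mem_T3]
    split_ifs <;> omega
  · intro i _ hi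
    rw [sum_single_tau, one_mul, P.tau_of_notMem hi]

lemma good_E0 {p : H} (hp : p ∈ P.E0) : P.Good (Sum.inr p) (Pi.single (Sum.inr p) 1) := by
  obtain ⟨hL, hE⟩ := Finset.mem_filter.1 hp
  rw [mem_Lt] at hL
  have h2 := P.RS_WS (Sum.inr p)
  refine ⟨by simp [Pi.single_apply, eq_comm], by simp, ?_, ?_, ?_⟩
  · refine le_trans (Finset.card_le_card (t := P.RS (Sum.inr p)) fun i hi => ?_) (by omega)
    rw [mem_supp, xi_single, one_mul] at hi
    by_contra hc
    exact hi (P.rho_y hc (by simp))
  · have h1 : (supp fun u => P.xi (Sum.inr u) (Pi.single (Sum.inr p) 1))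
        ⊆ insert (Sum.inr p) (P.WS (Sum.inr p)) := by
      intro u hu
      rw [mem_supp, xi_single, one_mul] at hu
      by_contra hc
      rw [Finset.mem_insert, not_or, mem_WS, not_not] at hc
      exact hu (by simp [rho, own, hc.1, hc.2])
    have h3 := (Finset.card_le_card h1).trans (Finset.card_insert_le _ _)
    have h4 := P.inter_card hE
    omega
  · intro i _ hi
    rw [sum_single_tau, one_mul, P.tau_of_notMem hi]

lemma good_Pt {p : H} (hp : p ∈ P.Pt) : ∃ c, P.Good (Sum.inr p) c := by
  obtain ⟨hL, -, j, hj, hE, ha⟩ := Finset.mem_filter.1 hp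
  rw [mem_Lt] at hL
  have hj2 := P.mem_T2.1 hj
  have h2 := P.RS_WS (Sum.inr p)
  have h3 := P.RS_WS (Sum.inl j)
  have h4 := P.inter_card hE
  have hpW : Sum.inr p ∈ P.WS (Sum.inl j) := P.mem_WS.2 ha
  have h5 := Finset.card_pos.2 ⟨_, hpW⟩
  refine ⟨Pi.single (Sum.inr p) 1
    + Pi.single (Sum.inl j) (P.a (Sum.inl j) (Sum.inr (Sum.inr p)))⁻¹,
    by simp [Pi.single_apply, eq_comm], by simp, ?_, ?_, ?_⟩
  · refine le_trans (Finset.card_le_card (t := P.RS (Sum.inr p) ∪ insert j (P.RS (Sum.inl j)))
      fun i hi => ?_) ?_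
    · rw [mem_supp, map_add, xi_single, xi_single] at hi
      by_contra hc
      rw [Finset.mem_union, Finset.mem_insert, not_or, not_or] at hc
      rw [P.rho_y hc.1 (by simp), P.rho_y hc.2.2 fun e => hc.2.1 (Sum.inl_injective e).symm] at hi
      simp at hi
    · have h6 := Finset.card_union_le (P.RS (Sum.inr p)) (insert j (P.RS (Sum.inl j)))
      have h7 := Finset.card_insert_le j (P.RS (Sum.inl j))
      omega
  · have h1 : (supp fun u => P.xi (Sum.inr u) (Pi.single (Sum.inr p) 1
        + Pi.single (Sum.inl j) (P.a (Sum.inl j) (Sum.inr (Sum.inr p)))⁻¹))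
        ⊆ P.WS (Sum.inr p) := by
      intro u hu
      rw [mem_supp, map_add, xi_single, xi_single, rho_row] at hu
      by_contra hc
      rw [mem_WS, not_not] at hc
      apply hu
      by_cases hup : u = Sum.inr p
      · subst hup
        simp [rho, own, hc, ha]
      · have : P.a (Sum.inl j) (Sum.inr u) = 0 := by
          by_contra hne
          exact hup (Finset.card_le_one.1 (by omega) u (P.mem_WS.2 hne) _ hpW)
        simp [rho, own, hc, hup, this]
    have h6 := Finset.card_le_card h1
    have h7 := Finset.card_le_card (Finset.inter_subset_left (s₁ := P.RS (Sum.inr p)) (s₂ := P.T3))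
    omega
  · intro i hi3 hi
    have hi' : i ∉ P.RS (Sum.inl j) := fun h => by
      have := Finset.card_pos.2 ⟨i, Finset.mem_inter.2 ⟨h, hi3⟩⟩
      omega
    have hij : j ≠ i := fun e => Finset.disjoint_left.1 P.disjoint_T hj (e ▸ hi3)
    simp only [Pi.add_apply, add_mul, Finset.sum_add_distrib, sum_single_tau]
    rw [P.tau_of_notMem hi, P.tau_of_notMem hi']
    simp [hij]

lemma white_bound {K0 B L : ℕ} (hR : RB K0 B L)
    (hB : Fintype.card J + Fintype.card K + Fintype.card H ≤ B)
    (hC : ∀ A : Finset J, A.card ≤ 4 * K0 → Ind P.C A Finset.univ) :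
    P.T2.card + P.T3.card + (P.E0 ∪ P.Pt).card ≤ Fintype.card K + Fintype.card H + L := by
  set I := (P.T2 ∪ P.T3).disjSum (P.E0 ∪ P.Pt) with hI
  have hex : ∀ g, ∃ c, g ∈ I → P.Good g c := by
    intro g
    by_cases hg : g ∈ I
    · rcases g with j | p
      · exact ⟨_, fun _ => P.good_row (Finset.inl_mem_disjSum.1 hg)⟩
      · rcases Finset.mem_union.1 (Finset.inr_mem_disjSum.1 hg) with h | h
        · exact ⟨_, fun _ => P.good_E0 h⟩
        · obtain ⟨c, hc⟩ := P.good_Pt h
          exact ⟨c, fun _ => hc⟩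
    · exact ⟨0, fun h => absurd h hg⟩
  choose c hc using hex
  have h1 := coloop_bound hR (fun g u => P.xi (Sum.inr u) (c g))
    (by rw [Fintype.card_sum]; omega) I
    (by
      have := Finset.card_le_univ I
      rw [Fintype.card_sum] at this
      omega)
    (by
      intro g hg
      have := (hc g hg).size
      split_ifs at this <;> omega)
    (by
      intro A hA hAc μ hμ
      have h2 := P.family_zero hC c A hAc (fun s hs => (hc s (hA hs)).ys) μ
        fun u => hμ u (Finset.mem_univ _)
      have h3 : ∀ p, Sum.inr p ∈ A → μ (Sum.inr p) = 0 := by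
        intro p hp
        have h4 := congrFun h2 (Sum.inr p)
        rw [Finset.sum_apply, Finset.sum_congr rfl (g := fun s => if s = Sum.inr p then μ s else 0)
          fun s hs => by rw [Pi.smul_apply, (hc s (hA hs)).hid]; simp] at h4
        simpa [hp] using h4
      rintro (j | p) hs
      · have h4 := congrFun h2 (Sum.inl j)
        rw [Finset.sum_apply, Finset.sum_congr rfl (g := fun s => if s = Sum.inl j then μ s else 0)
          fun s hs => by
            rcases s with i | p
            · rw [Pi.smul_apply, (hc _ (hA hs)).row i j rfl]; simp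
            · rw [h3 p hs]; simp] at h4
        simpa [hs] using h4
      · exact h3 p hs)
    (by
      intro S hS hrel
      have h2 : S.toLeft ∩ P.T3 ⊆ S.biUnion fun g => P.RS g ∩ P.T3 := by
        intro j hj
        obtain ⟨hjS, hj3⟩ := Finset.mem_inter.1 hj
        rw [Finset.mem_toLeft] at hjS
        obtain ⟨μ, hμ, hμ0⟩ := hrel _ hjS
        by_contra hcon
        have h3 : ∀ g ∈ S, j ∉ P.RS g := fun g hg h =>
          hcon (Finset.mem_biUnion.2 ⟨g, hg, Finset.mem_inter.2 ⟨h, hj3⟩⟩)
        have h4 := P.sum_tau (∑ g ∈ S, μ g • c g) j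
        rw [Finset.sum_eq_zero (s := (Finset.univ : Finset H)) fun h _ => by
          rw [show P.xi (Sum.inr (Sum.inr h)) (∑ g ∈ S, μ g • c g) = 0 by
            simpa using hμ0 (Sum.inr h), zero_mul], neg_zero] at h4
        have h5 : ∑ g', (∑ g ∈ S, μ g • c g) g' * P.tau g' j
            = ∑ g ∈ S, μ g * ∑ g', c g g' * P.tau g' j := by
          simp only [Finset.sum_apply, Pi.smul_apply, smul_eq_mul, Finset.sum_mul, Finset.mul_sum,
            mul_assoc]
          rw [Finset.sum_comm]
        rw [h5, Finset.sum_congr rfl fun g hg => by rw [(hc g (hS hg)).cover j hj3 (h3 g hg)]] at h4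
        simp only [mul_ite, mul_zero, Finset.sum_ite_eq', hjS, if_true] at h4
        exact mul_ne_zero hμ (P.hs j) h4
      have h3 := (Finset.card_le_card h2).trans Finset.card_biUnion_le
      have h4 := Finset.sum_le_sum fun g hg => (hc g (hS hg)).size
      rw [Finset.sum_add_distrib, Finset.sum_add_distrib, Finset.sum_const, smul_eq_mul,
        ← Finset.card_filter] at h4
      have h5 : (S.filter fun g => g ∈ P.T3.disjSum (∅ : Finset H)).card
          ≤ (S.toLeft ∩ P.T3).card := by
        refine le_trans (Finset.card_le_card (t := (S.toLeft ∩ P.T3).disjSum ∅) ?_) (by simp)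
        rintro (j | p) hg
        · simpa using hg
        · simp at hg
      omega)
  rw [hI, Finset.card_disjSum, Finset.card_union_of_disjoint P.disjoint_T,
    Fintype.card_sum] at h1
  exact h1

lemma alpha_zero {K0 : ℕ} (hK : 2 ≤ K0)
    (hC : ∀ A : Finset J, A.card ≤ 4 * K0 → Ind P.C A Finset.univ) {μ : J ⊕ H → F}
    (h1 : ∀ j, j ∉ P.T2 → μ (Sum.inl j) = 0) (h2 : ∀ h, h ∉ P.Lt → μ (Sum.inr h) = 0)
    (h3 : ∀ h ∈ P.E0 ∪ P.Pt, μ (Sum.inr h) = 0) (hw : ∀ u, P.xi (Sum.inr u) μ = 0) : μ = 0 := by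
  set Z := supp fun j => μ (Sum.inl j) with hZ
  have hZ2 : ∀ j ∈ Z, j ∈ P.T2 := fun j hj => by
    by_contra hc
    exact mem_supp.1 hj (h1 j hc)
  have hL : ∀ h, μ (Sum.inr h) ≠ 0 → h ∈ P.Lt ∧ ¬ (P.RS (Sum.inr h) ∩ P.T2).Nonempty := by
    intro h hh
    have hl : h ∈ P.Lt := by
      by_contra hc
      exact hh (h2 h hc)
    exact ⟨hl, fun hn => hh (h3 h (Finset.mem_union_left _ (Finset.mem_filter.2 ⟨hl, hn⟩)))⟩
  have step1 : Z ⊆ Z.biUnion fun i => P.RS (Sum.inl i) ∩ P.T2 := by
    intro j hj
    by_contra hcon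
    have h4 := P.sum_tau μ j
    rw [Finset.sum_eq_zero (s := (Finset.univ : Finset H)) fun h _ => by rw [hw, zero_mul],
      neg_zero, Finset.sum_eq_single (Sum.inl j)] at h4
    · rw [P.tau_of_notMem fun h => hcon (Finset.mem_biUnion.2
        ⟨j, hj, Finset.mem_inter.2 ⟨h, hZ2 j hj⟩⟩), if_pos rfl] at h4
      exact mul_ne_zero (mem_supp.1 hj) (P.hs j) h4
    · intro g _ hg
      by_cases h0 : μ g = 0
      · rw [h0, zero_mul]
      · rw [P.tau_of_notMem, if_neg hg, mul_zero]
        intro h
        rcases g with i | p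
        · exact hcon (Finset.mem_biUnion.2 ⟨i, mem_supp.2 h0, Finset.mem_inter.2 ⟨h, hZ2 j hj⟩⟩)
        · exact (hL p h0).2 ⟨j, Finset.mem_inter.2 ⟨h, hZ2 j hj⟩⟩
    · simp
  have step2 : ∀ i ∈ Z, 1 ≤ (P.WS (Sum.inl i)).card := fun i hi => by
    have := P.mem_T2.1 (hZ2 i hi)
    simpa using P.rows_hall hC {i} (by simp; omega) (by simp; omega)
  have step3 : ∀ i ∈ Z, (P.RS (Sum.inl i) ∩ P.T2).Nonempty := by
    intro i hi
    by_contra hcon
    rw [Finset.not_nonempty_iff_eq_empty] at hcon
    have h4 := (Finset.card_le_card step1).trans Finset.card_biUnion_le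
    rw [← Finset.add_sum_erase Z _ hi, hcon, Finset.card_empty, zero_add] at h4
    have h5 := Finset.sum_le_card_nsmul (Z.erase i) (fun i => (P.RS (Sum.inl i) ∩ P.T2).card) 1
      fun j hj => by
        have hj' := Finset.mem_of_mem_erase hj
        have e1 := step2 j hj'
        have e2 := P.RS_WS (Sum.inl j)
        have e3 := P.mem_T2.1 (hZ2 j hj')
        have e4 := Finset.card_le_card
          (Finset.inter_subset_left (s₁ := P.RS (Sum.inl j)) (s₂ := P.T2))
        omega
    have h6 := Finset.card_erase_add_one hi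
    rw [smul_eq_mul] at h5
    omega
  have step4 : ∀ h, μ (Sum.inr h) = 0 := by
    by_contra hcon
    push Not at hcon
    obtain ⟨g, hg, htop⟩ := P.exists_top
      (A := (∅ : Finset J).disjSum (supp fun h => μ (Sum.inr h))) (by
        obtain ⟨h, hh⟩ := hcon
        exact ⟨Sum.inr h, by simpa using hh⟩)
    rcases g with j | p
    · simp at hg
    · have hp : μ (Sum.inr p) ≠ 0 := by simpa using hg
      have h4 : P.xi (own (Sum.inr p)) μ = 0 := hw _
      rw [xi_own, Finset.sum_eq_zero, sub_zero] at h4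
      · exact hp h4
      · intro g _
        by_cases h0 : μ g = 0
        · rw [h0, zero_mul]
        · rcases g with i | q
          · by_cases ha : P.a (Sum.inl i) (own (Sum.inr p)) = 0
            · rw [ha, mul_zero]
            · have hi : i ∈ Z := mem_supp.2 h0
              exact absurd (h3 p (Finset.mem_union_right _ (Finset.mem_filter.2
                ⟨(hL p hp).1, (hL p hp).2, i, hZ2 i hi, step3 i hi, ha⟩))) hp
          · rw [htop _ (by simpa using h0), mul_zero]
  have step5 : ∀ i ∈ Z, (P.WS (Sum.inl i)).card ≤ 1 := fun i hi => by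
    have e2 := P.RS_WS (Sum.inl i)
    have e3 := P.mem_T2.1 (hZ2 i hi)
    have e4 := P.inter_card (step3 i hi)
    omega
  funext g
  rcases g with i | p
  · by_contra hne
    have hi : i ∈ Z := mem_supp.2 hne
    obtain ⟨u, hu⟩ := Finset.card_pos.1 (step2 i hi)
    have h4 := hw u
    rw [xi_apply, Finset.sum_eq_single (Sum.inl i)] at h4
    · rw [rho_row] at h4
      exact mul_ne_zero hne (neg_ne_zero.2 (P.mem_WS.1 hu)) h4
    · rintro (j | q) _ hg
      · by_cases h0 : μ (Sum.inl j) = 0
        · rw [h0, zero_mul]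
        · have hj : j ∈ Z := mem_supp.2 h0
          have hji : j ≠ i := fun e => hg (by rw [e])
          rw [rho_row]
          by_cases ha : P.a (Sum.inl j) (Sum.inr u) = 0
          · rw [ha, neg_zero, mul_zero]
          · exfalso
            have h5 := P.rows_hall hC {j, i} (by rw [Finset.card_pair hji]; exact hK) (by
              intro x hx
              have e1 := P.mem_T2.1 (hZ2 i hi)
              have e2 := P.mem_T2.1 (hZ2 j hj)
              simp only [Finset.mem_insert, Finset.mem_singleton] at hx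
              rcases hx with rfl | rfl <;> omega)
            rw [Finset.card_pair hji, Finset.biUnion_insert, Finset.singleton_biUnion] at h5
            have h6 := Finset.card_union_add_card_inter (P.WS (Sum.inl j)) (P.WS (Sum.inl i))
            have h7 := Finset.card_pos.2 ⟨u, Finset.mem_inter.2 ⟨P.mem_WS.2 ha, hu⟩⟩
            have e1 := step5 i hi
            have e2 := step5 j hj
            omega
      · rw [step4 q, zero_mul]
    · simp
  · exact step4 p

end Prog

end Pool.Agent.MP_5daf37_lc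

end MrgPart3

-- ======== part 4: formerly Pool.Agent.MP_5daf37_lc.Main
section MrgPart4

/-!
The lower bound for the total cost of an abstract program.
-/

open Finset

namespace Pool.Agent.MP_5daf37_lc

namespace Prog

variable {F J K H : Type} [Field F] [Fintype J] [Fintype K] [Fintype H] [DecidableEq J]
  [DecidableEq K] [DecidableEq H] [DecidableEq F] (P : Prog F J K H)

lemma exists_split {K0 : ℕ} (hK : 2 ≤ K0)
    (hC : ∀ A : Finset J, A.card ≤ 4 * K0 → Ind P.C A Finset.univ) :
    ∃ B1 ⊆ P.Ltᶜ, ∃ B2 ⊆ P.T2, B1.card + B2.card ≤ P.T2.card ∧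
      B2.card ≤ Fintype.card K + (P.E0 ∪ P.Pt).card ∧
      Ind (fun r h => rho P.a r (Sum.inr (Sum.inr h))) ((P.T2 \ B2).disjSum B1ᶜ) Finset.univ := by
  set fl : J → (J ⊕ H → F) →ₗ[F] F := fun j => LinearMap.proj (Sum.inl j) with hfl
  set fr : H → (J ⊕ H → F) →ₗ[F] F := fun h => LinearMap.proj (Sum.inr h) with hfr
  set N1 : Submodule F (J ⊕ H → F) :=
    van fl P.T2ᶜ ⊓ van (fun h => P.xi (Sum.inr (Sum.inr h))) Finset.univ with hN1
  have hz : ∀ μ ∈ N1, (∀ j ∈ P.T2, fl j μ = 0) → μ = 0 := by
    intro μ hμ h0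
    refine P.eq_zero_of_own ?_
    rintro (j | h) hg
    · exfalso
      by_cases hj : j ∈ P.T2
      · exact hg (h0 j hj)
      · exact hg (hμ.1 j (Finset.mem_compl.2 hj))
    · exact hμ.2 h (Finset.mem_univ _)
  have hd1 := finrank_le_card fl P.T2 N1 hz
  obtain ⟨B1, hB1, hs1, hc1⟩ := exists_select fr P.Ltᶜ N1
  obtain ⟨B2, hB2, hs2, hc2⟩ := exists_select fl P.T2 (N1 ⊓ van fr P.Ltᶜ)
  have hd2 := finrank_le_card (Sum.elim (fun i => P.xi (Sum.inr (Sum.inl i))) fr)
    ((Finset.univ : Finset K).disjSum (P.E0 ∪ P.Pt)) (N1 ⊓ van fr P.Ltᶜ) fun μ hμ h0 => by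
      refine P.alpha_zero hK hC (fun j hj => hμ.1.1 j (Finset.mem_compl.2 hj))
        (fun h hh => hμ.2 h (Finset.mem_compl.2 hh))
        (fun h hh => h0 (Sum.inr h) (Finset.inr_mem_disjSum.2 hh)) ?_
      rintro (i | h)
      · exact h0 (Sum.inl i) (Finset.inl_mem_disjSum.2 (Finset.mem_univ _))
      · exact hμ.1.2 h (Finset.mem_univ _)
  rw [Finset.card_disjSum, Finset.card_univ] at hd2
  refine ⟨B1, hB1, B2, hB2, by omega, by omega, fun μ hμ r hr => ?_⟩
  set R := (P.T2 \ B2).disjSum B1ᶜ with hR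
  set ν : J ⊕ H → F := fun g => if g ∈ R then μ g else 0 with hν
  have h1 : ν ∈ N1 := by
    refine ⟨fun j hj => ?_, fun h _ => ?_⟩
    · have : Sum.inl j ∉ R := fun h =>
        Finset.mem_compl.1 hj (Finset.mem_sdiff.1 (Finset.inl_mem_disjSum.1 h)).1
      simp [hfl, hν, this]
    · rw [← hμ h (Finset.mem_univ _), xi_apply]
      simp only [hν, ite_mul, zero_mul]
      rw [← Finset.sum_filter, Finset.filter_mem_eq_inter, Finset.univ_inter]
  have h2 : ν ∈ van fr P.Ltᶜ := hs1 ν h1 fun h hh => by
    have : Sum.inr h ∉ R := fun h' => Finset.mem_compl.1 (Finset.inr_mem_disjSum.1 h') hh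
    simp [hfr, hν, this]
  have h3 := hz ν h1 (hs2 ν ⟨h1, h2⟩ fun j hj => by
    have : Sum.inl j ∉ R := fun h' => (Finset.mem_sdiff.1 (Finset.inl_mem_disjSum.1 h')).2 hj
    simp [hfl, hν, this])
  have h4 := congrFun h3 r
  simpa [hν, hr] using h4

lemma supp_M (r : J ⊕ H) :
    (supp (Sum.elim (P.tau r) fun h => rho P.a r (Sum.inr (Sum.inr h)))).card ≤ 1 + P.sz r := by
  have h1 : supp (Sum.elim (P.tau r) fun h => rho P.a r (Sum.inr (Sum.inr h)))
      ⊆ insert r ((P.RS r).disjSum (P.WS r).toRight) := by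
    rintro (j | h) hc
    · rw [mem_supp, Sum.elim_inl] at hc
      by_contra hn
      rw [Finset.mem_insert, not_or, Finset.inl_mem_disjSum] at hn
      rw [P.tau_of_notMem hn.2, if_neg (Ne.symm hn.1)] at hc
      exact hc rfl
    · rw [mem_supp, Sum.elim_inr] at hc
      by_contra hn
      rw [Finset.mem_insert, not_or, Finset.inr_mem_disjSum, Finset.mem_toRight, mem_WS,
        not_not] at hn
      apply hc
      have : (Sum.inr (Sum.inr h) : Sl J K H) ≠ own r := fun e =>
        hn.1 (own_injective (a₁ := Sum.inr h) e)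
      rw [rho, if_neg this, hn.2, sub_zero]
  have h2 := (Finset.card_le_card h1).trans (Finset.card_insert_le _ _)
  rw [Finset.card_disjSum] at h2
  have h3 := P.RS_WS r
  have h4 := Finset.card_toRight_le (u := P.WS r)
  omega

theorem cost_bound {K0 B L : ℕ} (hR : RB K0 B L) (hK : 2 ≤ K0)
    (hB : Fintype.card J + Fintype.card K + Fintype.card H ≤ B)
    (hC : ∀ A : Finset J, A.card ≤ 4 * K0 → Ind P.C A Finset.univ) (w : K → H)
    (hW : ∀ A : Finset J, A.card ≤ K0 → Ind (fun j i => P.vx (w i) j) A Finset.univ)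
    (two : ∀ j, 2 ≤ P.sz (Sum.inl j)) (cost : J ⊕ H → ℕ) (hc1 : ∀ g, 1 ≤ cost g)
    (hc2 : ∀ g, P.sz g ≤ cost g) :
    7 * Fintype.card J ≤ ∑ g, cost g + 6 * Fintype.card K + 2 * L := by
  have hwb := P.white_bound hR hB hC
  obtain ⟨B1, hB1, B2, hB2, h12, h2, hN⟩ := P.exists_split hK hC
  set R := (P.T2 \ B2).disjSum B1ᶜ with hRdef
  have hRc : R.card + B1.card + B2.card = P.T2.card + Fintype.card H := by
    have e1 := Finset.card_sdiff_add_card_eq_card hB2
    have e2 := Finset.card_compl_add_card B1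
    rw [hRdef, Finset.card_disjSum]
    omega
  have hle := hN.card_le
  rw [Finset.card_univ] at hle
  have hsol := fun i : K => hN.solve (by rw [Finset.card_univ]; omega) (Pi.single (w i) 1)
  choose lam hlam using hsol
  set Rp := R.filter fun r => (fun i => lam i r) ≠ 0 with hRp
  have hsum : ∀ i (f : J ⊕ H → F), ∑ r ∈ Rp, lam i r * f r = ∑ r ∈ R, lam i r * f r := by
    intro i f
    refine Finset.sum_subset (Finset.filter_subset _ _) fun r hr hn => ?_
    have : (fun i => lam i r) = 0 := by
      by_contra hc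
      exact hn (Finset.mem_filter.2 ⟨hr, hc⟩)
    rw [show lam i r = 0 from congrFun this i, zero_mul]
  have hrel := relation_bound hR (K := K) (by omega) Rp
    (fun r => Sum.elim (P.tau r) fun h => rho P.a r (Sum.inr (Sum.inr h))) (fun r i => lam i r) w
    (fun j i => - P.vx (w i) j) (fun r hr => (Finset.mem_filter.1 hr).2)
    (hN.mono (Finset.filter_subset _ _) le_rfl)
    (by
      intro h hh i
      rw [hsum i]
      simp only [Sum.elim_inr]
      rw [hlam i h (Finset.mem_univ _), Pi.single_eq_of_ne]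
      exact fun e => hh ⟨i, e.symm⟩)
    (by
      intro j i
      rw [hsum i]
      simp only [Sum.elim_inl]
      have h3 := P.sum_tau (fun g => if g ∈ R then lam i g else 0) j
      simp only [xi_apply, ite_mul, zero_mul, ← Finset.sum_filter, Finset.filter_mem_eq_inter,
        Finset.univ_inter] at h3
      rw [h3, Finset.sum_congr rfl fun h _ => by rw [hlam i h (Finset.mem_univ _)]]
      simp [Pi.single_apply])
    (by
      intro A hA μ hμ
      refine hW A hA μ fun i hi => ?_
      have := hμ i hi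
      simpa using this)
  have e1 : ∑ r ∈ Rp, (supp (Sum.elim (P.tau r)
      fun h => rho P.a r (Sum.inr (Sum.inr h)))).card ≤ Rp.card + ∑ r ∈ Rp, cost r := by
    rw [Finset.card_eq_sum_ones, ← Finset.sum_add_distrib]
    exact Finset.sum_le_sum fun r _ => (P.supp_M r).trans (Nat.add_le_add_left (hc2 r) _)
  have e2 := Finset.sum_sdiff (f := cost) (show Rp ⊆ R from Finset.filter_subset _ _)
  have e3 := Finset.card_sdiff_add_card_eq_card (show Rp ⊆ R from Finset.filter_subset _ _)
  have e4 : (R \ Rp).card • 1 ≤ ∑ g ∈ R \ Rp, cost g :=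
    Finset.card_nsmul_le_sum (R \ Rp) cost 1 fun g _ => hc1 g
  have e5 := Finset.sum_compl_add_sum R cost
  have e6 : Rᶜ = (P.T2ᶜ ∪ B2).disjSum B1 := by
    ext (j | h)
    · have := @hB2 j
      simp only [hRdef, Finset.mem_compl, Finset.inl_mem_disjSum, Finset.mem_sdiff,
        Finset.mem_union]
      tauto
    · simp [hRdef]
  rw [e6, Finset.sum_disjSum, Finset.sum_union (Finset.disjoint_left.2 fun j h1 h2 =>
    Finset.mem_compl.1 h1 (hB2 h2))] at e5
  have e7 := Finset.card_nsmul_le_sum B2 (fun j => cost (Sum.inl j)) 2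
    fun j _ => (two j).trans (hc2 _)
  have e8 := Finset.card_nsmul_le_sum B1 (fun h => cost (Sum.inr h)) 3 fun h hh => by
    have e := Finset.mem_compl.1 (hB1 hh)
    rw [mem_Lt] at e
    have := hc2 (Sum.inr h)
    omega
  have e9 : 4 * P.T2ᶜ.card ≤ ∑ j ∈ P.T2ᶜ, cost (Sum.inl j) + P.T3.card := by
    have h3 : P.T3 = P.T2ᶜ.filter fun j => P.sz (Sum.inl j) = 3 := by
      ext j
      simp only [mem_T3, Finset.mem_filter, Finset.mem_compl, mem_T2]
      omega
    rw [h3, Finset.card_filter, ← Finset.sum_add_distrib, mul_comm, ← smul_eq_mul,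
      ← Finset.sum_const]
    refine Finset.sum_le_sum fun j hj => ?_
    have e := Finset.mem_compl.1 hj
    rw [mem_T2] at e
    have := hc2 (Sum.inl j)
    split_ifs <;> omega
  have e10 := Finset.card_compl_add_card P.T2
  rw [smul_eq_mul] at e4 e7 e8
  omega

end Prog

end Pool.Agent.MP_5daf37_lc

end MrgPart4

-- ======== part 5: formerly Pool.Agent.MP_5daf37_lc.Circ
section MrgPart5

/-!
From circuits to abstract programs.
-/

open Finset

namespace Pool.Agent.MP_5daf37_lc

namespace Circuit

variable {F : Type} [Field F] {n p q : ℕ} (C : Circuit F n p q)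

omit [Field F] in
lemma exists_rank : ∃ rk : Fin p → ℕ, ∀ e, rk (C.tail e) < rk (C.head e) := by
  classical
  set r : Fin p → Fin p → Prop := fun a b => ∃ e, C.tail e = a ∧ C.head e = b with hr
  refine ⟨fun v => (Finset.univ.filter fun u => Relation.TransGen r u v).card, fun e => ?_⟩
  refine Finset.card_lt_card ⟨fun u hu => ?_, fun h => ?_⟩
  · simp only [Finset.mem_filter, Finset.mem_univ, true_and] at hu ⊢
    exact hu.tail ⟨e, rfl, rfl⟩
  · have h1 := @h (C.tail e) (by
      simp only [Finset.mem_filter, Finset.mem_univ, true_and]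
      exact Relation.TransGen.single ⟨e, rfl, rfl⟩)
    simp only [Finset.mem_filter, Finset.mem_univ, true_and] at h1
    exact C.acyclic _ h1

lemma exists_forms {A : Matrix (Fin n) (Fin n) F} (h : C.Computes A) :
    ∃ cv : Fin p → Fin n → F,
      (∀ v, (∀ e, C.head e ≠ v) → cv v = Pi.single (C.label v) 1) ∧
      (∀ v, (∃ e, C.head e = v) → cv v = ∑ e with C.head e = v, C.weight e • cv (C.tail e)) ∧
      ∀ i, cv (C.output i) = A i := by
  choose val h1 h2 h3 using h
  refine ⟨fun v j => val (Pi.single j 1) v, fun v hv => ?_, fun v hv => ?_, fun i => ?_⟩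
  · funext j
    beta_reduce
    rw [h1 _ v hv]
    simp [Pi.single_apply, eq_comm]
  · funext j
    beta_reduce
    rw [h2 _ v hv]
    simp [Finset.sum_apply]
  · funext j
    beta_reduce
    rw [h3]
    simp

end Circuit

/-- the last coordinates -/
abbrev JJ (n k : ℕ) := {i : Fin n // ¬ (i : ℕ) < k}
/-- the first coordinates -/
abbrev KK (n k : ℕ) := {i : Fin n // (i : ℕ) < k}

theorem edge_bound {F : Type} [Field F] {n p q k K0 B L : ℕ} (C : Circuit F n p q)
    (A : Matrix (Fin n) (Fin n) F) (hA : C.Computes A) (hR : RB K0 B L) (hK : 2 ≤ K0)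
    (hJ : Nontrivial (JJ n k))
    (hD : ∀ j j' : JJ n k, A j j' = if j = j' then 1 else 0)
    (hne : ∀ (i : KK n k) (j : JJ n k), A i j ≠ 0)
    (hC : ∀ S : Finset (JJ n k), S.card ≤ 4 * K0 →
      Ind (fun (j : JJ n k) (i : KK n k) => A j i) S Finset.univ)
    (hW : ∀ S : Finset (JJ n k), S.card ≤ K0 →
      Ind (fun (j : JJ n k) (i : KK n k) => A i j) S Finset.univ) :
    (n + q ≤ B → 7 * Fintype.card (JJ n k) ≤ q + 6 * Fintype.card (KK n k) + 2 * L) ∧
      2 * Fintype.card (JJ n k) ≤ p := by
  classical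
  obtain ⟨rk, hrk⟩ := C.exists_rank
  obtain ⟨cv, hsrc, hgate, hout⟩ := C.exists_forms hA
  have hJK : ∀ (j : JJ n k) (i : KK n k), (j : Fin n) ≠ i := fun j i e => j.2 (e ▸ i.2)
  -- the nodes `y j`
  have hy : ∀ j : JJ n k, ∃ v, (∃ s : F, s ≠ 0 ∧ cv v = s • A j) ∧
      ∀ v', (∃ s : F, s ≠ 0 ∧ cv v' = s • A j) → rk v ≤ rk v' := by
    intro j
    obtain ⟨v, hv, hmin⟩ := Finset.exists_min_image
      (Finset.univ.filter fun v => ∃ s : F, s ≠ 0 ∧ cv v = s • A j) rk
      ⟨C.output j, Finset.mem_filter.2 ⟨Finset.mem_univ _, 1, one_ne_zero, by simp [hout]⟩⟩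
    exact ⟨v, (Finset.mem_filter.1 hv).2, fun v' hv' =>
      hmin v' (Finset.mem_filter.2 ⟨Finset.mem_univ _, hv'⟩)⟩
  choose y hy hymin using hy
  choose s hs hys using hy
  have htwo : ∀ v (a b : Fin n), a ≠ b → cv v a ≠ 0 → cv v b ≠ 0 → ∃ e, C.head e = v := by
    intro v a b hab ha hb
    by_contra hc
    push Not at hc
    rw [hsrc v hc, Pi.single_apply] at ha hb
    apply hab
    split_ifs at ha hb with h1 h2
    · rw [h1, h2]
    all_goals simp at ha hb
  have hyj : ∀ j j' : JJ n k, cv (y j) j' = if j = j' then s j else 0 := by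
    intro j j'
    rw [hys, Pi.smul_apply, hD]
    simp
  have hygate : ∀ j, ∃ e, C.head e = y j := by
    intro j
    have h1 : ∃ i : KK n k, A j i ≠ 0 := by
      by_contra hc
      push Not at hc
      have := hC {j} (by simp; omega) (fun _ => 1) (fun i _ => by simp [hc]) j (by simp)
      exact one_ne_zero this
    obtain ⟨i, hi⟩ := h1
    refine htwo _ j i (hJK j i) (by rw [hyj, if_pos rfl]; exact hs j) ?_
    rw [hys, Pi.smul_apply]
    exact smul_ne_zero (hs j) hi
  have hyinj : Function.Injective y := by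
    intro j j' e
    by_contra hc
    have h1 := hyj j j
    rw [e, hyj, if_neg (Ne.symm hc), if_pos rfl] at h1
    exact hs j h1.symm
  -- slots
  set H := {v : Fin p // (∃ e, C.head e = v) ∧ v ∉ Set.range y} with hH
  set nd : JJ n k ⊕ H → Fin p := Sum.elim y Subtype.val with hnd
  have hndgate : ∀ g, ∃ e, C.head e = nd g := by
    rintro (j | h)
    · exact hygate j
    · exact h.2.1
  have hndinj : Function.Injective nd := by
    rintro (j | h) (j' | h') e
    · rw [hyinj e]
    · exact absurd ⟨j, e⟩ h'.2.2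
    · exact absurd ⟨j', e.symm⟩ h.2.2
    · rw [Subtype.ext e]
  set sval : Sl (JJ n k) (KK n k) H → Fin n → F :=
    Sum.elim (Sum.elim (fun j => Pi.single (j : Fin n) 1) fun j => cv (y j))
      (Sum.elim (fun i => Pi.single (i : Fin n) 1) fun h => cv h) with hsval
  have hsown : ∀ g, sval (own g) = cv (nd g) := by rintro (j | h) <;> rfl
  have hsl : ∀ v, ∃ u : Sl (JJ n k) (KK n k) H, sval u = cv v ∧ ∀ g, u = own g → v = nd g := by
    intro v
    by_cases hv : ∃ e, C.head e = v
    · have : ∃ g, nd g = v := by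
        by_cases hv' : v ∈ Set.range y
        · obtain ⟨j, hj⟩ := hv'
          exact ⟨Sum.inl j, hj⟩
        · exact ⟨Sum.inr ⟨v, hv, hv'⟩, rfl⟩
      obtain ⟨g, rfl⟩ := this
      exact ⟨own g, hsown g, fun g' e => by rw [own_injective e]⟩
    · push Not at hv
      by_cases hl : (C.label v : ℕ) < k
      · refine ⟨Sum.inr (Sum.inl ⟨C.label v, hl⟩), (hsrc v hv).symm, ?_⟩
        rintro (j | h) e <;> simp [own] at e
      · refine ⟨Sum.inl (Sum.inl ⟨C.label v, hl⟩), (hsrc v hv).symm, ?_⟩
        rintro (j | h) e <;> simp [own] at e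
  choose sl hsl1 hsl2 using hsl
  set a : JJ n k ⊕ H → Sl (JJ n k) (KK n k) H → F := fun g u =>
    ∑ e ∈ (Finset.univ.filter fun e => C.head e = nd g) with sl (C.tail e) = u, C.weight e
    with ha
  have hae : ∀ g u, a g u ≠ 0 → ∃ e, C.head e = nd g ∧ sl (C.tail e) = u := by
    intro g u h
    obtain ⟨e, he, -⟩ := Finset.exists_ne_zero_of_sum_ne_zero h
    simp only [Finset.mem_filter, Finset.mem_univ, true_and] at he
    exact ⟨e, he⟩
  have hsum : ∀ g, ∑ u, a g u • sval u = cv (nd g) := by
    intro g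
    rw [hgate _ (hndgate g), ← Finset.sum_fiberwise (s := Finset.univ.filter
      fun e => C.head e = nd g) (g := fun e => sl (C.tail e))]
    refine Finset.sum_congr rfl fun u _ => ?_
    rw [ha, Finset.sum_smul]
    refine Finset.sum_congr rfl fun e he => ?_
    rw [← (Finset.mem_filter.1 he).2, hsl1]
  have hrel : ∀ g t, ∑ u, rho a g u * sval u t = 0 := by
    intro g t
    have h1 := congrFun (hsum g) t
    simp only [Finset.sum_apply, Pi.smul_apply, smul_eq_mul] at h1
    simp only [rho, sub_mul, Finset.sum_sub_distrib, h1, ite_mul, one_mul, zero_mul]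
    rw [Finset.sum_eq_single (own g) (by simp +contextual) (by simp), if_pos rfl, hsown, sub_self]
  let P : Prog F (JJ n k) (KK n k) H :=
    { a := a
      rk := fun g => rk (nd g)
      tri := fun g g' h => by
        obtain ⟨e, he1, he2⟩ := hae g _ h
        rw [← he1, ← hsl2 _ _ he2]
        exact hrk e
      s := s
      hs := hs
      C := fun j i => A j i
      vx := fun h j => cv h j
      vz := fun h i => cv h i
      hX := fun g j => by
        have h1 := hrel g j
        simp only [Fintype.sum_sum_type, hsval, Sum.elim_inl, Sum.elim_inr, hyj, Pi.single_apply,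
          hJK, Subtype.val_inj, mul_ite, mul_one, mul_zero, if_false, Finset.sum_const_zero,
          Finset.sum_ite_eq, Finset.sum_ite_eq', Finset.mem_univ, if_true, zero_add] at h1
        rw [← h1, mul_comm (s j)]
      hZ := fun g i => by
        have h1 := hrel g i
        simp only [Fintype.sum_sum_type, hsval, Sum.elim_inl, Sum.elim_inr, hys, Pi.single_apply,
          (hJK _ _).symm, Subtype.val_inj, mul_ite, mul_one, mul_zero, if_false,
          Finset.sum_const_zero, Finset.sum_ite_eq, Finset.mem_univ, if_true, zero_add,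
          Pi.smul_apply, smul_eq_mul] at h1
        rw [← h1]
        simp only [mul_assoc]
        ring }
  have hwg : ∀ i : KK n k, (∃ e, C.head e = C.output i) ∧ C.output i ∉ Set.range y := by
    intro i
    constructor
    · obtain ⟨j, j', hjj⟩ := exists_pair_ne (JJ n k)
      exact htwo _ j j' (fun e => hjj (Subtype.ext e)) (by rw [hout]; exact hne i j)
        (by rw [hout]; exact hne i j')
    · rintro ⟨j, hj⟩
      obtain ⟨j', hj'⟩ := exists_ne j
      have h1 := hyj j j'
      rw [hj, hout, if_neg (Ne.symm hj')] at h1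
      exact hne i j' h1
  set cost : JJ n k ⊕ H → ℕ := fun g => (Finset.univ.filter fun e => C.head e = nd g).card
    with hcost
  have hc1 : ∀ g, 1 ≤ cost g := fun g => by
    obtain ⟨e, he⟩ := hndgate g
    exact Finset.card_pos.2 ⟨e, Finset.mem_filter.2 ⟨Finset.mem_univ _, he⟩⟩
  have hcq : ∑ g, cost g ≤ q := by
    rw [hcost, ← Finset.card_biUnion]
    · exact (Finset.card_le_univ _).trans (Fintype.card_fin q).le
    · intro g _ g' _ hgg
      refine Finset.disjoint_left.2 fun e h1 h2 => hgg (hndinj ?_)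
      rw [← (Finset.mem_filter.1 h1).2, ← (Finset.mem_filter.1 h2).2]
  have hcard : Fintype.card (KK n k) + Fintype.card (JJ n k) = n := by
    rw [Fintype.card_subtype_compl, Fintype.card_fin]
    exact Nat.add_sub_cancel' ((Fintype.card_subtype_le _).trans (Fintype.card_fin n).le)
  have hHq : Fintype.card H ≤ q := by
    have h1 := Finset.card_nsmul_le_sum Finset.univ cost 1 fun g _ => hc1 g
    rw [Finset.card_univ, Fintype.card_sum, smul_eq_mul] at h1
    have h2 : Finset.univ.sum cost ≤ q := hcq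
    omega
  have hmain := fun hB : n + q ≤ B => P.cost_bound hR hK (by omega) hC (fun i => ⟨C.output i, hwg i⟩)
    (by
      intro S hS
      simpa only [P, hout] using hW S hS)
    (by
      intro j
      by_contra hlt
      have h1 : (supp (a (Sum.inl j))).card ≤ 1 := by
        have : P.sz (Sum.inl j) = (supp (a (Sum.inl j))).card := rfl
        omega
      have h2 := hsum (Sum.inl j)
      have h3 : ∃ u, a (Sum.inl j) u ≠ 0 := by
        by_contra hc
        push Not at hc
        simp only [hc, zero_smul, Finset.sum_const_zero] at h2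
        have h4 := hyj j j
        rw [if_pos rfl, show y j = nd (Sum.inl j) from rfl, ← h2] at h4
        exact hs j h4.symm
      obtain ⟨u, hu⟩ := h3
      rw [Finset.sum_eq_single u (fun u' _ hu' => by
        have : a (Sum.inl j) u' = 0 := by
          by_contra hc
          exact hu' (Finset.card_le_one.1 h1 u' (mem_supp.2 hc) u (mem_supp.2 hu))
        rw [this, zero_smul]) (by simp)] at h2
      obtain ⟨e, he1, he2⟩ := hae _ _ hu
      have h4 := hymin j (C.tail e) ⟨(a (Sum.inl j) u)⁻¹ * s j, mul_ne_zero (inv_ne_zero hu) (hs j),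
        by rw [mul_smul, ← hys, show y j = nd (Sum.inl j) from rfl, ← h2, ← hsl1, he2,
          inv_smul_smul₀ hu]⟩
      have h5 := hrk e
      rw [he1] at h5
      exact absurd h4 (not_le.2 h5))
    cost hc1
    (by
      intro g
      refine le_trans (Finset.card_le_card (t := (Finset.univ.filter
        fun e => C.head e = nd g).image fun e => sl (C.tail e)) fun u hu => ?_)
        Finset.card_image_le
      obtain ⟨e, he1, he2⟩ := hae g u (mem_supp.1 hu)
      exact Finset.mem_image.2 ⟨e, Finset.mem_filter.2 ⟨Finset.mem_univ _, he1⟩, he2⟩)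
  refine ⟨fun hB => by have := hmain hB; omega, ?_⟩
  have hx : ∀ j : JJ n k, ∃ v, (∀ e, C.head e ≠ v) ∧ C.label v = j := by
    intro j
    by_contra hc
    push Not at hc
    have h1 : ∀ m v, rk v = m → cv v j = 0 := by
      intro m
      induction m using Nat.strong_induction_on with
      | _ m ih =>
        intro v hv
        by_cases hg : ∃ e, C.head e = v
        · rw [hgate v hg, Finset.sum_apply]
          refine Finset.sum_eq_zero fun e he => ?_
          have h2 := hrk e
          rw [(Finset.mem_filter.1 he).2, hv] at h2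
          rw [Pi.smul_apply, ih _ h2 _ rfl, smul_zero]
        · push Not at hg
          rw [hsrc v hg, Pi.single_eq_of_ne (hc v hg).symm]
    have h2 := hyj j j
    rw [h1 _ _ rfl, if_pos rfl] at h2
    exact hs j h2.symm
  choose x hx1 hx2 using hx
  have hinj : Function.Injective (Sum.elim x y) := by
    rintro (j | j) (j' | j') e
    · have h1 := hx2 j
      rw [show x j = x j' from e, hx2 j'] at h1
      rw [Subtype.ext h1]
    · obtain ⟨e', he'⟩ := hygate j'
      exact absurd (he'.trans e.symm) (hx1 j e')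
    · obtain ⟨e', he'⟩ := hygate j
      exact absurd (he'.trans e) (hx1 j' e')
    · rw [hyinj e]
  have := Fintype.card_le_of_injective _ hinj
  rw [Fintype.card_sum, Fintype.card_fin] at this
  omega

end Pool.Agent.MP_5daf37_lc

end MrgPart5

-- ======== part 6: formerly Pool.Agent.MP_5daf37_lc.Matrix
section MrgPart6

/-!
The matrix: identity bordered by strips of the Hilbert matrix.
-/

open Finset Polynomial

namespace Pool.Agent.MP_5daf37_lc

lemma cauchy_ind {F : Type} [Field F] {ι κ : Type} [Fintype κ] (a : ι → F) (b : κ → F)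
    (ha : Function.Injective a) (hb : Function.Injective b) (hab : ∀ j i, b i + a j ≠ 0)
    (S : Finset ι) (hS : S.card ≤ Fintype.card κ) :
    Ind (fun j i => (b i + a j)⁻¹) S Finset.univ := by
  classical
  intro ν hν j hj
  set P : F[X] := ∑ j ∈ S, C (ν j) * ∏ t ∈ S.erase j, (X + C (a t)) with hP
  have hdeg : P.natDegree < Fintype.card κ := by
    have h1 := Finset.card_pos.2 ⟨j, hj⟩
    refine lt_of_le_of_lt (natDegree_sum_le_of_forall_le _ _ (n := S.card - 1) fun t ht => ?_)
      (by omega)
    refine (natDegree_C_mul_le _ _).trans ((natDegree_prod_le _ _).trans ?_)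
    simp [Finset.card_erase_of_mem ht]
  have hP0 : P = 0 := by
    refine eq_zero_of_natDegree_lt_card_of_eval_eq_zero P hb (fun i => ?_) hdeg
    have h1 := hν i (Finset.mem_univ _)
    have h2 : P.eval (b i) = (∑ j ∈ S, ν j * (b i + a j)⁻¹) * ∏ t ∈ S, (b i + a t) := by
      rw [hP, eval_finsetSum, Finset.sum_mul]
      refine Finset.sum_congr rfl fun t ht => ?_
      rw [← Finset.mul_prod_erase S _ ht, eval_mul, eval_C, eval_prod]
      have := hab t i
      simp only [eval_add, eval_X, eval_C]
      field_simp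
    rw [h2, h1, zero_mul]
  have h1 := congrArg (eval (- a j)) hP0
  rw [hP, eval_finsetSum, Finset.sum_eq_single_of_mem j hj, eval_mul, eval_C, eval_prod,
    eval_zero] at h1
  · refine (mul_eq_zero.1 h1).resolve_right (Finset.prod_ne_zero_iff.2 fun t ht => ?_)
    simp only [eval_add, eval_X, eval_C]
    exact fun h => Finset.ne_of_mem_erase ht (ha (by linear_combination h))
  · intro t _ htj
    rw [eval_mul, eval_prod, Finset.prod_eq_zero (Finset.mem_erase.2 ⟨htj.symm, hj⟩) (by simp),
      mul_zero]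

/-- the entries -/
def entry (n i j : ℕ) : ℚ :=
  if i < Nat.sqrt n ∨ j < Nat.sqrt n then ((i + j + 1 : ℕ) : ℚ)⁻¹ else if i = j then 1 else 0

/-- the matrices -/
def mat (n : ℕ) : Matrix (Fin n) (Fin n) ℚ := fun i j => entry n i j

open PolyT in
lemma poly_inv {α : Type} [N487b59b3 α] {f : α → ℕ} (hf : PolyT.Poly f) :
    PolyT.Poly fun x => ((f x + 1 : ℕ) : ℚ)⁻¹ := by
  refine PT.congr ((PolyT.Poly.const (1 : ℤ)).pair hf.succ) fun x => ?_
  change _ = N487b59b3.bitEncode ((((f x + 1 : ℕ) : ℚ)⁻¹).num, (((f x + 1 : ℕ) : ℚ)⁻¹).den)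
  rw [Rat.inv_natCast_num_of_pos (by omega), Rat.inv_natCast_den_of_pos (by omega)]

lemma poly_entry : PolyT.Poly fun x : (List Bool × ℕ) × ℕ => entry x.1.1.length x.1.2 x.2 := by
  have hn : PolyT.Poly fun x : (List Bool × ℕ) × ℕ => x.1.1.length := PolyT.Poly.id.fst.fst.length
  have hi : PolyT.Poly fun x : (List Bool × ℕ) × ℕ => x.1.2 := PolyT.Poly.id.fst.snd
  have hj : PolyT.Poly fun x : (List Bool × ℕ) × ℕ => x.2 := PolyT.Poly.id.snd
  have h1 := ((hi.succ.mul hi.succ).le hn).or ((hj.succ.mul hj.succ).le hn)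
  have h2 := (hi.eq hj).cond (PolyT.Poly.const (1 : ℚ)) (PolyT.Poly.const (0 : ℚ))
  refine (h1.cond (poly_inv (hi.add hj)) h2).congr fun x => ?_
  simp only [entry, ← Nat.le_sqrt, Nat.succ_le_iff, ← Bool.decide_or, Bool.cond_decide]

lemma poly_row : PolyT.Poly fun x : List Bool × ℕ =>
    (List.range x.1.length).map fun j => entry x.1.length x.2 j :=
  PolyT.Poly.map (g := fun (x : List Bool × ℕ) j => entry x.1.length x.2 j) poly_entry
    PolyT.Poly.id.fst.rangeLength

lemma explicit_mat : Explicit mat := by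
  rw [Explicit, ← PolyT.poly_iff]
  have h := PolyT.Poly.map (g := fun (l : List Bool) (i : ℕ) => (List.range l.length).map
    fun j => entry l.length i j) poly_row PolyT.Poly.id.rangeLength
  refine h.congr fun l => ?_
  apply List.ext_getElem (by simp)
  intro i h1 h2
  simp only [List.getElem_map, List.getElem_range, List.getElem_ofFn]
  apply List.ext_getElem (by simp)
  intro j h3 h4
  simp [mat]

theorem mat_bound (F : Type) [Field F] [CharZero F] {δ : ℝ} (hδ : 0 < δ) :
    ∃ n0 : ℕ, ∀ n ≥ n0, ∀ (p q : ℕ) (C : Circuit F n p q),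
      C.Computes ((mat n).map (Rat.cast : ℚ → F)) →
        (7 - δ) * n ≤ q ∧ (2 - δ) * n ≤ p := by
  obtain ⟨n0, hn0⟩ := exists_RB (show 0 < δ / 4 by positivity) 8
  refine ⟨max (max n0 64) (⌈26 / δ⌉₊ ^ 2), fun n hn p q C hC => ?_⟩
  have h1 : n0 ≤ n := le_of_max_le_left (le_of_max_le_left hn)
  have h2 : 64 ≤ n := le_of_max_le_right (le_of_max_le_left hn)
  have h3 : ⌈26 / δ⌉₊ ^ 2 ≤ n := le_of_max_le_right hn
  set k := Nat.sqrt n with hk
  have hk1 : 8 ≤ k := Nat.le_sqrt'.2 (by omega)
  have hk2 : k * k ≤ n := Nat.sqrt_le n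
  have hk3 : 26 / δ ≤ k := Nat.ceil_le.1 (Nat.le_sqrt'.2 h3)
  have hk4 : 26 * (k : ℝ) ≤ δ * n := by
    rw [div_le_iff₀ hδ] at hk3
    have : (k : ℝ) * k ≤ n := by exact_mod_cast hk2
    nlinarith [(Nat.cast_nonneg k : (0 : ℝ) ≤ k)]
  have hkn : k + 2 ≤ n := by nlinarith
  have hK : Fintype.card (KK n k) = k := by
    rw [Fintype.card_subtype, Fin.card_filter_val_lt]
    omega
  have hJ : Fintype.card (JJ n k) + k = n := by
    rw [Fintype.card_subtype_compl, Fintype.card_fin, show Fintype.card {i : Fin n // (i : ℕ) < k}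
      = k from hK]
    omega
  obtain ⟨L, hR, hL⟩ := hn0 n h1
  have hent : ∀ i j : Fin n, (i : ℕ) < k ∨ (j : ℕ) < k →
      (mat n).map (Rat.cast : ℚ → F) i j = (((i : ℕ) : F) + j + 1)⁻¹ := by
    intro i j h
    simp [mat, entry, ← hk, h]
  have hcast : ∀ i j : ℕ, ((i : F) + j + 1) ≠ 0 := fun i j => by
    exact_mod_cast Nat.succ_ne_zero (i + j)
  have hind : ∀ S : Finset (JJ n k), S.card ≤ k →
      Ind (fun (j : JJ n k) (i : KK n k) => ((((i : Fin n) : ℕ) : F) + (((j : Fin n) : ℕ) + 1))⁻¹)
        S Finset.univ := fun S hS =>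
    cauchy_ind (fun j : JJ n k => (((j : Fin n) : ℕ) : F) + 1) (fun i : KK n k => ((i : Fin n) : ℕ))
      (fun j j' e => Subtype.ext (Fin.ext (by simpa using e)))
      (fun j j' e => Subtype.ext (Fin.ext (by simpa using e)))
      (fun j i => by rw [← add_assoc]; exact hcast _ _) S (by omega)
  obtain ⟨key1, key2⟩ :=
    edge_bound (k := k) C _ hC hR (by omega)
      (Fintype.one_lt_card_iff_nontrivial.1 (by omega))
      (fun j j' => by
        have e1 := j.2
        have e2 := j'.2
        simp only [mat, entry, Matrix.map_apply, ← hk, e1, e2, or_self, if_false, Fin.val_inj,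
          Subtype.val_inj]
        split_ifs <;> simp)
      (fun i j => by rw [hent _ _ (Or.inl i.2)]; exact inv_ne_zero (hcast _ _))
      (fun S hS => by
        convert hind S (by omega) using 3 with j i
        rw [hent _ _ (Or.inr i.2)]
        ring)
      (fun S hS => by
        convert hind S (by omega) using 3 with j i
        rw [hent _ _ (Or.inl i.2)]
        ring)
  have hJ' : (Fintype.card (JJ n k) : ℝ) + k = n := by exact_mod_cast hJ
  have hk0 : (0 : ℝ) ≤ k := Nat.cast_nonneg k
  have hn0' : (0 : ℝ) ≤ δ * n := by positivity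
  constructor
  · by_cases hq : q ≤ 7 * n
    · have h4 := key1 (by omega)
      rw [hK] at h4
      have h5 : (7 * Fintype.card (JJ n k) : ℝ) ≤ q + 6 * k + 2 * L := by exact_mod_cast h4
      nlinarith
    · have h5 : (7 * n : ℝ) ≤ q := by exact_mod_cast (not_le.1 hq).le
      nlinarith
  · have h5 : (2 * Fintype.card (JJ n k) : ℝ) ≤ p := by exact_mod_cast key2
    nlinarith

end Pool.Agent.MP_5daf37_lc

end MrgPart6

-- marker of a merged file
example : 731051 + 190409 = 731051 + 190409 := rfl
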