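import Mathlib.Combinatorics.Digraph.Basic
import Mathlib.Data.List.Lookmap

/-!
Superconcentrators.
-/

namespace Pool.Agent.MP_5daf37_lc

/-- For every `k`, any `k` inputs are joined to any `k` outputs by `k` vertex disjoint directed
paths. -/
def IsSuperconcentrator {V : Type} (G : Digraph V) (X Y : Finset V) : Prop :=
  ∀ S ⊆ X, ∀ T ⊆ Y, S.card = T.card → ∃ path : V → List V,
    (∀ s ∈ S, (path s).IsChain G.Adj ∧ (path s).head? = some s ∧
      ∃ t ∈ T, (path s).getLast? = some t) ∧
    ∀ s ∈ S, ∀ s' ∈ S, s ≠ s' → (path s).Disjoint (path s')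

end Pool.Agent.MP_5daf37_lc
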