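import Pool.Agent.MP_5daf37_lc.Peel
import Pool.Agent.MP_5daf37_lc.SuperDefs

-- ======== part 0: formerly Pool.Agent.MP_5daf37_lc.Side
section MrgPart0

-- ======== part 0: formerly Pool.Agent.MP_5daf37_lc.Peel2
section MrgPart0

/-!
A structural form of the peeling argument for set systems with sets of bounded size.
-/

open Finset

namespace Pool.Agent.MP_5daf37_lc

section
variable {V : Type*} [DecidableEq V]

lemma peel_struct {ε : ℝ} (hε : 0 ≤ ε) (r M T h : ℕ) :
    ∀ (S : Finset V) (N : V → Finset V) (W : Finset V), S.card ≤ h * M →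
      (W.card : ℝ) < (1 + ε) ^ r → (∀ s ∈ S, N s ⊆ W) → (∀ s ∈ S, (N s).card ≤ T) →
      Hall ((T + 1) ^ h * (4 * r + 6)) S N →
      ∃ P ⊆ W, ∃ c : V → V, Set.InjOn c P ∧ (∀ p ∈ P, c p ∈ S ∧ p ∈ N (c p) ∧ N (c p) ⊆ P) ∧
        ((∑ s ∈ S \ P.image c, (3 - (N s \ P).card) + P.card : ℕ) : ℝ)
          ≤ (1 + ε) * W.card + M := by
  induction h with
  | zero =>
    intro S N W hS _ _ _ _
    have : S = ∅ := by simpa using hS
    subst this
    refine ⟨∅, by simp, id, by simp, by simp, ?_⟩
    simp only [Finset.empty_sdiff, Finset.sum_empty, Finset.card_empty, add_zero, Nat.cast_zero]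
    positivity
  | succ h ih =>
    intro S N W hS hW hN h3 hH
    have hpow : 1 ≤ (T + 1) ^ h := Nat.one_le_pow _ _ (by omega)
    have hK : (T + 1) ^ (h + 1) * (4 * r + 6) = (T + 1) * ((T + 1) ^ h * (4 * r + 6)) := by ring
    have hK1 : 4 * r + 6 ≤ (T + 1) ^ h * (4 * r + 6) := Nat.le_mul_of_pos_left _ hpow
    have hK2 : (T + 1) ^ h * (4 * r + 6) ≤ (T + 1) ^ (h + 1) * (4 * r + 6) := by
      rw [hK]
      exact Nat.le_mul_of_pos_left _ (by omega)
    set S1 := S.filter fun s => (N s).card = 1 with hS1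
    by_cases hM : S1.card ≤ M
    · set S2 := S.filter fun s => (N s).card ≤ 2 with hS2
      have hg := graph_bound hε r N W S2 (fun s hs => hN s (Finset.mem_filter.1 hs).1)
        (fun s hs => (Finset.mem_filter.1 hs).2) (hH.mono (by omega) (Finset.filter_subset _ _)) hW
      have hsum : ∑ s ∈ S, (3 - (N s).card) ≤ S2.card + S1.card := by
        rw [hS1, hS2, Finset.card_filter, Finset.card_filter, ← Finset.sum_add_distrib]
        refine Finset.sum_le_sum fun s hs => ?_
        have := hH.one_le (by omega) hs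
        split_ifs <;> omega
      refine ⟨∅, by simp, id, by simp, by simp, ?_⟩
      simp only [Finset.image_empty, Finset.sdiff_empty, Finset.card_empty, add_zero]
      have h1 : ((∑ s ∈ S, (3 - (N s).card) : ℕ) : ℝ) ≤ S2.card + S1.card := by
        exact_mod_cast hsum
      have h2 : (S1.card : ℝ) ≤ M := by exact_mod_cast hM
      linarith
    · push Not at hM
      set P1 := S1.biUnion N with hP1
      set S' := S.filter fun s => ¬ (N s).card = 1 with hS'
      have hsub1 : S1 ⊆ S := Finset.filter_subset _ _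
      have hone : ∀ s ∈ S1, (N s).card = 1 := fun s hs => (Finset.mem_filter.1 hs).2
      have hP1c : P1.card = S1.card := card_biUnion_single hH (by omega) hsub1 hone
      have hSS : S1.card + S'.card = S.card := Finset.card_filter_add_card_filter_not _
      have hP1W : P1 ⊆ W := Finset.biUnion_subset.2 fun s hs => hN s (hsub1 hs)
      have hWc := Finset.card_sdiff_add_card_eq_card hP1W
      obtain ⟨P', hP'W, c', hinj', hc', hI⟩ := ih S' (fun s => N s \ P1) (W \ P1) (by nlinarith)
        (lt_of_le_of_lt (by exact_mod_cast Finset.card_le_card Finset.sdiff_subset) hW)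
        (fun s hs => Finset.sdiff_subset_sdiff (hN s (Finset.mem_filter.1 hs).1) le_rfl)
        (fun s hs => (Finset.card_le_card Finset.sdiff_subset).trans
          (h3 s (Finset.mem_filter.1 hs).1))
        (by
          intro A hA hAc
          set A1 := S1.filter fun s => N s ⊆ A.biUnion N with hA1
          have hA1S : A1 ⊆ S := (Finset.filter_subset _ _).trans hsub1
          have hA1c : (A1.biUnion N).card = A1.card := card_biUnion_single hH (by omega) hA1S
            fun s hs => hone s (Finset.mem_filter.1 hs).1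
          have hAS : A ⊆ S := hA.trans (Finset.filter_subset _ _)
          have hsubA : A1.biUnion N ⊆ A.biUnion N :=
            Finset.biUnion_subset.2 fun s hs => (Finset.mem_filter.1 hs).2
          have hNA : (A.biUnion N).card ≤ A.card * T :=
            Finset.card_biUnion_le_card_mul A N T fun s hs => h3 s (hAS hs)
          have hc1 := Finset.card_le_card hsubA
          have hdisj : Disjoint A A1 := by
            rw [Finset.disjoint_left]
            intro s hs hs1
            exact (Finset.mem_filter.1 (hA hs)).2 (hone s (Finset.mem_filter.1 hs1).1)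
          have hu := hH (A ∪ A1) (Finset.union_subset hAS hA1S)
            (by
              rw [Finset.card_union_of_disjoint hdisj, hK]
              have := Nat.mul_le_mul_left (T + 1) hAc
              nlinarith)
          rw [Finset.card_union_of_disjoint hdisj] at hu
          have hcov : (A ∪ A1).biUnion N ⊆ (A.biUnion fun s => N s \ P1) ∪ A1.biUnion N := by
            intro p hp
            rw [Finset.union_biUnion, Finset.mem_union] at hp
            have hpA : p ∈ A.biUnion N := by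
              rcases hp with hp | hp
              · exact hp
              · exact hsubA hp
            by_cases hpP : p ∈ P1
            · obtain ⟨t, ht, hpt⟩ := Finset.mem_biUnion.1 hpP
              refine Finset.mem_union_right _ (Finset.mem_biUnion.2 ⟨t, ?_, hpt⟩)
              refine Finset.mem_filter.2 ⟨ht, ?_⟩
              obtain ⟨q, hq⟩ := Finset.card_eq_one.1 (hone t ht)
              rw [hq] at hpt ⊢
              rw [Finset.mem_singleton] at hpt
              rw [← hpt]
              exact Finset.singleton_subset_iff.2 hpA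
            · obtain ⟨s, hs, hps⟩ := Finset.mem_biUnion.1 hpA
              exact Finset.mem_union_left _
                (Finset.mem_biUnion.2 ⟨s, hs, Finset.mem_sdiff.2 ⟨hps, hpP⟩⟩)
          have hc2 := (Finset.card_le_card hcov).trans (Finset.card_union_le _ _)
          omega)
      have hex : ∀ p, ∃ s, p ∈ P1 → s ∈ S1 ∧ p ∈ N s := by
        intro p
        by_cases hp : p ∈ P1
        · obtain ⟨s, hs, hps⟩ := Finset.mem_biUnion.1 hp
          exact ⟨s, fun _ => ⟨hs, hps⟩⟩
        · exact ⟨p, fun h => absurd h hp⟩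
      choose c1 hc1 using hex
      have hP'1 : ∀ p ∈ P', p ∉ P1 := fun p hp => (Finset.mem_sdiff.1 (hP'W hp)).2
      have hdisjP : Disjoint P1 P' := Finset.disjoint_right.2 hP'1
      set c : V → V := fun p => if p ∈ P1 then c1 p else c' p with hc
      have hcP1 : ∀ p ∈ P1, c p = c1 p := fun p hp => if_pos hp
      have hcP' : ∀ p ∈ P', c p = c' p := fun p hp => if_neg (hP'1 p hp)
      have hS'1 : ∀ s ∈ S', s ∉ S1 := fun s hs h1 => (Finset.mem_filter.1 hs).2 (hone s h1)
      refine ⟨P1 ∪ P', Finset.union_subset hP1W (hP'W.trans Finset.sdiff_subset), c, ?_, ?_, ?_⟩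
      · intro p hp q hq hpq
        rw [Finset.coe_union, Set.mem_union, Finset.mem_coe, Finset.mem_coe] at hp hq
        rcases hp with hp | hp <;> rcases hq with hq | hq
        · rw [hcP1 p hp, hcP1 q hq] at hpq
          exact Finset.card_le_one.1 (hone _ (hc1 p hp).1).le p (hc1 p hp).2 q
            (hpq ▸ (hc1 q hq).2)
        · rw [hcP1 p hp, hcP' q hq] at hpq
          exact absurd (hpq ▸ (hc1 p hp).1) (hS'1 _ (hc' q hq).1)
        · rw [hcP' p hp, hcP1 q hq] at hpq
          exact absurd (hpq ▸ (hc1 q hq).1) (hS'1 _ (hc' p hp).1)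
        · rw [hcP' p hp, hcP' q hq] at hpq
          exact hinj' hp hq hpq
      · intro p hp
        rcases Finset.mem_union.1 hp with hp | hp
        · rw [hcP1 p hp]
          exact ⟨hsub1 (hc1 p hp).1, (hc1 p hp).2,
            (Finset.subset_biUnion_of_mem N (hc1 p hp).1).trans Finset.subset_union_left⟩
        · rw [hcP' p hp]
          obtain ⟨h1, h2, h4⟩ := hc' p hp
          refine ⟨(Finset.mem_filter.1 h1).1, (Finset.mem_sdiff.1 h2).1, fun x hx => ?_⟩
          by_cases hx1 : x ∈ P1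
          · exact Finset.mem_union_left _ hx1
          · exact Finset.mem_union_right _ (h4 (Finset.mem_sdiff.2 ⟨hx, hx1⟩))
      · have e1 : S \ (P1 ∪ P').image c ⊆ S' \ P'.image c' := by
          intro s hs
          obtain ⟨hsS, hsn⟩ := Finset.mem_sdiff.1 hs
          refine Finset.mem_sdiff.2 ⟨Finset.mem_filter.2 ⟨hsS, fun h1 => hsn ?_⟩, fun h1 => hsn ?_⟩
          · obtain ⟨p, hp⟩ := Finset.card_eq_one.1 h1
            have hs1 : s ∈ S1 := Finset.mem_filter.2 ⟨hsS, h1⟩
            have hpN : p ∈ N s := by rw [hp]; exact Finset.mem_singleton_self p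
            have hpP : p ∈ P1 := Finset.mem_biUnion.2 ⟨s, hs1, hpN⟩
            refine Finset.mem_image.2 ⟨p, Finset.mem_union_left _ hpP, ?_⟩
            rw [hcP1 p hpP]
            by_contra hne
            exact Finset.disjoint_left.1 (hH.disj_single (by omega) (hsub1 (hc1 p hpP).1) hsS hne
              (hone _ (hc1 p hpP).1) h1) (hc1 p hpP).2 hpN
          · obtain ⟨p, hp, rfl⟩ := Finset.mem_image.1 h1
            exact Finset.mem_image.2 ⟨p, Finset.mem_union_right _ hp, hcP' p hp⟩
        have e2 : ∑ s ∈ S \ (P1 ∪ P').image c, (3 - (N s \ (P1 ∪ P')).card)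
            ≤ ∑ s ∈ S' \ P'.image c', (3 - ((N s \ P1) \ P').card) := by
          simp only [sdiff_sdiff_left, Finset.sup_eq_union]
          exact Finset.sum_le_sum_of_subset e1
        rw [Finset.card_union_of_disjoint hdisjP]
        have e3 : ((∑ s ∈ S \ (P1 ∪ P').image c, (3 - (N s \ (P1 ∪ P')).card)
            + (P1.card + P'.card) : ℕ) : ℝ)
            ≤ ((∑ s ∈ S' \ P'.image c', (3 - ((N s \ P1) \ P').card) + P'.card : ℕ) : ℝ)
              + P1.card := by
          exact_mod_cast (by omega)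
        have e4 : (W.card : ℝ) = (W \ P1).card + P1.card := by exact_mod_cast hWc.symm
        have e5 : (0 : ℝ) ≤ ε * P1.card := by positivity
        rw [e4]
        nlinarith

end

/-- The structural bound: Hall range `K`, size bound `B`, loss `L`, sets of size at most `T`. -/
def RP (K B L T : ℕ) : Prop :=
  ∀ (V : Type) [DecidableEq V] (S : Finset V) (N : V → Finset V) (W : Finset V),
    S.card ≤ B → W.card ≤ B → (∀ s ∈ S, N s ⊆ W) → (∀ s ∈ S, (N s).card ≤ T) → Hall K S N →
    ∃ P ⊆ W, ∃ c : V → V, Set.InjOn c P ∧ (∀ p ∈ P, c p ∈ S ∧ p ∈ N (c p) ∧ N (c p) ⊆ P) ∧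
      ∑ s ∈ S \ P.image c, (3 - (N s \ P).card) + P.card ≤ W.card + L

lemma exists_RP {δ : ℝ} (hδ : 0 < δ) (c T : ℕ) :
    ∃ n0 : ℕ, ∀ n ≥ n0, ∃ L : ℕ, RP (Nat.sqrt n) (c * n) L T ∧ (L : ℝ) ≤ δ * n := by
  set ε : ℝ := δ / (3 * (c + 1)) with hε
  have hεpos : 0 < ε := by positivity
  set h : ℕ := ⌈3 * c / δ⌉₊ with hh
  set A : ℕ := (T + 1) ^ h with hA
  have hA1 : 1 ≤ A := Nat.one_le_pow _ _ (by omega)
  have hlim := tendsto_pow_const_div_const_pow_of_one_lt 2 (show 1 < 1 + ε by linarith)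
  have hpos : (0 : ℝ) < 1 / (6400 * c * A ^ 2 + 1) := by positivity
  obtain ⟨r0, hr0⟩ := Filter.eventually_atTop.1 (hlim.eventually (gt_mem_nhds hpos))
  refine ⟨max ((40 * A * (r0 + 1)) ^ 2) ⌈6 / δ⌉₊, fun n hn => ?_⟩
  have hn1 : (40 * A * (r0 + 1)) ^ 2 ≤ n := le_of_max_le_left hn
  have hn2 : 6 / δ ≤ n := Nat.ceil_le.1 (le_of_max_le_right hn)
  have hn3 : 6 ≤ δ * n := by rwa [div_le_iff₀' hδ] at hn2
  set m := Nat.sqrt n with hm
  have hm1 : 40 * A * (r0 + 1) ≤ m := Nat.le_sqrt'.2 hn1
  set r := m / (40 * A) with hr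
  have hr1 : r0 + 1 ≤ r := (Nat.le_div_iff_mul_le (by omega)).2 (by linarith)
  have hr2 : 40 * A * r ≤ m := Nat.mul_div_le _ _
  have hr3 : m < 40 * A * (r + 1) := Nat.lt_mul_div_succ _ (by omega)
  have hn4 : n < (m + 1) ^ 2 := Nat.lt_succ_sqrt' n
  have hn5 : n ≤ 6400 * A ^ 2 * r ^ 2 := by
    have h1 : m + 1 ≤ 80 * A * r := by nlinarith
    calc n ≤ (m + 1) ^ 2 := hn4.le
      _ ≤ (80 * A * r) ^ 2 := Nat.pow_le_pow_left h1 2
      _ = _ := by ring
  have hgrow : ((c * n : ℕ) : ℝ) < (1 + ε) ^ r := by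
    have h1 := hr0 r (by omega)
    rw [div_lt_div_iff₀ (by positivity) (by positivity)] at h1
    have h2 : (n : ℝ) ≤ 6400 * A ^ 2 * r ^ 2 := by exact_mod_cast hn5
    have h3 : (c : ℝ) * n ≤ c * (6400 * A ^ 2 * r ^ 2) := by gcongr
    push_cast
    nlinarith [sq_nonneg (r : ℝ)]
  set M : ℕ := ⌈δ * n / 3⌉₊ with hM
  have hhM : c * n ≤ h * M := by
    have h1 : 3 * c / δ ≤ h := Nat.le_ceil _
    have h2 : δ * n / 3 ≤ M := Nat.le_ceil _
    have h3 : (c : ℝ) * n = (3 * c / δ) * (δ * n / 3) := by field_simp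
    have h4 : (3 * c / δ) * (δ * n / 3) ≤ (h : ℝ) * M := by gcongr
    have : (c : ℝ) * n ≤ h * M := by linarith
    exact_mod_cast this
  refine ⟨M + M, ?_, ?_⟩
  · intro V _ S N W h1 h2 h3 h4 h5
    have hW : (W.card : ℝ) ≤ (c * n : ℕ) := by exact_mod_cast h2
    obtain ⟨P, hP, d, hd1, hd2, hb⟩ := peel_struct hεpos.le r M T h S N W (h1.trans hhM)
      (lt_of_le_of_lt hW hgrow) h3 h4 (h5.mono (by nlinarith) le_rfl)
    refine ⟨P, hP, d, hd1, hd2, ?_⟩
    have h7 : ε * W.card ≤ M := by
      refine le_trans ?_ (Nat.le_ceil _)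
      calc ε * W.card ≤ ε * ((c + 1) * n) := by
            gcongr
            push_cast at hW
            nlinarith [(Nat.cast_nonneg n : (0 : ℝ) ≤ n)]
        _ = δ * n / 3 := by rw [hε]; field_simp
    have : ((∑ s ∈ S \ P.image d, (3 - (N s \ P).card) + P.card : ℕ) : ℝ)
        ≤ ((W.card + (M + M) : ℕ) : ℝ) := by
      rw [Nat.cast_add W.card, Nat.cast_add M]
      linarith
    exact_mod_cast this
  · have h1 : (M : ℝ) < δ * n / 3 + 1 := Nat.ceil_lt_add_one (by positivity)
    push_cast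
    linarith

end Pool.Agent.MP_5daf37_lc

end MrgPart0

-- ======== part 1: formerly Pool.Agent.MP_5daf37_lc.Side
section MrgPart1

/-!
One half of the edge count for superconcentrators.
-/

open Finset

namespace Pool.Agent.MP_5daf37_lc

variable {V : Type} [DecidableEq V] (r : V → V → Prop) [DecidableRel r]

/-- number of edges from `A` to `B` -/
def ec (A B : Finset V) : ℕ := ∑ a ∈ A, (B.filter (r a)).card

omit [DecidableEq V] in
lemma ec_comm (A B : Finset V) : ec r A B = ec (fun a b => r b a) B A := by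
  simp only [ec, Finset.card_filter]
  exact Finset.sum_comm

lemma ec_left (A B Q : Finset V) : ec r A B = ec r (A ∩ Q) B + ec r (A \ Q) B :=
  (Finset.sum_inter_add_sum_sdiff A Q _).symm

lemma ec_right (A B Q : Finset V) : ec r A B = ec r A (B ∩ Q) + ec r A (B \ Q) := by
  rw [ec_comm r A B, ec_comm r A (B ∩ Q), ec_comm r A (B \ Q), ec_left _ B A Q]

omit [DecidableEq V] in
lemma ec_mono {A B A' B' : Finset V} (hA : A ⊆ A') (hB : B ⊆ B') : ec r A B ≤ ec r A' B' :=
  (Finset.sum_le_sum fun _ _ => Finset.card_le_card (Finset.filter_subset_filter _ hB)).trans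
    (Finset.sum_le_sum_of_subset hA)

/-- the sets of the family: out-neighbours in `W`, and the node itself if it is in `H` -/
def nb (H W : Finset V) (v : V) : Finset V :=
  if v ∈ H then insert v (W.filter (r v)) else W.filter (r v)

lemma card_nb_sdiff (hr : ∀ v, ¬ r v v) (H W P : Finset V) (v : V) :
    (nb r H W v \ P).card = ((W \ P).filter (r v)).card + if v ∈ H \ P then 1 else 0 := by
  have h1 : W.filter (r v) \ P = (W \ P).filter (r v) := by
    ext x
    simp only [Finset.mem_sdiff, Finset.mem_filter]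
    tauto
  unfold nb
  by_cases hH : v ∈ H
  · by_cases hP : v ∈ P
    · rw [if_pos hH, Finset.insert_sdiff_of_mem _ hP, h1]
      simp [hP]
    · rw [if_pos hH, Finset.insert_sdiff_of_notMem _ hP, h1, Finset.card_insert_of_notMem
        (fun h => hr v (Finset.mem_filter.1 h).2)]
      simp [hH, hP]
  · rw [if_neg hH, h1]
    simp [hH]

lemma side_bound {K B L T : ℕ} (hR : RP K B L T) (hr : ∀ v, ¬ r v v)
    (X H O Mid Sm : Finset V) (hXH : Disjoint X H) (hHO : Disjoint H O) (hMid : Mid ⊆ H)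
    (hSm : Sm ⊆ X ∪ H) (hSB : Sm.card ≤ B) (hWB : (H ∪ O).card ≤ B)
    (hT : ∀ v ∈ Sm, (nb r H (H ∪ O) v).card ≤ T) (hH : Hall K Sm (nb r H (H ∪ O))) :
    ∃ P : Finset V, ∀ Q : Finset V,
      6 * X.card + 2 * (Mid ∩ Q).card + ec r Mid Mid + ec r Mid (Mid ∩ P)
        ≤ 2 * ec r (X ∪ H) (H ∪ O) + 2 * (Mid ∩ P).card + ec r (Mid ∩ Q) Mid
          + 2 * (L + 3 * ((X ∪ H) \ Sm).card + 3 * O.card) := by
  set W := H ∪ O with hW
  set N := nb r H W with hN
  obtain ⟨P, hPW, c, hinj, hc, hb⟩ := hR V Sm N W hSB hWB (by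
    intro s _ x hx
    simp only [hN, nb] at hx
    split_ifs at hx with h
    · rcases Finset.mem_insert.1 hx with rfl | hx
      · exact Finset.mem_union_left _ h
      · exact (Finset.mem_filter.1 hx).1
    · exact (Finset.mem_filter.1 hx).1) hT hH
  refine ⟨P, fun Q => ?_⟩
  set Col := X ∪ H with hCol
  set o : V → ℕ := fun v => ((W \ P).filter (r v)).card with ho
  have hNo : ∀ v, (N v \ P).card = o v + if v ∈ H \ P then 1 else 0 :=
    fun v => card_nb_sdiff r hr H W P v
  have hcP : P.image c ⊆ Sm := fun s hs => by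
    obtain ⟨p, hp, rfl⟩ := Finset.mem_image.1 hs
    exact (hc p hp).1
  have hc0 : ∀ p ∈ P, (N (c p) \ P).card = 0 := fun p hp => by
    rw [Finset.sdiff_eq_empty_iff_subset.2 (hc p hp).2.2, Finset.card_empty]
  have hMC : Mid ⊆ Col := hMid.trans Finset.subset_union_right
  -- the edges
  have e1 : ec r Col W = ec r Col P + ∑ v ∈ Col, o v := by
    rw [ec_right r Col W P, Finset.inter_eq_right.2 hPW]
    rfl
  have e2 : ∑ v ∈ Col, (N v \ P).card = ∑ v ∈ Col, o v + (H \ P).card := by
    simp only [hNo, Finset.sum_add_distrib]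
    rw [← Finset.card_filter, Finset.filter_mem_eq_inter, Finset.inter_eq_right.2
      (Finset.sdiff_subset.trans Finset.subset_union_right)]
  have e3 : ∑ v ∈ Col \ P.image c, (3 - (N v \ P).card)
      ≤ ∑ v ∈ Sm \ P.image c, (3 - (N v \ P).card) + 3 * (Col \ Sm).card := by
    have h1 : Col \ P.image c ⊆ (Sm \ P.image c) ∪ (Col \ Sm) := by
      intro v hv
      simp only [Finset.mem_sdiff, Finset.mem_union] at hv ⊢
      tauto
    have h2 := Finset.sum_le_card_nsmul (Col \ Sm) (fun v => 3 - (N v \ P).card) 3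
      fun v _ => Nat.sub_le _ _
    have h3 := Finset.sum_le_sum_of_subset (f := fun v => 3 - (N v \ P).card) h1
    have h4 := Finset.sum_union_inter (s₁ := Sm \ P.image c) (s₂ := Col \ Sm)
      (f := fun v => 3 - (N v \ P).card)
    rw [smul_eq_mul] at h2
    omega
  have e4 : 3 * (Col \ P.image c).card + ∑ v ∈ Mid, ((N v \ P).card - 3)
      ≤ ∑ v ∈ Col, (N v \ P).card + ∑ v ∈ Col \ P.image c, (3 - (N v \ P).card) := by
    have h1 : ∑ v ∈ Mid, ((N v \ P).card - 3) ≤ ∑ v ∈ Col \ P.image c, ((N v \ P).card - 3) := by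
      rw [← Finset.sum_sdiff (s₁ := Mid ∩ P.image c) Finset.inter_subset_left,
        Finset.sum_eq_zero (s := Mid ∩ P.image c), add_zero]
      · refine Finset.sum_le_sum_of_subset fun v hv => ?_
        simp only [Finset.mem_sdiff, Finset.mem_inter, not_and] at hv ⊢
        exact ⟨hMC hv.1, hv.2 hv.1⟩
      · intro v hv
        obtain ⟨p, hp, rfl⟩ := Finset.mem_image.1 (Finset.mem_inter.1 hv).2
        rw [hc0 p hp, Nat.zero_sub]
    have h2 : ∑ v ∈ Col \ P.image c, (N v \ P).card ≤ ∑ v ∈ Col, (N v \ P).card :=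
      Finset.sum_le_sum_of_subset Finset.sdiff_subset
    have h3 : 3 * (Col \ P.image c).card + ∑ v ∈ Col \ P.image c, ((N v \ P).card - 3)
        = ∑ v ∈ Col \ P.image c, (N v \ P).card
          + ∑ v ∈ Col \ P.image c, (3 - (N v \ P).card) := by
      rw [mul_comm, ← smul_eq_mul, ← Finset.sum_const, ← Finset.sum_add_distrib,
        ← Finset.sum_add_distrib]
      exact Finset.sum_congr rfl fun v _ => by omega
    omega
  have e5 := Finset.card_sdiff_add_card_eq_card (hcP.trans hSm)
  rw [Finset.card_image_of_injOn hinj] at e5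
  have e6 : Col.card = X.card + H.card := Finset.card_union_of_disjoint hXH
  have e7 : W.card = H.card + O.card := Finset.card_union_of_disjoint hHO
  have e8 := Finset.card_sdiff_add_card_inter H P
  have e9 : P.card ≤ (H ∩ P).card + O.card := by
    refine le_trans (Finset.card_le_card (t := (H ∩ P) ∪ O) fun p hp => ?_)
      (Finset.card_union_le _ _)
    have := hPW hp
    simp only [hW, Finset.mem_union, Finset.mem_inter] at this ⊢
    tauto
  have e10 : (Mid \ P).card ≤ (H \ P).card :=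
    Finset.card_le_card (Finset.sdiff_subset_sdiff hMid le_rfl)
  have e11 : ec r Col (Mid ∩ P) ≤ ec r Col P := ec_mono r le_rfl Finset.inter_subset_right
  -- the charging
  set U3 := (Mid \ Q).filter fun v => v ∈ P ∧ o v = 3 with hU3
  set U0 := (Mid \ Q).filter fun v => o v = 0 with hU0
  have f1 : ∑ v ∈ Mid \ Q, o v + U0.card
      ≤ 2 * (Mid \ Q).card + 2 * ∑ v ∈ Mid, ((N v \ P).card - 3) + U3.card := by
    have h1 : ∑ v ∈ Mid \ Q, ((N v \ P).card - 3) ≤ ∑ v ∈ Mid, ((N v \ P).card - 3) :=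
      Finset.sum_le_sum_of_subset Finset.sdiff_subset
    have h2 : ∑ v ∈ Mid \ Q, o v + U0.card
        ≤ 2 * (Mid \ Q).card + 2 * ∑ v ∈ Mid \ Q, ((N v \ P).card - 3) + U3.card := by
      rw [hU0, hU3, Finset.card_filter, Finset.card_filter, Finset.mul_sum, mul_comm,
        ← smul_eq_mul, ← Finset.sum_const, ← Finset.sum_add_distrib, ← Finset.sum_add_distrib,
        ← Finset.sum_add_distrib]
      refine Finset.sum_le_sum fun v hv => ?_
      have hvH := hMid (Finset.mem_sdiff.1 hv).1
      rw [hNo]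
      by_cases hP : v ∈ P
      · simp only [Finset.mem_sdiff, hP, not_true, and_false, if_false, true_and]
        split_ifs <;> omega
      · simp only [Finset.mem_sdiff, hP, hvH, not_false_iff, and_self, if_true, false_and,
          if_false]
        split_ifs <;> omega
    omega
  have hU3c : ∀ v ∈ U3, c v ∈ Col ∧ r (c v) v ∧ o (c v) = 0 := by
    intro v hv
    obtain ⟨-, hvP, hv3⟩ := Finset.mem_filter.1 hv
    obtain ⟨h1, h2, -⟩ := hc v hvP
    have h3 := hc0 v hvP
    rw [hNo] at h3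
    have h4 : o (c v) = 0 := by omega
    refine ⟨hSm h1, ?_, h4⟩
    simp only [hN, nb] at h2
    split_ifs at h2 with h
    · rcases Finset.mem_insert.1 h2 with h5 | h5
      · rw [← h5] at h4
        omega
      · exact (Finset.mem_filter.1 h5).2
    · exact (Finset.mem_filter.1 h2).2
  have f2 : (U3.filter fun v => c v ∈ Mid \ Q).card ≤ U0.card := by
    refine Finset.card_le_card_of_injOn c (fun v hv => ?_) (hinj.mono fun v hv => ?_)
    · obtain ⟨h1, h2⟩ := Finset.mem_filter.1 hv
      exact Finset.mem_filter.2 ⟨h2, (hU3c v h1).2.2⟩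
    · exact (Finset.mem_filter.1 (Finset.mem_filter.1 hv).1).2.1
  have f3 : (U3.filter fun v => ¬ c v ∈ Mid \ Q).card ≤ ec r (Col \ (Mid \ Q)) (Mid ∩ P) := by
    rw [ec_comm, ec, Finset.card_eq_sum_ones]
    refine le_trans (Finset.sum_le_sum fun v hv => ?_) (Finset.sum_le_sum_of_subset fun v hv => ?_)
    · obtain ⟨h1, h2⟩ := Finset.mem_filter.1 hv
      exact Finset.card_pos.2 ⟨c v, Finset.mem_filter.2
        ⟨Finset.mem_sdiff.2 ⟨(hU3c v h1).1, h2⟩, (hU3c v h1).2.1⟩⟩
    · obtain ⟨h1, h2, -⟩ := Finset.mem_filter.1 (Finset.mem_filter.1 hv).1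
      exact Finset.mem_inter.2 ⟨(Finset.mem_sdiff.1 h1).1, h2⟩
  have f4 := Finset.card_filter_add_card_filter_not (s := U3) fun v => c v ∈ Mid \ Q
  have f5 := ec_left r Col (Mid ∩ P) (Mid \ Q)
  rw [Finset.inter_eq_right.2 (Finset.sdiff_subset.trans hMC)] at f5
  have f6 : ec r Mid (Mid ∩ P) ≤ ec r Col (Mid ∩ P) := ec_mono r hMC le_rfl
  have f7 := ec_left r Mid Mid Q
  have f8 := ec_right r (Mid \ Q) Mid P
  have f9 : ec r (Mid \ Q) (Mid \ P) ≤ ∑ v ∈ Mid \ Q, o v :=
    ec_mono r le_rfl (Finset.sdiff_subset_sdiff (hMid.trans Finset.subset_union_left) le_rfl)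
  have f10 := Finset.card_sdiff_add_card_inter Mid P
  have f11 := Finset.card_sdiff_add_card_inter Mid Q
  omega

end Pool.Agent.MP_5daf37_lc

end MrgPart1

-- marker of a merged file
example : 731051 + 457030 = 731051 + 457030 := rfl

end MrgPart0

-- ======== part 1: formerly Pool.Agent.MP_5daf37_lc.Super
section MrgPart1

/-!
The edge count for acyclic graphs without small vertex cuts between inputs and outputs.
-/

open Finset Relation

namespace Pool.Agent.MP_5daf37_lc

/-- fewer than `k` nodes do not separate `k` inputs from `k` outputs -/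
def Cut {V : Type} (r : V → V → Prop) (X Y : Finset V) : Prop :=
  ∀ S ⊆ X, ∀ T ⊆ Y, S.card = T.card → ∀ C : Finset V, C.card < S.card →
    ∃ s ∈ S, ∃ t ∈ T, s ∉ C ∧ t ∉ C ∧ ReflTransGen (fun a b => r a b ∧ a ∉ C ∧ b ∉ C) s t

lemma Cut.swap {V : Type} {r : V → V → Prop} {X Y : Finset V} (h : Cut r X Y) :
    Cut (fun a b => r b a) Y X := by
  intro S hS T hT hc C hC
  obtain ⟨t, ht, s, hs, h1, h2, h3⟩ := h T hT S hS hc.symm C (hc ▸ hC)
  exact ⟨s, hs, t, ht, h2, h1, ReflTransGen.mono (fun a b h => ⟨h.1, h.2.2, h.2.1⟩) _ _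
    (reflTransGen_swap.2 h3)⟩

variable {V : Type} [Fintype V] [DecidableEq V] (r : V → V → Prop) [DecidableRel r]

omit [DecidableRel r] in
lemma exists_closed (hac : ∀ v, ¬ TransGen r v v) (Y : Finset V) (k : ℕ) (hk : k ≤ Y.card) :
    ∃ O ⊆ Y, O.card = k ∧ ∀ y ∈ Y, ∀ w ∈ O, ReflTransGen r y w → y ∈ O := by
  classical
  induction k with
  | zero => exact ⟨∅, by simp, rfl, by simp⟩
  | succ k ih =>
    obtain ⟨O, hO, hc, hcl⟩ := ih (by omega)
    obtain ⟨y0, hy0, hmin⟩ := Finset.exists_min_image (Y \ O)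
      (fun v => (Finset.univ.filter fun u => TransGen r u v).card) (by
        rw [← Finset.card_pos, Finset.card_sdiff_of_subset hO]
        omega)
    obtain ⟨hy0Y, hy0O⟩ := Finset.mem_sdiff.1 hy0
    refine ⟨insert y0 O, Finset.insert_subset hy0Y hO,
      by rw [Finset.card_insert_of_notMem hy0O, hc], fun y hy w hw hyw => ?_⟩
    rcases Finset.mem_insert.1 hw with rfl | hw
    · by_contra hn
      rw [Finset.mem_insert, not_or] at hn
      have h1 : TransGen r y w := (reflTransGen_iff_eq_or_transGen.1 hyw).resolve_left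
        fun e => hn.1 e.symm
      refine absurd (hmin y (Finset.mem_sdiff.2 ⟨hy, hn.2⟩)) (not_le.2 ?_)
      refine Finset.card_lt_card ⟨fun u hu => ?_, fun h => ?_⟩
      · simp only [Finset.mem_filter, Finset.mem_univ, true_and] at hu ⊢
        exact hu.trans h1
      · have h2 := @h y (by simpa using h1)
        exact hac y (by simpa using h2)
    · exact Finset.mem_insert_of_mem (hcl y hy w hw hyw)

/-- inner nodes from which `O` can be reached -/
noncomputable def anc (U O : Finset V) : Finset V :=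
  @Finset.filter V (fun v => v ∉ U ∧ ∃ w ∈ O, ReflTransGen r v w) (Classical.decPred _)
    Finset.univ

omit [DecidableEq V] [DecidableRel r] in
lemma mem_anc {U O : Finset V} {v : V} :
    v ∈ anc r U O ↔ v ∉ U ∧ ∃ w ∈ O, ReflTransGen r v w := by simp [anc]

lemma hall_of_cut {X Y O Sm : Finset V} {K T : ℕ} (hcut : Cut r X Y) (hXY : Disjoint X Y)
    (hO : O ⊆ Y) (hcl : ∀ y ∈ Y, ∀ w ∈ O, ReflTransGen r y w → y ∈ O)
    (hK : K * (T + 1) ≤ O.card) (hSm : Sm ⊆ X ∪ anc r (X ∪ Y) O)
    (hT : ∀ v ∈ Sm, (Finset.univ.filter (r v)).card ≤ T) :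
    Hall K Sm (nb r (anc r (X ∪ Y) O) (anc r (X ∪ Y) O ∪ O)) := by
  intro A hA hAc
  set H := anc r (X ∪ Y) O with hH
  set Out := A.biUnion fun v => Finset.univ.filter (r v) with hOut
  have hOutc : Out.card ≤ A.card * T :=
    Finset.card_biUnion_le_card_mul A _ T fun v hv => hT v (hA hv)
  set D := (Out ∩ (H ∪ O)) \ A with hD
  set J := (A ∩ X) ∪ ((Out ∩ X) \ A) with hJ
  have hJc : J.card = (A ∩ X).card + ((Out ∩ X) \ A).card :=
    Finset.card_union_of_disjoint (Finset.disjoint_left.2 fun v h1 h2 =>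
      (Finset.mem_sdiff.1 h2).2 (Finset.mem_inter.1 h1).1)
  have hJO : J.card ≤ O.card := by
    have h1 := Finset.card_le_card (Finset.inter_subset_left (s₁ := A) (s₂ := X))
    have h2 := Finset.card_le_card ((Finset.sdiff_subset (s := Out ∩ X) (t := A)).trans
      Finset.inter_subset_left)
    have h3 := Nat.mul_le_mul_right (T + 1) hAc
    nlinarith
  obtain ⟨T', hT', hT'c⟩ := Finset.exists_subset_card_eq hJO
  have key : (A ∩ X).card ≤ D.card := by
    by_contra hlt
    obtain ⟨s, hs, t, ht, hsC, -, hst⟩ := hcut J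
      (Finset.union_subset Finset.inter_subset_right
        (Finset.sdiff_subset.trans Finset.inter_subset_right)) T' (hT'.trans hO) hT'c.symm
      (D ∪ ((Out ∩ X) \ A)) (lt_of_le_of_lt (Finset.card_union_le _ _) (by omega))
    have hsA : s ∈ A := by
      rcases Finset.mem_union.1 hs with h | h
      · exact (Finset.mem_inter.1 h).1
      · exact absurd (Finset.mem_union_right _ h) hsC
    revert hsA
    clear hs hsC
    induction hst using ReflTransGen.head_induction_on with
    | refl =>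
      intro htA
      have htY := hO (hT' ht)
      rcases Finset.mem_union.1 (hSm (hA htA)) with h | h
      · exact Finset.disjoint_left.1 hXY h htY
      · exact ((mem_anc r).1 h).1 (Finset.mem_union_right _ htY)
    | @head a b hab hbt ih =>
      intro haA
      apply ih
      by_contra hbA
      have hbO : b ∈ Out := Finset.mem_biUnion.2 ⟨a, haA, by simpa using hab.1⟩
      have hbt' : ReflTransGen r b t := ReflTransGen.mono (fun _ _ h => h.1) _ _ hbt
      apply hab.2.2
      by_cases hbX : b ∈ X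
      · exact Finset.mem_union_right _ (Finset.mem_sdiff.2 ⟨Finset.mem_inter.2 ⟨hbO, hbX⟩, hbA⟩)
      · refine Finset.mem_union_left _ (Finset.mem_sdiff.2 ⟨Finset.mem_inter.2 ⟨hbO, ?_⟩, hbA⟩)
        by_cases hbY : b ∈ Y
        · exact Finset.mem_union_right _ (hcl b hbY t (hT' ht) hbt')
        · exact Finset.mem_union_left _ ((mem_anc r).2 ⟨by simp [hbX, hbY], t, hT' ht, hbt'⟩)
  have h1 : (A \ X) ∪ D ⊆ A.biUnion (nb r H (H ∪ O)) := by
    intro v hv
    rcases Finset.mem_union.1 hv with h | h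
    · obtain ⟨hvA, hvX⟩ := Finset.mem_sdiff.1 h
      have hvH : v ∈ H := (Finset.mem_union.1 (hSm (hA hvA))).resolve_left hvX
      exact Finset.mem_biUnion.2 ⟨v, hvA, by simp [nb, hvH]⟩
    · obtain ⟨h2, h3⟩ := Finset.mem_inter.1 (Finset.mem_sdiff.1 h).1
      obtain ⟨a, ha, hav⟩ := Finset.mem_biUnion.1 h2
      refine Finset.mem_biUnion.2 ⟨a, ha, ?_⟩
      have h4 : v ∈ (H ∪ O).filter (r a) := Finset.mem_filter.2 ⟨h3, (Finset.mem_filter.1 hav).2⟩
      unfold nb
      split_ifs
      · exact Finset.mem_insert_of_mem h4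
      · exact h4
  have h2 := Finset.card_le_card h1
  rw [Finset.card_union_of_disjoint (Finset.disjoint_left.2 fun v h1 h2 =>
    (Finset.mem_sdiff.1 h2).2 (Finset.mem_sdiff.1 h1).1)] at h2
  have h3 := Finset.card_sdiff_add_card_inter A X
  rw [← hD] at h2
  omega

lemma half_bound {K B L T n q : ℕ} (hR : RP K B L (T + 1)) (hac : ∀ v, ¬ TransGen r v v)
    {X Y O Z : Finset V} (hcut : Cut r X Y) (hXY : Disjoint X Y) (hX : X.card = n)
    (hY : Y.card = n) (hq : ec r Finset.univ Finset.univ = q) (hB : n + q ≤ B)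
    (hO : O ⊆ Y) (hcl : ∀ y ∈ Y, ∀ w ∈ O, ReflTransGen r y w → y ∈ O)
    (hK : K * (T + 1) ≤ O.card) (Mid : Finset V) (hMid : Mid ⊆ anc r (X ∪ Y) O) :
    ∃ P : Finset V, ∀ Q : Finset V,
      6 * (X \ Z).card + 2 * (Mid ∩ Q).card + ec r Mid Mid + ec r Mid (Mid ∩ P)
        ≤ 2 * ec r ((X \ Z) ∪ anc r (X ∪ Y) O) (anc r (X ∪ Y) O ∪ O) + 2 * (Mid ∩ P).card
          + ec r (Mid ∩ Q) Mid + 2 * (L + 3 * (q / (T + 1)) + 3 * O.card) := by
  set H := anc r (X ∪ Y) O with hH
  set Sm := ((X \ Z) ∪ H).filter fun v => (Finset.univ.filter (r v)).card ≤ T with hSm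
  have hHU : ∀ v ∈ H, v ∉ X ∧ v ∉ Y := fun v hv => by simpa using ((mem_anc r).1 hv).1
  have hHq : H.card ≤ q := by
    rw [← hq]
    refine le_trans ?_ (ec_mono r (Finset.subset_univ H) le_rfl)
    rw [ec, Finset.card_eq_sum_ones]
    refine Finset.sum_le_sum fun v hv => ?_
    obtain ⟨-, w, hw, hvw⟩ := (mem_anc r).1 hv
    rcases ReflTransGen.cases_head hvw with e | ⟨u, hu, -⟩
    · exact absurd (e ▸ hO hw) (hHU v hv).2
    · exact Finset.card_pos.2 ⟨u, by simpa using hu⟩
  have hsub : Sm ⊆ X ∪ H := (Finset.filter_subset _ _).trans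
    (Finset.union_subset_union_left Finset.sdiff_subset)
  obtain ⟨P, hP⟩ := side_bound r hR (fun v h => hac v (TransGen.single h)) (X \ Z) H O Mid Sm
    (Finset.disjoint_right.2 fun v hv h => (hHU v hv).1 (Finset.mem_sdiff.1 h).1)
    (Finset.disjoint_left.2 fun v hv h => (hHU v hv).2 (hO h)) hMid (Finset.filter_subset _ _)
    (by
      have := (Finset.card_le_card hsub).trans (Finset.card_union_le _ _)
      omega)
    (by
      have h1 := Finset.card_union_le H O
      have h2 := Finset.card_le_card hO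
      omega)
    (by
      intro v hv
      have h1 := (Finset.mem_filter.1 hv).2
      have h2 : ((H ∪ O).filter (r v)).card ≤ (Finset.univ.filter (r v)).card :=
        Finset.card_le_card (Finset.filter_subset_filter _ (Finset.subset_univ _))
      have h3 := Finset.card_insert_le v ((H ∪ O).filter (r v))
      unfold nb
      split_ifs <;> omega)
    (hall_of_cut r hcut hXY hO hcl hK hsub fun v hv => (Finset.mem_filter.1 hv).2)
  have hlarge : (((X \ Z) ∪ H) \ Sm).card ≤ q / (T + 1) := by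
    rw [Nat.le_div_iff_mul_le (by omega), ← hq]
    refine le_trans ?_ (ec_mono r (Finset.subset_univ (((X \ Z) ∪ H) \ Sm)) le_rfl)
    rw [ec, ← smul_eq_mul]
    refine Finset.card_nsmul_le_sum _ _ _ fun v hv => ?_
    obtain ⟨h1, h2⟩ := Finset.mem_sdiff.1 hv
    by_contra hc
    exact h2 (Finset.mem_filter.2 ⟨h1, by omega⟩)
  refine ⟨P, fun Q => ?_⟩
  have := hP Q
  omega

omit [Fintype V] [DecidableEq V] in
lemma ec_eq_card (A B : Finset V) : ec r A B = ((A ×ˢ B).filter fun e => r e.1 e.2).card := by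
  simp only [ec, Finset.card_filter]
  rw [Finset.sum_product]

theorem cut_bound {K B L T n q : ℕ} (hR : RP K B L (T + 1)) (hac : ∀ v, ¬ TransGen r v v)
    {X Y : Finset V} (hcut : Cut r X Y) (hXY : Disjoint X Y) (hX : X.card = n)
    (hY : Y.card = n) (hq : ec r Finset.univ Finset.univ = q) (hB : n + q ≤ B)
    (hK : K * (T + 1) ≤ n) :
    6 * n ≤ q + 2 * L + 6 * (q / (T + 1)) + 12 * (K * (T + 1)) := by
  have hac' : ∀ v, ¬ TransGen (fun a b => r b a) v v := fun v h => hac v (transGen_swap.1 h)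
  obtain ⟨O, hO, hOc, hOcl⟩ := exists_closed r hac Y (K * (T + 1)) (by omega)
  obtain ⟨Z, hZ, hZc, hZcl⟩ := exists_closed (fun a b => r b a) hac' X (K * (T + 1)) (by omega)
  set H1 := anc r (X ∪ Y) O with hH1
  set H2 := anc (fun a b => r b a) (Y ∪ X) Z with hH2
  obtain ⟨P, hP⟩ := half_bound r (Z := Z) hR hac hcut hXY hX hY hq hB hO hOcl hOc.ge (H1 ∩ H2)
    Finset.inter_subset_left
  obtain ⟨Q, hQ⟩ := half_bound (fun a b => r b a) (Z := O) hR hac' hcut.swap hXY.symm hY hX
    ((ec_comm r _ _).symm.trans hq) hB hZ hZcl hZc.ge (H1 ∩ H2) Finset.inter_subset_right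
  have h1 := hP Q
  have h2 := hQ P
  rw [← hH1] at h1
  rw [← hH2, ← ec_comm r, ← ec_comm r, ← ec_comm r, ← ec_comm r] at h2
  have h3 := Finset.card_sdiff_add_card_eq_card hO
  have h4 := Finset.card_sdiff_add_card_eq_card hZ
  have h5 : ec r ((X \ Z) ∪ H1) (H1 ∪ O) + ec r (H2 ∪ Z) ((Y \ O) ∪ H2)
      ≤ q + ec r (H1 ∩ H2) (H1 ∩ H2) := by
    rw [← hq]
    simp only [ec_eq_card]
    rw [← Finset.card_union_add_card_inter]
    refine Nat.add_le_add (Finset.card_le_card fun e he => ?_) (Finset.card_le_card fun e he => ?_)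
    · simp only [Finset.mem_union, Finset.mem_filter] at he
      simp only [Finset.mem_filter, Finset.mem_product, Finset.mem_univ, true_and]
      tauto
    · have a1 : e.1 ∈ H1 → e.1 ∉ X := fun h h' => ((mem_anc r).1 h).1 (Finset.mem_union_left _ h')
      have a2 : e.1 ∈ H2 → e.1 ∉ X := fun h h' => ((mem_anc _).1 h).1 (Finset.mem_union_right _ h')
      have a3 : e.2 ∈ H1 → e.2 ∉ Y := fun h h' => ((mem_anc r).1 h).1 (Finset.mem_union_right _ h')
      have a4 : e.2 ∈ H2 → e.2 ∉ Y := fun h h' => ((mem_anc _).1 h).1 (Finset.mem_union_left _ h')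
      have a5 := @hZ e.1
      have a6 := @hO e.2
      simp only [Finset.mem_inter, Finset.mem_filter, Finset.mem_product, Finset.mem_union,
        Finset.mem_sdiff] at he ⊢
      tauto
  omega

end Pool.Agent.MP_5daf37_lc

end MrgPart1

-- ======== part 2: formerly Pool.Agent.MP_5daf37_lc.SuperCut
section MrgPart2

/-!
Superconcentrators have no small cuts.
-/

open Finset Relation

namespace Pool.Agent.MP_5daf37_lc

lemma rtg_of_chain {V : Type} {r : V → V → Prop} {C : Finset V} :
    ∀ (l : List V) (a b : V), l.IsChain r → l.head? = some a → l.getLast? = some b →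
      (∀ x ∈ l, x ∉ C) → ReflTransGen (fun a b => r a b ∧ a ∉ C ∧ b ∉ C) a b
  | [], _, _, _, h, _, _ => by simp at h
  | [x], a, b, _, h1, h2, _ => by
    simp only [List.head?_cons, Option.some.injEq, List.getLast?_singleton] at h1 h2
    rw [← h1, ← h2]
  | x :: y :: l, a, b, h, h1, h2, h3 => by
    simp only [List.head?_cons, Option.some.injEq] at h1
    rw [List.isChain_cons_cons] at h
    rw [List.getLast?_cons_cons] at h2
    rw [← h1]
    exact ReflTransGen.head ⟨h.1, h3 x (by simp), h3 y (by simp)⟩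
      (rtg_of_chain (y :: l) y b h.2 rfl h2 fun z hz => h3 z (List.mem_cons_of_mem _ hz))

lemma IsSuperconcentrator.cut {V : Type} {G : Digraph V} {X Y : Finset V}
    (h : IsSuperconcentrator G X Y) : Cut G.Adj X Y := by
  intro S hS T hT hc C hC
  obtain ⟨path, h1, h2⟩ := h S hS T hT hc
  have hex : ∃ s ∈ S, ∀ x ∈ path s, x ∉ C := by
    by_contra hcon
    push Not at hcon
    choose! f hf1 hf2 using hcon
    refine absurd (Finset.card_le_card_of_injOn f hf2 fun s hs s' hs' e => ?_) (not_le.2 hC)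
    by_contra hne
    exact h2 s hs s' hs' hne (hf1 s hs) (e ▸ hf1 s' hs')
  obtain ⟨s, hs, hav⟩ := hex
  obtain ⟨h3, h4, t, ht, h5⟩ := h1 s hs
  exact ⟨s, hs, t, ht, hav s (List.mem_of_mem_head? h4), hav t (List.mem_of_mem_getLast? h5),
    rtg_of_chain _ _ _ h3 h4 h5 hav⟩

theorem cut_bound_real {ε : ℝ} (hε : 0 < ε) : ∃ n0 : ℕ, ∀ n ≥ n0,
    ∀ (V : Type) [Fintype V] [DecidableEq V] (r : V → V → Prop) [DecidableRel r] (X Y : Finset V),
      (∀ v, ¬ TransGen r v v) → Disjoint X Y → X.card = n → Y.card = n → Cut r X Y →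
      (6 - ε) * n ≤ ec r Finset.univ Finset.univ := by
  set T : ℕ := ⌈108 / ε⌉₊ with hT
  obtain ⟨n0, hn0⟩ := exists_RP (show 0 < ε / 6 by positivity) 7 (T + 1)
  refine ⟨max (max n0 ((T + 1) ^ 2)) (⌈36 * (T + 1) / ε⌉₊ ^ 2),
    fun n hn V _ _ r _ X Y hac hXY hX hY hcut => ?_⟩
  have h1 : n0 ≤ n := le_of_max_le_left (le_of_max_le_left hn)
  have h2 : (T + 1) ^ 2 ≤ n := le_of_max_le_right (le_of_max_le_left hn)
  have h3 : ⌈36 * (T + 1) / ε⌉₊ ^ 2 ≤ n := le_of_max_le_right hn
  obtain ⟨L, hR, hL⟩ := hn0 n h1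
  set k := Nat.sqrt n with hk
  set q := ec r Finset.univ Finset.univ with hq
  have hk1 : T + 1 ≤ k := Nat.le_sqrt'.2 h2
  have hk2 : k * k ≤ n := Nat.sqrt_le n
  have hk3 : 36 * (T + 1) / ε ≤ k := Nat.ceil_le.1 (Nat.le_sqrt'.2 h3)
  have hn0' : (0 : ℝ) ≤ ε * n := by positivity
  by_cases hq6 : q ≤ 6 * n
  · have h4 := cut_bound r hR hac hcut hXY hX hY hq.symm (by omega) (by nlinarith)
    have h5 : ((k * (T + 1) : ℕ) : ℝ) * 36 ≤ ε * n := by
      rw [div_le_iff₀ hε] at hk3
      have : (k : ℝ) * k ≤ n := by exact_mod_cast hk2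
      push_cast
      nlinarith [(Nat.cast_nonneg k : (0 : ℝ) ≤ k)]
    have h6 : ((q / (T + 1) : ℕ) : ℝ) * 18 ≤ ε * n := by
      have e1 : q / (T + 1) * (T + 1) ≤ 6 * n := (Nat.div_mul_le_self _ _).trans hq6
      have e2 : ((q / (T + 1) : ℕ) : ℝ) * (T + 1) ≤ 6 * n := by exact_mod_cast e1
      have e3 : 108 / ε ≤ T := Nat.le_ceil _
      rw [div_le_iff₀ hε] at e3
      have e4 : (0 : ℝ) ≤ (q / (T + 1) : ℕ) := Nat.cast_nonneg _
      nlinarith
    have h7 : (6 * n : ℝ) ≤ q + 2 * L + 6 * (q / (T + 1) : ℕ) + 12 * (k * (T + 1) : ℕ) := by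
      exact_mod_cast h4
    nlinarith
  · have h5 : (6 * n : ℝ) ≤ q := by exact_mod_cast (not_le.1 hq6).le
    nlinarith

end Pool.Agent.MP_5daf37_lc

end MrgPart2

-- marker of a merged file
example : 731051 + 72503 = 731051 + 72503 := rfl
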