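import Mathlib
import Pool.Agent.MP_5daf37_lc.SuperCut
import Pool.Agent.MP_5daf37_lc.Defs

/-!
A linear circuit that computes a matrix all of whose square minors are nonzero has no small cuts,
hence at least `6 n - o(n)` edges.
-/

open Finset Relation

namespace Pool.Agent.MP_5daf37_lc

namespace Link

variable {F : Type} [Field F] {n p q : ℕ} (C : Circuit F n p q)

open Classical in
/-- Sources with the same label are merged. -/
noncomputable def phi (v : Fin p) : Fin n ⊕ Fin p :=
  if ∀ e, C.head e ≠ v then Sum.inl (C.label v) else Sum.inr v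

/-- The digraph of the circuit with sources merged by label. -/
def rel (a b : Fin n ⊕ Fin p) : Prop := ∃ e, phi C (C.tail e) = a ∧ Sum.inr (C.head e) = b

omit [Field F] in
lemma phi_eq_inr {u v : Fin p} (h : phi C u = Sum.inr v) : u = v := by
  unfold phi at h
  split_ifs at h
  exact Sum.inr.inj h

omit [Field F] in
lemma phi_src {v : Fin p} (h : ∀ e, C.head e ≠ v) : phi C v = Sum.inl (C.label v) := by
  unfold phi
  rw [if_pos h]

omit [Field F] in
lemma phi_gate {v : Fin p} (h : ∃ e, C.head e = v) : phi C v = Sum.inr v := by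
  unfold phi
  rw [if_neg]
  push Not
  exact h

omit [Field F] in
lemma transGen_rel {a b : Fin n ⊕ Fin p} (h : TransGen (rel C) a b) :
    ∃ v, b = Sum.inr v ∧ ∀ u, a = Sum.inr u →
      TransGen (fun a b => ∃ e, C.tail e = a ∧ C.head e = b) u v := by
  induction h with
  | single h =>
    obtain ⟨e, h1, h2⟩ := h
    exact ⟨C.head e, h2.symm, fun u hu => TransGen.single ⟨e, phi_eq_inr C (h1.trans hu), rfl⟩⟩
  | tail _ h ih =>
    obtain ⟨e, h1, h2⟩ := h
    obtain ⟨w, hw, ih⟩ := ih
    exact ⟨C.head e, h2.symm, fun u hu =>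
      TransGen.tail (ih u hu) ⟨e, phi_eq_inr C (h1.trans hw), rfl⟩⟩

omit [Field F] in
lemma rel_acyclic (a : Fin n ⊕ Fin p) : ¬ TransGen (rel C) a a := by
  intro h
  obtain ⟨v, hv, h⟩ := transGen_rel C h
  exact C.acyclic v (h v hv)

omit [Field F] in
lemma ec_rel_le [DecidableRel (rel C)] : ec (rel C) Finset.univ Finset.univ ≤ q := by
  classical
  rw [ec_eq_card]
  calc _ ≤ (Finset.univ.image fun e : Fin q =>
        (phi C (C.tail e), (Sum.inr (C.head e) : Fin n ⊕ Fin p))).card := by
        refine Finset.card_le_card fun x hx => ?_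
        obtain ⟨e, h1, h2⟩ := (Finset.mem_filter.1 hx).2
        exact Finset.mem_image.2 ⟨e, Finset.mem_univ _, Prod.ext h1 h2⟩
    _ ≤ q := by simpa using Finset.card_image_le (s := (Finset.univ : Finset (Fin q)))

omit [Field F] in
lemma wf : WellFounded (TransGen fun a b => ∃ e, C.tail e = a ∧ C.head e = b) := by
  have : Std.Irrefl (TransGen fun a b => ∃ e, C.tail e = a ∧ C.head e = b) := ⟨C.acyclic⟩
  exact Finite.wellFounded_of_trans_of_irrefl _

variable {C} {A : Matrix (Fin n) (Fin n) F}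

lemma entry_ne (hA : ∀ (k : ℕ) (r c : Fin k ↪ Fin n), (A.submatrix r c).det ≠ 0) (i j : Fin n) :
    A i j ≠ 0 := by
  have := hA 1 ⟨fun _ => i, fun a b _ => Subsingleton.elim a b⟩
    ⟨fun _ => j, fun a b _ => Subsingleton.elim a b⟩
  simpa using this

lemma output_gate (hn : 2 ≤ n) (hA : ∀ (k : ℕ) (r c : Fin k ↪ Fin n), (A.submatrix r c).det ≠ 0)
    (hC : C.Computes A) (i : Fin n) : ∃ e, C.head e = C.output i := by
  by_contra hcon
  push Not at hcon
  have : Nontrivial (Fin n) := Fin.nontrivial_iff_two_le.2 hn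
  obtain ⟨j, hj⟩ := exists_ne (C.label (C.output i))
  obtain ⟨val, h1, -, h3⟩ := hC (Pi.single j 1)
  have h4 := h1 _ hcon
  rw [h3, Pi.single_eq_of_ne hj.symm] at h4
  exact entry_ne hA i j (by simpa using h4)

lemma output_inj (hA : ∀ (k : ℕ) (r c : Fin k ↪ Fin n), (A.submatrix r c).det ≠ 0)
    (hC : C.Computes A) : Function.Injective C.output := by
  intro i i' h
  by_contra hne
  have h0 := hA n (Function.Embedding.refl _) (Function.Embedding.refl _)
  refine h0 (Matrix.det_zero_of_row_eq hne ?_)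
  funext j
  obtain ⟨val, -, -, h3⟩ := hC (Pi.single j 1)
  have h4 := h3 i
  rw [h, h3] at h4
  simpa using h4.symm

lemma cut (hn : 2 ≤ n) (hA : ∀ (k : ℕ) (r c : Fin k ↪ Fin n), (A.submatrix r c).det ≠ 0)
    (hC : C.Computes A) :
    Cut (rel C) (Finset.univ.image Sum.inl) (Finset.univ.image fun i => Sum.inr (C.output i)) := by
  classical
  intro S hS T hT hc D hD
  by_contra hcon
  set S' : Finset (Fin n) := Finset.univ.filter fun j => Sum.inl j ∈ S with hS'
  set T' : Finset (Fin n) := Finset.univ.filter fun i => Sum.inr (C.output i) ∈ T with hT'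
  have hS1 : S'.card = S.card := by
    refine Finset.card_bij (fun j _ => Sum.inl j) (fun j hj => (Finset.mem_filter.1 hj).2)
      (fun a _ b _ h => Sum.inl.inj h) fun s hs => ?_
    obtain ⟨j, -, rfl⟩ := Finset.mem_image.1 (hS hs)
    exact ⟨j, Finset.mem_filter.2 ⟨Finset.mem_univ _, hs⟩, rfl⟩
  have hT1 : T'.card = S.card := by
    rw [hc]
    refine Finset.card_bij (fun i _ => Sum.inr (C.output i)) (fun j hj => (Finset.mem_filter.1 hj).2)
      (fun a _ b _ h => output_inj hA hC (Sum.inr.inj h)) fun s hs => ?_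
    obtain ⟨j, -, rfl⟩ := Finset.mem_image.1 (hT hs)
    exact ⟨j, Finset.mem_filter.2 ⟨Finset.mem_univ _, hs⟩, rfl⟩
  set k := S.card with hk
  let c : Fin k ↪ Fin n := (S'.orderEmbOfFin hS1).toEmbedding
  let r : Fin k ↪ Fin n := (T'.orderEmbOfFin hT1).toEmbedding
  have hcS : ∀ t, Sum.inl (c t) ∈ S := fun t =>
    (Finset.mem_filter.1 (S'.orderEmbOfFin_mem hS1 t)).2
  have hrT : ∀ t, Sum.inr (C.output (r t)) ∈ T := fun t =>
    (Finset.mem_filter.1 (T'.orderEmbOfFin_mem hT1 t)).2
  choose val h1 h2 h3 using fun j : Fin n => hC (Pi.single j 1)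
  let W : Fin k → Fin n ⊕ Fin p → F := fun t =>
    Sum.elim (fun j => (Pi.single (c t) (1 : F) : Fin n → F) j) (val (c t))
  let M : Matrix D (Fin k) F := fun a t => W t a
  have hker : LinearMap.ker M.mulVecLin ≠ ⊥ := by
    refine LinearMap.ker_ne_bot_of_finrank_lt ?_
    simpa using hD
  obtain ⟨y, hy, hy0⟩ := Submodule.exists_mem_ne_zero_of_ne_bot hker
  have hyD : ∀ a ∈ D, ∑ t, W t a * y t = 0 := fun a ha => by
    have := congrFun (LinearMap.mem_ker.1 hy) ⟨a, ha⟩
    simpa [M, Matrix.mulVec, dotProduct] using this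
  have hW : ∀ t v, W t (phi C v) = val (c t) v := fun t v => by
    by_cases hv : ∃ e, C.head e = v
    · rw [phi_gate C hv]; rfl
    · push Not at hv
      rw [phi_src C hv, h1 _ _ hv]; rfl
  have key : ∀ v : Fin p, (¬ ∃ s ∈ S, s ∉ D ∧ phi C v ∉ D ∧
      ReflTransGen (fun a b => rel C a b ∧ a ∉ D ∧ b ∉ D) s (phi C v)) →
      ∑ t, val (c t) v * y t = 0 := by
    intro v
    induction v using (wf C).induction with
    | _ v ih =>
      intro hv
      by_cases hD' : phi C v ∈ D
      · simpa only [hW] using hyD _ hD'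
      by_cases hg : ∃ e, C.head e = v
      · simp only [h2 _ _ hg, Finset.sum_mul]
        rw [Finset.sum_comm]
        refine Finset.sum_eq_zero fun e he => ?_
        have he' : C.head e = v := (Finset.mem_filter.1 he).2
        have := ih (C.tail e) (TransGen.single ⟨e, rfl, he'⟩) ?_
        · simp only [mul_assoc]
          rw [← Finset.mul_sum, this, mul_zero]
        · rintro ⟨s, hs, hs1, hs2, hs3⟩
          refine hv ⟨s, hs, hs1, hD', hs3.tail ⟨⟨e, rfl, ?_⟩, hs2, hD'⟩⟩
          rw [phi_gate C hg, he']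
      · push Not at hg
        refine Finset.sum_eq_zero fun t _ => ?_
        rw [h1 _ _ hg, Pi.single_eq_of_ne, zero_mul]
        intro h
        rw [phi_src C hg, h] at hv hD'
        exact hv ⟨_, hcS t, hD', hD', ReflTransGen.refl⟩
  refine hA k r c (Matrix.exists_mulVec_eq_zero_iff.1 ⟨y, hy0, ?_⟩)
  funext t
  have hg := output_gate hn hA hC (r t)
  have := key (C.output (r t)) fun ⟨s, hs, hs1, hs2, hs3⟩ => hcon ⟨s, hs, _, hrT t, hs1,
    by rwa [phi_gate C hg] at hs2, by rwa [phi_gate C hg] at hs3⟩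
  simpa [h3, Matrix.mulVec, dotProduct, Pi.single_apply] using this

end Link

/-- Every linear circuit, over any field, that computes an `n × n` matrix all of whose square
minors are nonzero has at least `6 n - o(n)` edges. -/
theorem edges_of_minors {ε : ℝ} (hε : 0 < ε) : ∃ n0 : ℕ, ∀ n ≥ n0,
    ∀ (F : Type) [Field F] (A : Matrix (Fin n) (Fin n) F),
      (∀ (k : ℕ) (r c : Fin k ↪ Fin n), (A.submatrix r c).det ≠ 0) →
      ∀ (p q : ℕ) (C : Circuit F n p q), C.Computes A → (6 - ε) * n ≤ q := by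
  classical
  obtain ⟨n0, hn0⟩ := cut_bound_real hε
  refine ⟨max n0 2, fun n hn F _ A hA p q C hC => ?_⟩
  have h1 := hn0 n (le_of_max_le_left hn) (Fin n ⊕ Fin p) (Link.rel C)
    (Finset.univ.image Sum.inl) (Finset.univ.image fun i => Sum.inr (C.output i))
    (Link.rel_acyclic C) ?_ ?_ ?_ (Link.cut (le_of_max_le_right hn) hA hC)
  · exact h1.trans (by exact_mod_cast Link.ec_rel_le C)
  · rw [Finset.disjoint_left]
    intro a ha hb
    obtain ⟨_, -, rfl⟩ := Finset.mem_image.1 ha
    obtain ⟨_, -, h⟩ := Finset.mem_image.1 hb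
    cases h
  · rw [Finset.card_image_of_injective _ Sum.inl_injective]; simp
  · rw [Finset.card_image_of_injective _
      (fun a b h => Link.output_inj hA hC (Sum.inr.inj h))]; simp

end Pool.Agent.MP_5daf37_lc
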