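import Pool.Agent.MP_5daf37_lc.Defs

/-!
The minors of the matrix computed by a linear circuit are affine in each edge weight. Hence many
products of few minors satisfy a linear relation with coefficients `0, 1, -1`.
-/

open Matrix Finset

namespace Pool.Agent.MP_5daf37_lc.Vand

variable {F : Type} {n p s : ℕ}

open Classical in
/-- The value of a source on the input given by a column of `Q`. -/
noncomputable def src (C : Circuit F n p s) (Q : Matrix (Fin n) (Fin n) ℤ) (v : Fin p)
    (i : Fin n) : ℤ := if ∀ e, C.head e ≠ v then Q (C.label v) i else 0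

/-- The matrix of the linear system for the values at the tails of the edges. -/
def lead {R : Type} [CommRing R] (C : Circuit F n p s) (w : Fin s → R) :
    Matrix (Fin s) (Fin s) R :=
  of fun e e' => (if e = e' then 1 else 0) - if C.head e' = C.tail e then w e' else 0

/-- The bordered matrix. -/
noncomputable def big {R : Type} [CommRing R] (C : Circuit F n p s)
    (P Q : Matrix (Fin n) (Fin n) ℤ) (w : Fin s → R) :
    Matrix (Fin s ⊕ Fin n) (Fin s ⊕ Fin n) R :=
  fromBlocks (lead C w) (of fun e i => ((-src C Q (C.tail e) i : ℤ) : R))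
    (of fun r e' => if C.head e' = C.output r then w e' else 0)
    (of fun r i => ((P r i + src C Q (C.output r) i : ℤ) : R))

theorem big_map {R S : Type} [CommRing R] [CommRing S] (f : R →+* S) (C : Circuit F n p s)
    (P Q : Matrix (Fin n) (Fin n) ℤ) (w : Fin s → R) :
    f (big C P Q w).det = (big C P Q fun e => f (w e)).det := by
  rw [RingHom.map_det]
  congr 1
  ext a b
  rcases a with a | a <;> rcases b with b | b <;> simp [big, lead, apply_ite f]

theorem lead_det_ne [Field F] (C : Circuit F n p s) : (lead C C.weight).det ≠ 0 := by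
  intro h
  obtain ⟨y, hy, h0⟩ := Matrix.exists_mulVec_eq_zero_iff.2 h
  let r : Fin p → Fin p → Prop := Relation.TransGen fun a b => ∃ e, C.tail e = a ∧ C.head e = b
  have : IsTrans (Fin p) r := ⟨fun _ _ _ => Relation.TransGen.trans⟩
  have : Std.Irrefl r := ⟨C.acyclic⟩
  have key : ∀ v, ∀ e, C.tail e = v → y e = 0 := fun v => by
    induction v using (Finite.wellFounded_of_trans_of_irrefl r).induction with
    | _ v ih =>
      intro e he
      have h1 := congrFun h0 e
      simp only [mulVec, dotProduct, lead, of_apply, sub_mul, sum_sub_distrib, ite_mul, one_mul,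
        zero_mul, sum_ite_eq, mem_univ, if_true, Pi.zero_apply, sub_eq_zero] at h1
      rw [h1]
      refine sum_eq_zero fun e' _ => ?_
      split_ifs with h2
      · rw [ih (C.tail e') (Relation.TransGen.single ⟨e', rfl, h2.trans he⟩) e' rfl, mul_zero]
      · rfl
  exact hy (funext fun e => key _ e rfl)

theorem det_big [Field F] {C : Circuit F n p s} {A : Matrix (Fin n) (Fin n) F}
    (hC : C.Computes A) (P Q : Matrix (Fin n) (Fin n) ℤ) :
    (big C P Q C.weight).det = (lead C C.weight).det *
      (P.map (Int.castRingHom F) + A * Q.map (Int.castRingHom F)).det := by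
  choose val h1 h2 h3 using fun i => hC fun j => (Q j i : F)
  have key : ∀ i v, ∑ e', (if C.head e' = v then C.weight e' else 0) * val i (C.tail e') =
      val i v - (src C Q v i : F) := fun i v => by
    by_cases hv : ∀ e, C.head e ≠ v
    · rw [h1 i v hv, src, if_pos hv, sub_self]
      exact sum_eq_zero fun e _ => by rw [if_neg (hv e), zero_mul]
    · rw [src, if_neg hv, h2 i v (by simpa using hv), sum_filter]
      simp [ite_mul]
  have e : big C P Q C.weight * fromBlocks 1 (of fun e i => val i (C.tail e)) 0 1 =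
      fromBlocks (lead C C.weight) 0 (of fun r e' => if C.head e' = C.output r then C.weight e'
        else 0) (P.map (Int.castRingHom F) + A * Q.map (Int.castRingHom F)) := by
    rw [big, fromBlocks_multiply]
    simp only [Matrix.mul_one, Matrix.mul_zero, add_zero]
    congr 1
    · ext e i
      have := key i (C.tail e)
      simp only [Matrix.add_apply, mul_apply, lead, of_apply, sub_mul, sum_sub_distrib,
        Matrix.zero_apply, this]
      simp
    · ext r i
      have := key i (C.output r)
      simp only [Matrix.add_apply, mul_apply, of_apply, this, h3, map_apply, mulVec, dotProduct]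
      simp [add_comm]
  have := congrArg det e
  rwa [det_mul, det_fromBlocks_zero₂₁, det_fromBlocks_zero₁₂, det_one, det_one, mul_one,
    mul_one] at this

open MvPolynomial in
theorem degreeOf_big (C : Circuit F n p s) (P Q : Matrix (Fin n) (Fin n) ℤ) (e : Fin s) :
    degreeOf e (big C P Q (X : Fin s → MvPolynomial (Fin s) ℤ)).det ≤ 1 := by
  have hc : ∀ z : ℤ, degreeOf e (z : MvPolynomial (Fin s) ℤ) = 0 := fun z => by
    rw [← map_intCast (MvPolynomial.C : ℤ →+* MvPolynomial (Fin s) ℤ), degreeOf_C]
  have hx : ∀ (c : Prop) [Decidable c] (b : Fin s),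
      degreeOf e (if c then X b else 0 : MvPolynomial (Fin s) ℤ) ≤ if e = b then 1 else 0 :=
    fun c _ b => by
      by_cases h : c
      · rw [if_pos h, degreeOf_X]
      · rw [if_neg h, degreeOf_zero]; exact Nat.zero_le _
  have hb : ∀ a b, degreeOf e (big C P Q (X : Fin s → MvPolynomial (Fin s) ℤ) a b) ≤
      if Sum.inl e = b then 1 else 0 := fun a b => by
    rcases a with a | a <;> rcases b with b | b
    · simp only [big, fromBlocks_apply₁₁, lead, of_apply, Sum.inl.injEq]
      refine (degreeOf_sub_le _ _ _).trans (max_le ?_ (hx _ _))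
      split_ifs <;> simp
    · simp only [big, fromBlocks_apply₁₂, of_apply, hc]; exact Nat.zero_le _
    · simp only [big, fromBlocks_apply₂₁, of_apply, Sum.inl.injEq]; exact hx _ _
    · simp only [big, fromBlocks_apply₂₂, of_apply, hc]; exact Nat.zero_le _
  rw [det_apply']
  refine (degreeOf_sum_le _ _ _).trans (Finset.sup_le fun σ _ => ?_)
  refine (degreeOf_mul_le _ _ _).trans ?_
  rw [hc, zero_add]
  refine (degreeOf_prod_le _ _ _).trans ((sum_le_sum fun b _ => hb _ b).trans ?_)
  simp

theorem abs_big (C : Circuit F n p s) {P Q : Matrix (Fin n) (Fin n) ℤ}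
    (hP : ∀ i j, |P i j| ≤ 1) (hQ : ∀ i j, |Q i j| ≤ 1) {d : ℕ} (hd : 1 ≤ d) {g : Fin s → ℤ}
    (hg : ∀ e, |g e| ≤ d) :
    |(big C P Q g).det| ≤ ((s + n).factorial * (d + 1) ^ (s + n) : ℕ) := by
  have hs : ∀ v i, |src C Q v i| ≤ 1 := fun v i => by
    unfold src; split_ifs
    · exact hQ _ _
    · simp
  have hd' : (1 : ℤ) ≤ d := by exact_mod_cast hd
  have hx : ∀ (c : Prop) [Decidable c] (b : Fin s), |if c then g b else 0| ≤ d := fun c _ b => by
    split_ifs
    · exact hg b
    · simp
  have := Matrix.det_le (A := big C P Q g) (abv := AbsoluteValue.abs) (x := (d : ℤ) + 1)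
    fun a b => by
      rw [AbsoluteValue.abs_apply]
      rcases a with a | a <;> rcases b with b | b
      · simp only [big, fromBlocks_apply₁₁, lead, of_apply]
        refine (abs_sub _ _).trans ?_
        have : |(if a = b then 1 else 0 : ℤ)| ≤ 1 := by split_ifs <;> simp
        linarith [hx (C.head b = C.tail a) b]
      · simp only [big, fromBlocks_apply₁₂, of_apply, Int.cast_id, abs_neg]
        linarith [hs (C.tail a) b]
      · simp only [big, fromBlocks_apply₂₁, of_apply]
        linarith [hx (C.head b = C.output a) b]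
      · simp only [big, fromBlocks_apply₂₂, of_apply, Int.cast_id]
        linarith [abs_add_le (P a b) (src C Q (C.output a) b), hP a b, hs (C.output a) b]
  simpa using this

/-- A linear relation with coefficients `0, 1, -1` between products of mixed determinants. -/
theorem relation [Field F] {C : Circuit F n p s} {A : Matrix (Fin n) (Fin n) F}
    (hC : C.Computes A) {ι κ : Type} [Fintype ι] [Fintype κ] [Nonempty κ]
    (P Q : ι → κ → Matrix (Fin n) (Fin n) ℤ) (hP : ∀ T l i j, |P T l i j| ≤ 1)
    (hQ : ∀ T l i j, |Q T l i j| ≤ 1)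
    (h : (2 * (Fintype.card ι * ((s + n).factorial * (Fintype.card κ + 1) ^ (s + n)) ^
      Fintype.card κ) + 1) ^ (Fintype.card κ + 1) ^ s < 2 ^ Fintype.card ι) :
    ∃ S S' : Finset ι, S ≠ S' ∧
      ∑ T ∈ S, ∏ l, ((P T l).map (Int.castRingHom F) + A * (Q T l).map (Int.castRingHom F)).det =
      ∑ T ∈ S', ∏ l,
        ((P T l).map (Int.castRingHom F) + A * (Q T l).map (Int.castRingHom F)).det := by
  classical
  obtain ⟨d, hd⟩ : ∃ d, d = Fintype.card κ := ⟨_, rfl⟩
  rw [← hd] at h
  have hd1 : 1 ≤ d := hd ▸ Fintype.card_pos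
  obtain ⟨H, hH⟩ : ∃ H, H = (s + n).factorial * (d + 1) ^ (s + n) := ⟨_, rfl⟩
  rw [← hH] at h
  obtain ⟨B, hB⟩ : ∃ B, B = Fintype.card ι * H ^ d := ⟨_, rfl⟩
  rw [← hB] at h
  let f : Finset ι → (Fin s → Fin (d + 1)) → ℤ := fun S g =>
    ∑ T ∈ S, ∏ l, (big C (P T l) (Q T l) fun e => ((g e : ℕ) : ℤ)).det
  have hf : ∀ S ∈ (univ : Finset (Finset ι)),
      f S ∈ Fintype.piFinset fun _ => Icc (-(B : ℤ)) B := fun S _ => by
    rw [Fintype.mem_piFinset]
    intro g
    rw [mem_Icc, ← abs_le]
    refine (abs_sum_le_sum_abs _ _).trans ?_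
    refine (sum_le_card_nsmul _ _ ((H : ℤ) ^ d) fun T _ => ?_).trans ?_
    · rw [abs_prod, show (H : ℤ) ^ d = ∏ _l : κ, (H : ℤ) by rw [prod_const, card_univ, hd]]
      refine prod_le_prod (fun _ _ => abs_nonneg _) fun l _ => ?_
      rw [hH]
      refine abs_big C (hP T l) (hQ T l) hd1 fun e => ?_
      rw [abs_of_nonneg (Int.natCast_nonneg _)]
      exact_mod_cast Nat.lt_succ_iff.1 (g e).2
    · rw [hB, nsmul_eq_mul]
      push_cast
      gcongr
      exact card_le_univ S
  obtain ⟨S, -, S', -, hne, hS⟩ := exists_ne_map_eq_of_card_lt_of_maps_to (by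
    rw [Fintype.card_piFinset, prod_const, card_univ, card_univ, Fintype.card_finset, Int.card_Icc]
    refine lt_of_eq_of_lt ?_ h
    congr 1
    · omega
    · simp) hf
  refine ⟨S, S', hne, ?_⟩
  let G : ι → MvPolynomial (Fin s) ℤ := fun T => ∏ l, (big C (P T l) (Q T l) MvPolynomial.X).det
  have hG : ∀ (S : Finset ι) e, MvPolynomial.degreeOf e (∑ T ∈ S, G T) ≤ d := fun S e => by
    refine (MvPolynomial.degreeOf_sum_le _ _ _).trans (Finset.sup_le fun T _ => ?_)
    refine (MvPolynomial.degreeOf_prod_le _ _ _).trans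
      ((sum_le_sum fun l _ => degreeOf_big C _ _ e).trans ?_)
    simp [hd]
  have h0 : ∑ T ∈ S, G T - ∑ T ∈ S', G T = 0 := by
    refine MvPolynomial.eq_zero_of_eval_zero_at_prod_finset _ (fun _ => Icc (0 : ℤ) d)
      (fun e => ?_) fun x hx => ?_
    · refine ((MvPolynomial.degreeOf_sub_le _ _ _).trans (max_le (hG S e) (hG S' e))).trans_lt ?_
      simp
    · have hx' : ∀ e, (x e).toNat < d + 1 := fun e => by
        have := mem_Icc.1 (hx e); omega
      have h1 := congrFun hS fun e => ⟨(x e).toNat, hx' e⟩
      have h2 : (fun e => (((x e).toNat : ℕ) : ℤ)) = x :=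
        funext fun e => Int.toNat_of_nonneg (mem_Icc.1 (hx e)).1
      simp only [f, h2] at h1
      simp only [G, map_sub, map_sum, map_prod, big_map, MvPolynomial.eval_X, sub_eq_zero]
      exact h1
  have h1 := congrArg (MvPolynomial.eval₂Hom (Int.castRingHom F) C.weight) (sub_eq_zero.1 h0)
  simp only [G, map_sum, map_prod, big_map, MvPolynomial.eval₂Hom_X'] at h1
  have h2 : (fun e => C.weight e) = C.weight := rfl
  simp only [h2, det_big hC, prod_mul_distrib, prod_const, ← mul_sum] at h1
  exact mul_left_cancel₀ (pow_ne_zero _ (lead_det_ne C)) h1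

end Pool.Agent.MP_5daf37_lc.Vand
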