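import Pool.Agent.MP_5daf37_lc.VandA

/-!
Two-adic valuations of the minors of the Vandermonde matrix at the points `2 ^ Q ^ i`, and the
lower bound for the number of edges.
-/

open Matrix Finset

namespace Pool.Agent.MP_5daf37_lc.Vand

variable {n : ℕ}

/-- `a` is `2 ^ D` times an odd number. -/
def Val (a : ℤ) (D : ℕ) : Prop := ∃ z : ℤ, Odd z ∧ a = 2 ^ D * z

theorem Val.prod {κ : Type} (t : Finset κ) {a : κ → ℤ} {D : κ → ℕ} (h : ∀ l, Val (a l) (D l)) :
    Val (∏ l ∈ t, a l) (∑ l ∈ t, D l) := by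
  classical
  induction t using Finset.induction_on with
  | empty => exact ⟨1, odd_one, by simp⟩
  | insert l t hl ih =>
    obtain ⟨z, hz, e⟩ := h l
    obtain ⟨z', hz', e'⟩ := ih
    exact ⟨z * z', hz.mul hz', by rw [prod_insert hl, sum_insert hl, e, e']; ring⟩

theorem sum_injective {ι : Type} [Fintype ι] {a : ι → ℤ} {D : ι → ℕ} (h : ∀ T, Val (a T) (D T))
    (hD : Function.Injective D) {S S' : Finset ι} (e : ∑ T ∈ S, a T = ∑ T ∈ S', a T) : S = S' := by
  classical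
  by_contra hne
  let c : ι → ℤ := fun T => (if T ∈ S then 1 else 0) - if T ∈ S' then 1 else 0
  have h0 : ∑ T, c T * a T = 0 := by
    simp only [c, sub_mul, sum_sub_distrib, ite_mul, one_mul, zero_mul, sum_ite_mem, univ_inter, e,
      sub_self]
  have hU : (univ.filter fun T => ¬(T ∈ S ↔ T ∈ S')).Nonempty := by
    by_contra hU
    rw [not_nonempty_iff_eq_empty, filter_eq_empty_iff] at hU
    exact hne (Finset.ext fun T => not_not.1 (hU (mem_univ T)))
  obtain ⟨T₀, h1, h2⟩ := exists_min_image _ D hU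
  have h3 : ∀ T ∈ univ.erase T₀, (2 : ℤ) ^ (D T₀ + 1) ∣ c T * a T := fun T hT => by
    by_cases hc : T ∈ S ↔ T ∈ S'
    · simp [c, hc]
    · obtain ⟨z, -, e⟩ := h T
      have h4 : D T₀ < D T := lt_of_le_of_ne (h2 T (by simpa using hc))
        fun h5 => (mem_erase.1 hT).1 (hD h5).symm
      rw [e]
      exact ((pow_dvd_pow 2 h4).mul_right z).mul_left _
  rw [← add_sum_erase _ _ (mem_univ T₀)] at h0
  have h5 : (2 : ℤ) ^ (D T₀ + 1) ∣ c T₀ * a T₀ := by
    rw [eq_neg_of_add_eq_zero_left h0]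
    exact (dvd_sum h3).neg_right
  obtain ⟨z, hz, e⟩ := h T₀
  have h6 : Odd (c T₀) := by
    have := (mem_filter.1 h1).2
    by_cases h7 : T₀ ∈ S <;> by_cases h8 : T₀ ∈ S' <;> simp_all [c]
  rw [e, mul_left_comm, pow_succ, mul_dvd_mul_iff_left (by positivity)] at h5
  exact (Int.not_even_iff_odd.2 (h6.mul hz)) (even_iff_two_dvd.2 h5)

/-- Unit columns outside `X`. -/
def PP (X : Finset (Fin n)) : Matrix (Fin n) (Fin n) ℤ :=
  of fun r i => if i ∉ X ∧ r = i then 1 else 0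

/-- Selection of the column `j i` for `i` in `X`. -/
def QQ (X : Finset (Fin n)) (j : Fin n → ℕ) : Matrix (Fin n) (Fin n) ℤ :=
  of fun c i => if i ∈ X ∧ c.val = j i then 1 else 0

theorem val_det {o : Fin n → ℕ} (ho : StrictMono o) (X : Finset (Fin n)) (j : Fin n → ℕ)
    (hj : ∀ i ∈ X, j i < n) (hj' : ∀ i ∈ X, ∀ i' ∈ X, i < i' → j i' < j i) :
    Val (PP X + vandermonde (fun i => (2 : ℤ) ^ o i) * QQ X j).det (∑ i ∈ X, o i * j i) := by
  obtain ⟨M, hM⟩ : ∃ M, M = PP X + vandermonde (fun i => (2 : ℤ) ^ o i) * QQ X j := ⟨_, rfl⟩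
  have h1 : ∀ r, ∀ i ∈ X, M r i = 2 ^ (o r * j i) := fun r i hi => by
    rw [hM, Matrix.add_apply, mul_apply, sum_eq_single ⟨j i, hj i hi⟩]
    · simp [PP, QQ, hi, pow_mul]
    · intro c _ hc
      have : c.val ≠ j i := fun h => hc (Fin.ext h)
      simp [QQ, this]
    · simp
  have h2 : ∀ r, ∀ i ∉ X, M r i = if r = i then 1 else 0 := fun r i hi => by
    rw [hM, Matrix.add_apply, mul_apply]
    simp [PP, QQ, hi]
  have h3 : ∀ σ : Equiv.Perm (Fin n), (∀ i ∉ X, σ i = i) →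
      ∏ i, M (σ i) i = 2 ^ ∑ i ∈ X, o (σ i) * j i := fun σ hσ => by
    rw [← prod_pow_eq_pow_sum, ← prod_congr rfl fun i hi => h1 (σ i) i hi]
    exact (prod_subset (subset_univ X) fun i _ hi => by rw [h2 _ i hi, if_pos (hσ i hi)]).symm
  have ha : AntivaryOn o j X := fun i hi i' hi' h => by
    rcases lt_trichotomy i i' with h4 | h4 | h4
    · exact absurd (hj' i hi i' hi' h4) (not_lt.2 h.le)
    · rw [h4]
    · exact (ho h4).le
  have h4 : ∀ σ ∈ univ.erase (1 : Equiv.Perm (Fin n)),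
      (2 : ℤ) ^ (∑ i ∈ X, o i * j i + 1) ∣ ((Equiv.Perm.sign σ : ℤˣ) : ℤ) * ∏ i, M (σ i) i := by
    intro σ hσ
    refine Dvd.dvd.mul_left ?_ _
    by_cases hs : ∀ i ∉ X, σ i = i
    · have hX : ∀ i, σ i ≠ i → i ∈ X := fun i hi => not_not.1 fun h => hi (hs i h)
      rw [h3 σ hs]
      refine pow_dvd_pow 2 ((ha.sum_mul_lt_sum_comp_perm_mul_iff (σ := σ) hX).2 fun hb => ?_)
      have hU : (univ.filter fun i => σ i ≠ i).Nonempty := by
        by_contra hU
        rw [not_nonempty_iff_eq_empty, filter_eq_empty_iff] at hU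
        exact (mem_erase.1 hσ).1 (Equiv.ext fun i => not_not.1 (hU (mem_univ i)))
      obtain ⟨a, h5, h6⟩ := exists_min_image _ id hU
      have h7 : σ a ≠ a := (mem_filter.1 h5).2
      have h8 : σ.symm a ≠ a := fun h => h7 (by conv_lhs => rw [← h, Equiv.apply_symm_apply])
      have h9 : σ (σ.symm a) ≠ σ.symm a := by rw [Equiv.apply_symm_apply]; exact h8.symm
      have h10 : a < σ.symm a := lt_of_le_of_ne (h6 _ (by simpa using h8.symm)) h8.symm
      have h11 : a < σ a := lt_of_le_of_ne (h6 _ (by simpa using h7)) h7.symm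
      have h12 := hb (hX _ h9) (hX _ h7) (hj' _ (hX _ h7) _ (hX _ h9) h10)
      simp only [Function.comp, Equiv.apply_symm_apply] at h12
      exact absurd (ho h11) (not_lt.2 h12)
    · push Not at hs
      obtain ⟨i, hi, hs⟩ := hs
      rw [prod_eq_zero (mem_univ i) (by rw [h2 _ i hi, if_neg hs])]
      exact dvd_zero _
  obtain ⟨z, hz⟩ := dvd_sum h4
  refine ⟨2 * z + 1, odd_two_mul_add_one z, ?_⟩
  rw [← hM, det_apply', ← add_sum_erase _ _ (mem_univ 1)]
  simp only [Int.cast_id] at hz ⊢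
  rw [hz, h3 1 fun _ _ => rfl]
  simp only [Equiv.Perm.sign_one, Units.val_one, Equiv.Perm.coe_one, id_eq]
  ring

theorem count {k q s : ℕ} (hk : k + 2 ^ q ≤ n) (hq : 1 ≤ q)
    (h : 20 * n ^ 5 * (2 * q + 1) ^ s < 2 ^ (k * q)) :
    (2 * (2 ^ (k * q) * ((s + n).factorial * (2 * q + 1) ^ (s + n)) ^ (2 * q)) + 1) ^
      (2 * q + 1) ^ s < 2 ^ 2 ^ (k * q) := by
  have h1 : q < 2 ^ q := Nat.lt_two_pow_self
  have hn : 1 ≤ n := by omega
  have h2 : k * q ≤ n ^ 2 := by rw [sq]; exact Nat.mul_le_mul (by omega) (by omega)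
  have h3 : s < k * q := by
    refine (Nat.pow_lt_pow_iff_right one_lt_two).1 (lt_of_le_of_lt ?_ h)
    exact (Nat.pow_le_pow_left (by omega) s).trans (Nat.le_mul_of_pos_left _ (by positivity))
  have e1 : n ≤ n ^ 2 := Nat.le_self_pow (by norm_num) n
  have e2 : n ^ 2 ≤ n ^ 5 := Nat.pow_le_pow_right hn (by norm_num)
  have e3 : n ^ 3 ≤ n ^ 4 := Nat.pow_le_pow_right hn (by norm_num)
  have e4 : 1 ≤ n ^ 5 := Nat.one_le_pow _ _ hn
  obtain ⟨N, hN⟩ : ∃ N, N = s + n := ⟨_, rfl⟩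
  have h4 : N ≤ 2 * n ^ 2 := by omega
  rw [← hN]
  have h5 : N.factorial ≤ 2 ^ (4 * n ^ 4) := by
    refine (Nat.factorial_le_pow N).trans
      ((Nat.pow_le_pow_left (Nat.lt_two_pow_self (n := N)).le N).trans ?_)
    rw [← pow_mul]
    refine Nat.pow_le_pow_right two_pos ((Nat.mul_le_mul h4 h4).trans_eq (by ring))
  have h6 : (2 * q + 1) ^ N ≤ 2 ^ (4 * n ^ 4) := by
    refine (Nat.pow_le_pow_left (Nat.lt_two_pow_self (n := 2 * q)) N).trans ?_
    rw [← pow_mul]
    refine Nat.pow_le_pow_right two_pos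
      ((Nat.mul_le_mul (show 2 * q ≤ 2 * n by omega) h4).trans ?_)
    calc 2 * n * (2 * n ^ 2) = 4 * n ^ 3 := by ring
      _ ≤ 4 * n ^ 4 := by omega
  have h7 : (N.factorial * (2 * q + 1) ^ N) ^ (2 * q) ≤ 2 ^ (16 * n ^ 5) := by
    refine (Nat.pow_le_pow_left (Nat.mul_le_mul h5 h6) _).trans ?_
    rw [← pow_add, ← pow_mul]
    refine Nat.pow_le_pow_right two_pos
      ((Nat.mul_le_mul_left _ (show 2 * q ≤ 2 * n by omega)).trans_eq (by ring))
  have h8 : 2 ^ (k * q) * (N.factorial * (2 * q + 1) ^ N) ^ (2 * q) ≤ 2 ^ (17 * n ^ 5) := by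
    refine (Nat.mul_le_mul (Nat.pow_le_pow_right two_pos (h2.trans e2)) h7).trans_eq ?_
    rw [← pow_add]; congr 1; ring
  have h9 : 2 * (2 ^ (k * q) * (N.factorial * (2 * q + 1) ^ N) ^ (2 * q)) + 1 ≤
      2 ^ (20 * n ^ 5) := by
    have h10 : 2 ^ (17 * n ^ 5 + 2) ≤ 2 ^ (20 * n ^ 5) := Nat.pow_le_pow_right two_pos (by omega)
    have h11 : 1 ≤ 2 ^ (17 * n ^ 5) := Nat.one_le_two_pow
    rw [pow_add] at h10
    omega
  refine (Nat.pow_le_pow_left h9 _).trans_lt ?_
  rw [← pow_mul]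
  exact Nat.pow_lt_pow_right one_lt_two h

/-- The explicit inequality. -/
theorem main {F : Type} [Field F] [CharZero F] {k q Q p s : ℕ} (hk : k + 2 ^ q ≤ n)
    (hQ : 2 ^ q ≤ Q) (C : Circuit F n p s)
    (hC : C.Computes (vandermonde fun i : Fin n => (2 : F) ^ Q ^ (i : ℕ))) :
    2 ^ (k * q) ≤ 20 * n ^ 5 * (2 * q + 1) ^ s := by
  by_contra h
  rw [not_le] at h
  have h1 : 1 ≤ 2 ^ q := Nat.one_le_two_pow
  have hn : 0 < n := by omega
  have hq : 1 ≤ q := by
    by_contra hq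
    have h2 : 0 < 20 * n ^ 5 * (2 * q + 1) ^ s := by positivity
    rw [show q = 0 by omega, mul_zero k, pow_zero] at h
    rw [show q = 0 by omega] at h2
    omega
  have hkn : k ≤ n := by omega
  have : Nonempty (Fin q) := ⟨⟨0, hq⟩⟩
  let X : (Fin k → Fin q → Fin 2) → Fin q × Fin 2 → Finset (Fin n) := fun T l =>
    (univ.filter fun i => T i l.1 = l.2).map (Fin.castLEEmb hkn)
  let j : Fin q × Fin 2 → Fin n → ℕ := fun l i => k - 1 - i + l.2 * 2 ^ (l.1 : ℕ)
  have hX : ∀ T l, ∀ i ∈ X T l, i.val < k := fun T l i hi => by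
    obtain ⟨i', -, rfl⟩ := mem_map.1 hi
    exact i'.2
  have ho : StrictMono fun i : Fin n => Q ^ (i : ℕ) := fun a b hab =>
    Nat.pow_lt_pow_right (lt_of_lt_of_le (Nat.one_lt_two_pow (by omega)) hQ) hab
  have hv := fun T => Val.prod univ fun l => val_det ho (X T l) (j l) (fun i hi => by
    have h2 := hX T l i hi
    have h3 : 2 ^ (l.1 : ℕ) ≤ 2 ^ q := Nat.pow_le_pow_right two_pos l.1.2.le
    have h4 : (l.2 : ℕ) * 2 ^ (l.1 : ℕ) ≤ 1 * 2 ^ q :=
      Nat.mul_le_mul (Nat.lt_succ_iff.1 l.2.2) h3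
    simp only [j]; omega) fun i hi i' hi' h => by
      have h2 := hX T l i' hi'
      have h3 : i.val < i'.val := h
      simp only [j]; omega
  have hD : ∀ T, ∑ l, ∑ i ∈ X T l, Q ^ (i : ℕ) * j l i = ∑ i : Fin k, q * (Q ^ (i : ℕ) *
      (k - 1 - i)) + finFunctionFinEquiv fun i => Fin.castLE hQ (finFunctionFinEquiv (T i)) := by
    intro T
    simp only [X, j, sum_map, Fintype.sum_prod_type, finFunctionFinEquiv_apply, Fin.castLEEmb_apply,
      Fin.val_castLE, sum_filter, ← sum_add_distrib]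
    simp only [sum_comm (s := (univ : Finset (Fin 2))), sum_ite_eq, mem_univ, if_true]
    rw [sum_comm]
    refine sum_congr rfl fun i _ => ?_
    simp only [mul_comm (Q ^ (i : ℕ)), add_mul, sum_add_distrib, sum_const, card_univ,
      Fintype.card_fin, smul_eq_mul, sum_mul]
  obtain ⟨S, S', hne, e⟩ := relation hC (fun T l => PP (X T l)) (fun T l => QQ (X T l) (j l))
    (fun T l a b => by simp only [PP, of_apply]; split_ifs <;> simp)
    (fun T l a b => by simp only [QQ, of_apply]; split_ifs <;> simp) (by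
      simpa [← pow_mul, mul_comm q] using count hk hq h)
  refine hne (sum_injective hv (fun T T' e => ?_) ?_)
  · simp only [hD, add_right_inj] at e
    have h2 := finFunctionFinEquiv.injective (Fin.ext e)
    exact funext fun i => finFunctionFinEquiv.injective (Fin.castLE_injective hQ (congrFun h2 i))
  · refine Int.cast_injective (α := F) ?_
    have h2 : (vandermonde fun i : Fin n => (2 : F) ^ Q ^ (i : ℕ)) =
        (vandermonde fun i : Fin n => (2 : ℤ) ^ Q ^ (i : ℕ)).map (Int.castRingHom F) := by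
      ext a b; simp
    simp only [h2, ← RingHom.mapMatrix_apply, ← map_mul, ← map_add, ← RingHom.map_det,
      eq_intCast] at e
    exact_mod_cast e

end Pool.Agent.MP_5daf37_lc.Vand
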